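import Mathlib

set_option autoImplicit false

namespace Pool.Agent.W125.Kotzig

/-- `(V, op)` is a P-groupoid: (i) `a · a = a`; (ii) `a · b ≠ a` and `a · b ≠ b` whenever `a ≠ b`;
(iii) `a · b = c` if and only if `c · b = a`. -/
structure IsPGroupoid {V : Type} (op : V → V → V) : Prop where
  idem : ∀ a, op a a = a
  ne : ∀ a b, a ≠ b → op a b ≠ a ∧ op a b ≠ b
  swap : ∀ a b c, op a b = c ↔ op c b = a

/-- `(V, op)` is a quasigroup: each of the equations `a · x = b` and `y · a = b` has exactly one
solution. -/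
def IsQuasigroup {V : Type} (op : V → V → V) : Prop :=
  (∀ a b, ∃! x, op a x = b) ∧ (∀ a b, ∃! y, op y a = b)

/-- With `n = |V|`, there is a cyclic sequence `v` of length `m = n (n - 1) / 2` such that
`v i · v (i + 1) = v (i + 2)` for all `i` (indices modulo `m`), and every edge `{x, y}` of the
complete graph on `V` equals `{v i, v (i + 1)}` for exactly one `i`. -/
def IsEulerian {V : Type} [Fintype V] (op : V → V → V) : Prop :=
  ∃ v : ZMod (Fintype.card V * (Fintype.card V - 1) / 2) → V,
    (∀ i, op (v i) (v (i + 1)) = v (i + 2)) ∧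
    ∀ x y, x ≠ y → ∃! i, s(v i, v (i + 1)) = s(x, y)

section General

theorem unique_of_surj {A V : Type} [Fintype A] [Fintype V] [DecidableEq V] (f : A → Sym2 V)
    (hA : Fintype.card A = (Fintype.card V).choose 2)
    (hs : ∀ x y, x ≠ y → ∃ i, f i = s(x, y)) :
    (∀ x y, x ≠ y → ∃! i, f i = s(x, y)) ∧ ∀ i, ¬ (f i).IsDiag := by
  classical
  have hs' : ∀ e : {e : Sym2 V // ¬ e.IsDiag}, ∃ i, f i = e.1 := by
    rintro ⟨e, he⟩
    induction e with
    | _ x y => exact hs x y (by simpa using he)
  choose g hg using hs'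
  have hinj : Function.Injective g := fun a b hab => by
    apply Subtype.ext
    rw [← hg a, ← hg b, hab]
  have hbij : Function.Bijective g := by
    rw [Fintype.bijective_iff_injective_and_card]
    exact ⟨hinj, by rw [hA, Sym2.card_subtype_not_diag]⟩
  have key : ∀ i, ∃ e : {e : Sym2 V // ¬ e.IsDiag}, g e = i := fun i => hbij.2 i
  refine ⟨fun x y hxy => ?_, fun i => ?_⟩
  · have hd : ¬ (s(x, y) : Sym2 V).IsDiag := by simpa using hxy
    refine ⟨g ⟨s(x, y), hd⟩, hg _, fun j hj => ?_⟩
    obtain ⟨e, rfl⟩ := key j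
    have : e = ⟨s(x, y), hd⟩ := Subtype.ext (by rw [← hg e]; exact hj)
    rw [this]
  · obtain ⟨e, rfl⟩ := key i
    rw [hg]
    exact e.2

/-- A closed walk which traverses every edge exactly once and in which every pair of vertices is
exactly once at distance two gives an Eulerian P-quasigroup. -/
theorem exists_of_walk {V : Type} [Fintype V] [DecidableEq V] (m : ℕ) [NeZero m]
    (hm : m = Fintype.card V * (Fintype.card V - 1) / 2)
    (v : ZMod m → V)
    (h1 : ∀ x y, x ≠ y → ∃ i, s(v i, v (i + 1)) = s(x, y))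
    (h2 : ∀ x y, x ≠ y → ∃ i, s(v i, v (i + 2)) = s(x, y)) :
    ∃ op : V → V → V, IsPGroupoid op ∧ IsQuasigroup op ∧ IsEulerian op := by
  classical
  have hcard : Fintype.card (ZMod m) = (Fintype.card V).choose 2 := by
    rw [ZMod.card, hm, Nat.choose_two_right]
  obtain ⟨u1, n1⟩ := unique_of_surj (fun i => s(v i, v (i + 1))) hcard h1
  obtain ⟨u2, n2⟩ := unique_of_surj (fun i => s(v i, v (i + 2))) hcard h2
  have n1' : ∀ i, v i ≠ v (i + 1) := fun i => by simpa using n1 i
  have n2' : ∀ i, v i ≠ v (i + 2) := fun i => by simpa using n2 i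
  choose c hc huc using u1
  let op : V → V → V := fun x y =>
    if h : x = y then x else if v (c x y h) = x then v (c x y h + 2) else v (c x y h - 1)
  have hop : ∀ x y (h : x ≠ y),
      op x y = if v (c x y h) = x then v (c x y h + 2) else v (c x y h - 1) := fun x y h => by
    simp only [op, dif_neg h]
  have F0 : ∀ x, op x x = x := fun x => by simp [op]
  have F1 : ∀ i, op (v i) (v (i + 1)) = v (i + 2) := fun i => by
    have hi : i = c _ _ (n1' i) := huc _ _ (n1' i) i rfl
    rw [hop _ _ (n1' i), ← hi, if_pos rfl]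
  have F2 : ∀ i, op (v (i + 1)) (v i) = v (i - 1) := fun i => by
    have hi : i = c _ _ (n1' i).symm := huc _ _ (n1' i).symm i Sym2.eq_swap
    rw [hop _ _ (n1' i).symm, ← hi, if_neg (n1' i)]
  -- every ordered pair of distinct elements is of one of two forms
  have form : ∀ x y, x ≠ y → ∃ i, (x = v i ∧ y = v (i + 1)) ∨ (x = v (i + 1) ∧ y = v i) := by
    intro x y h
    have := hc x y h
    simp only [Sym2.eq_iff] at this
    rcases this with ⟨a, b⟩ | ⟨a, b⟩
    · exact ⟨_, Or.inl ⟨a.symm, b.symm⟩⟩
    · exact ⟨_, Or.inr ⟨b.symm, a.symm⟩⟩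
  have hne : ∀ a b, a ≠ b → op a b ≠ a ∧ op a b ≠ b := by
    intro a b h
    obtain ⟨i, ⟨rfl, rfl⟩ | ⟨rfl, rfl⟩⟩ := form a b h
    · rw [F1]
      refine ⟨(n2' i).symm, ?_⟩
      have := n1' (i + 1)
      rw [show i + 1 + 1 = i + 2 by ring] at this
      exact this.symm
    · rw [F2]
      refine ⟨?_, ?_⟩
      · have := n2' (i - 1)
        rwa [show i - 1 + 2 = i + 1 by ring] at this
      · have := n1' (i - 1)
        rwa [show i - 1 + 1 = i by ring] at this
  have hsw : ∀ a b, op (op a b) b = a := by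
    intro a b
    by_cases h : a = b
    · subst h; rw [F0, F0]
    obtain ⟨i, ⟨rfl, rfl⟩ | ⟨rfl, rfl⟩⟩ := form a b h
    · rw [F1]
      have := F2 (i + 1)
      rw [show i + 1 + 1 = i + 2 by ring, show i + 1 - 1 = i by ring] at this
      exact this
    · rw [F2]
      have := F1 (i - 1)
      rw [show i - 1 + 1 = i by ring, show i - 1 + 2 = i + 1 by ring] at this
      exact this
  have hP : IsPGroupoid op := by
    refine ⟨F0, hne, fun a b c => ⟨?_, ?_⟩⟩
    · rintro rfl; exact hsw a b
    · rintro rfl; exact hsw c b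
  refine ⟨op, hP, ⟨fun a b => ?_, fun a b => ?_⟩, ?_⟩
  · by_cases h : a = b
    · subst h
      refine ⟨a, F0 a, fun y hy => ?_⟩
      by_contra hya
      exact (hne a y (Ne.symm hya)).1 hy
    · obtain ⟨i, hi, hui⟩ := u2 a b h
      have hi' := hi
      simp only [Sym2.eq_iff] at hi'
      refine ⟨v (i + 1), ?_, ?_⟩
      · rcases hi' with ⟨h3, h4⟩ | ⟨h3, h4⟩
        · rw [← h3, ← h4]; exact F1 i
        · rw [← h3, ← h4]
          have := F2 (i + 1)
          rw [show i + 1 + 1 = i + 2 by ring, show i + 1 - 1 = i by ring] at this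
          exact this
      · intro x hx
        have hax : a ≠ x := by
          rintro rfl
          exact h ((F0 a).symm.trans hx)
        obtain ⟨j, ⟨rfl, rfl⟩ | ⟨rfl, rfl⟩⟩ := form a x hax
        · rw [F1] at hx
          subst hx
          have := hui j rfl
          rw [this]
        · rw [F2] at hx
          subst hx
          have := hui (j - 1) (by
            simp only
            rw [show j - 1 + 2 = j + 1 by ring]
            exact Sym2.eq_swap)
          rw [← this, show j - 1 + 1 = j by ring]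
  · refine ⟨op b a, hsw b a, fun y hy => ?_⟩
    rw [← hy, hsw]
  · unfold IsEulerian
    subst hm
    refine ⟨v, F1, fun x y h => ⟨c x y h, hc x y h, fun j hj => huc x y h j hj⟩⟩

end General

end Pool.Agent.W125.Kotzig
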