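import Mathlib
import Pool.Agent.W125.KotzigA

set_option autoImplicit false

namespace Pool.Agent.W125.Kotzig

open Finset

section Cyclic

/-- The list of conditions on a sequence of differences `e 0, …, e (k-1)`. -/
structure Starter (k : ℕ) (e : ℕ → ℤ) : Prop where
  pos : 0 < k
  diffs : ∀ c : ℕ, 1 ≤ c → c ≤ k → ∃ r, r < k ∧ (e r = c ∨ e r = -c)
  sums : ∀ c : ℕ, 1 ≤ c → c ≤ k → ∃ r, r < k ∧
    (e r + e ((r + 1) % k) = c ∨ e r + e ((r + 1) % k) = -c ∨
      e r + e ((r + 1) % k) = (2 * k + 1) - c ∨ e r + e ((r + 1) % k) = c - (2 * k + 1))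
  total : ∃ u q : ℤ, u * (∑ j ∈ range k, e j) + q * (2 * k + 1) = 1

variable {k : ℕ} {e : ℕ → ℤ}

theorem walk_of_starter (h : Starter k e) :
    ∃ v : ZMod ((2 * k + 1) * k) → ZMod (2 * k + 1),
      (∀ x y, x ≠ y → ∃ i, s(v i, v (i + 1)) = s(x, y)) ∧
      (∀ x y, x ≠ y → ∃ i, s(v i, v (i + 2)) = s(x, y)) := by
  obtain ⟨hk, hd, hs, u, q, huq⟩ := h
  set n : ℕ := 2 * k + 1 with hn
  set d : ℕ → ZMod n := fun j => ((e (j % k) : ℤ) : ZMod n) with hdd
  set σ : ZMod n := ((∑ j ∈ range k, e j : ℤ) : ZMod n) with hσ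
  have hunit : (u : ZMod n) * σ = 1 := by
    have := congrArg (fun z : ℤ => (z : ZMod n)) huq
    simp only [Int.cast_add, Int.cast_mul] at this
    have hz : ((2 * (k : ℤ) + 1 : ℤ) : ZMod n) = 0 := by
      have : ((2 * (k : ℤ) + 1 : ℤ)) = ((n : ℕ) : ℤ) := by rw [hn]; push_cast; ring
      rw [this]
      simp
    have hz' : (((2 : ℤ) : ZMod n) * ((k : ℤ) : ZMod n) + ((1 : ℤ) : ZMod n)) = 0 := by
      rw [← hz]; push_cast; ring
    rw [hσ]
    rw [hz', mul_zero, add_zero] at this
    rw [this]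
    simp
  set w : ℕ → ZMod n := fun j => ∑ i ∈ range j, d i with hw
  have w1 : ∀ j, w (j + 1) = w j + d j := fun j => by rw [hw]; exact Finset.sum_range_succ _ _
  have wk : ∀ j, w (j + k) = w j + σ := by
    intro j
    have h1 : w (k + j) = w k + w j := by
      rw [hw]
      simp only
      rw [Finset.sum_range_add]
      congr 1
      apply Finset.sum_congr rfl
      intro x _
      simp [hdd]
    have h2 : w k = σ := by
      rw [hw, hσ]
      simp only
      push_cast
      apply Finset.sum_congr rfl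
      intro x hx
      rw [hdd]
      simp only
      rw [Nat.mod_eq_of_lt (Finset.mem_range.1 hx)]
    rw [add_comm j k, h1, h2, add_comm]
  have wkt : ∀ t j, w (j + k * t) = w j + t * σ := by
    intro t
    induction t with
    | zero => intro j; simp
    | succ t ih =>
      intro j
      rw [show j + k * (t + 1) = (j + k * t) + k by ring, wk, ih]
      push_cast
      ring
  have wper : Function.Periodic w (n * k) := by
    intro j
    rw [mul_comm, wkt]
    simp
  have : NeZero (n * k) := ⟨by positivity⟩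
  let v : ZMod (n * k) → ZMod n := fun i => w i.val
  have vcast : ∀ j : ℕ, v (j : ZMod (n * k)) = w j := by
    intro j
    simp only [v, ZMod.val_natCast]
    exact wper.map_mod_nat j
  have dper : ∀ r t, d (r + k * t) = d r := by
    intro r t
    simp [hdd]
  -- representing a nonzero residue by a class
  have rep : ∀ g : ZMod n, g ≠ 0 → ∃ c : ℕ, 1 ≤ c ∧ c ≤ k ∧
      (g = (c : ZMod n) ∨ g = -(c : ZMod n)) := by
    intro g hg
    have hv : g.val < n := ZMod.val_lt g
    have hv0 : g.val ≠ 0 := fun h0 => hg ((ZMod.val_eq_zero g).1 h0)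
    by_cases hc : g.val ≤ k
    · exact ⟨g.val, by omega, hc, Or.inl (ZMod.natCast_zmod_val g).symm⟩
    · refine ⟨n - g.val, by omega, by omega, Or.inr ?_⟩
      rw [Nat.cast_sub hv.le, ZMod.natCast_zmod_val, ZMod.natCast_self]
      ring
  have reach : ∀ (r : ℕ) (x : ZMod n), ∃ t : ℕ, w (r + k * t) = x := by
    intro r x
    refine ⟨((x - w r) * u).val, ?_⟩
    rw [wkt, ZMod.natCast_zmod_val, mul_assoc, hunit]
    ring
  refine ⟨v, ?_, ?_⟩
  · intro x y hxy
    obtain ⟨c, hc1, hck, hcg⟩ := rep (y - x) (sub_ne_zero.2 hxy.symm)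
    obtain ⟨r, hr, her⟩ := hd c hc1 hck
    have hdr : d r = y - x ∨ d r = x - y := by
      have h0 : d r = ((e r : ℤ) : ZMod n) := by
        rw [hdd]; simp only; rw [Nat.mod_eq_of_lt hr]
      rw [h0]
      rcases her with her | her <;> rcases hcg with hcg | hcg <;> rw [her]
      · left; rw [hcg]; simp
      · right; rw [← neg_sub y x, hcg]; simp
      · right; rw [← neg_sub y x, hcg]; simp
      · left; rw [hcg]; simp
    rcases hdr with hdr | hdr
    · obtain ⟨t, ht⟩ := reach r x
      refine ⟨((r + k * t : ℕ) : ZMod (n * k)), ?_⟩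
      have e1 : (((r + k * t : ℕ) : ZMod (n * k)) + 1) = ((r + k * t + 1 : ℕ) : ZMod (n * k)) := by
        push_cast; ring
      rw [e1, vcast, vcast, w1, ht, dper, hdr]
      congr 1
      rw [add_sub_cancel]
    · obtain ⟨t, ht⟩ := reach r y
      refine ⟨((r + k * t : ℕ) : ZMod (n * k)), ?_⟩
      have e1 : (((r + k * t : ℕ) : ZMod (n * k)) + 1) = ((r + k * t + 1 : ℕ) : ZMod (n * k)) := by
        push_cast; ring
      rw [e1, vcast, vcast, w1, ht, dper, hdr, add_sub_cancel]
      exact Sym2.eq_swap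
  · intro x y hxy
    obtain ⟨c, hc1, hck, hcg⟩ := rep (y - x) (sub_ne_zero.2 hxy.symm)
    obtain ⟨r, hr, her⟩ := hs c hc1 hck
    have hnz : ((2 * (k : ℤ) + 1 : ℤ) : ZMod n) = 0 := by
      have : ((2 * (k : ℤ) + 1 : ℤ)) = ((n : ℕ) : ℤ) := by rw [hn]; push_cast; ring
      rw [this]
      simp
    have hdr : d r + d (r + 1) = y - x ∨ d r + d (r + 1) = x - y := by
      have h0 : d r + d (r + 1) = ((e r + e ((r + 1) % k) : ℤ) : ZMod n) := by
        rw [hdd]; simp only; rw [Nat.mod_eq_of_lt hr]; push_cast; ring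
      rw [h0]
      rcases her with her | her | her | her <;> rcases hcg with hcg | hcg <;> rw [her]
      · left; rw [hcg]; simp
      · right; rw [← neg_sub y x, hcg]; simp
      · right; rw [← neg_sub y x, hcg]; simp
      · left; rw [hcg]; simp
      · right; rw [← neg_sub y x, hcg, Int.cast_sub, hnz]; simp
      · left; rw [hcg, Int.cast_sub, hnz]; simp
      · left; rw [hcg, Int.cast_sub, hnz]; simp
      · right; rw [← neg_sub y x, hcg, Int.cast_sub, hnz]; simp
    have e1 : ∀ j : ℕ, (((j : ℕ) : ZMod (n * k)) + 2) = ((j + 2 : ℕ) : ZMod (n * k)) := by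
      intro j; push_cast; ring
    have w2 : ∀ j, w (j + 2) = w j + (d j + d (j + 1)) := by
      intro j
      rw [show j + 2 = (j + 1) + 1 by ring, w1, w1]; ring
    have dper1 : ∀ t, d (r + k * t + 1) = d (r + 1) := by
      intro t
      rw [show r + k * t + 1 = (r + 1) + k * t by ring, dper]
    rcases hdr with hdr | hdr
    · obtain ⟨t, ht⟩ := reach r x
      refine ⟨((r + k * t : ℕ) : ZMod (n * k)), ?_⟩
      rw [e1, vcast, vcast, w2, ht, dper, dper1, hdr, add_sub_cancel]
    · obtain ⟨t, ht⟩ := reach r y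
      refine ⟨((r + k * t : ℕ) : ZMod (n * k)), ?_⟩
      rw [e1, vcast, vcast, w2, ht, dper, dper1, hdr, add_sub_cancel]
      exact Sym2.eq_swap

theorem exists_fin_of_starter (h : Starter k e) :
    ∃ op : Fin (2 * k + 1) → Fin (2 * k + 1) → Fin (2 * k + 1),
      IsPGroupoid op ∧ IsQuasigroup op ∧ IsEulerian op := by
  obtain ⟨v, h1, h2⟩ := walk_of_starter h
  have hk := h.pos
  have : NeZero ((2 * k + 1) * k) := ⟨by positivity⟩
  have E : ZMod (2 * k + 1) ≃ Fin (2 * k + 1) :=
    Fintype.equivFinOfCardEq (ZMod.card (2 * k + 1))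
  refine exists_of_walk ((2 * k + 1) * k) ?_ (fun i => E (v i)) ?_ ?_
  · rw [Fintype.card_fin]
    have : (2 * k + 1) * (2 * k + 1 - 1) = 2 * ((2 * k + 1) * k) := by
      rw [Nat.add_sub_cancel]; ring
    rw [this, Nat.mul_div_cancel_left _ (by norm_num)]
  · intro x y hxy
    obtain ⟨i, hi⟩ := h1 (E.symm x) (E.symm y) (fun h => hxy (E.symm.injective h))
    refine ⟨i, ?_⟩
    have := congrArg (Sym2.map E) hi
    simpa using this
  · intro x y hxy
    obtain ⟨i, hi⟩ := h2 (E.symm x) (E.symm y) (fun h => hxy (E.symm.injective h))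
    refine ⟨i, ?_⟩
    have := congrArg (Sym2.map E) hi
    simpa using this

end Cyclic

end Pool.Agent.W125.Kotzig
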