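import Mathlib
import Pool.Agent.W125.KotzigB

set_option autoImplicit false

namespace Pool.Agent.W125.Kotzig

open Finset

/-- Sum of a zigzag stretch. -/
theorem zig_sum (f : ℕ → ℤ) (s : ℕ) (P Q δ : ℤ) : ∀ a : ℕ,
    (∀ i, i < a → f (s + 2 * i) = P + δ * i ∧ f (s + (2 * i + 1)) = Q + δ * i) →
    ∑ x ∈ range (2 * a), f (s + x) = a * (P + Q) + δ * (a * (a - 1)) := by
  intro a
  induction a with
  | zero => intro _; simp
  | succ a ih =>
    intro h
    have h1 := ih (fun i hi => h i (by omega))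
    obtain ⟨h2, h3⟩ := h a (by omega)
    rw [show 2 * (a + 1) = 2 * a + 1 + 1 by ring, Finset.sum_range_succ, Finset.sum_range_succ,
      h1, h2, h3]
    push_cast
    ring

theorem sum_split (f : ℕ → ℤ) (a s b t k : ℕ) (hk : k = 2 * a + s + 2 * b + t) :
    ∑ j ∈ range k, f j = ∑ x ∈ range (2 * a), f (0 + x) + ∑ x ∈ range s, f (2 * a + x) +
      ∑ x ∈ range (2 * b), f (2 * a + s + x) + ∑ x ∈ range t, f (2 * a + s + 2 * b + x) := by
  subst hk
  rw [Finset.sum_range_add, Finset.sum_range_add, Finset.sum_range_add]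
  simp

theorem Starter.mk' {k : ℕ} {e : ℕ → ℤ} (pos : 0 < k)
    (diffs : ∀ c : ℕ, 1 ≤ c → c ≤ k → ∃ r, r < k ∧ (e r = c ∨ e r = -c))
    (sums : ∀ c : ℕ, 1 ≤ c → c ≤ k →
      (∃ r, r + 1 < k ∧
        (e r + e (r + 1) = c ∨ e r + e (r + 1) = -c ∨
        e r + e (r + 1) = (2 * k + 1) - c ∨ e r + e (r + 1) = c - (2 * k + 1))) ∨
      (e (k - 1) + e 0 = c ∨ e (k - 1) + e 0 = -c ∨
        e (k - 1) + e 0 = (2 * k + 1) - c ∨ e (k - 1) + e 0 = c - (2 * k + 1)))
    (total : ∃ u q : ℤ, u * (∑ j ∈ range k, e j) + q * (2 * k + 1) = 1) : Starter k e := by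
  refine ⟨pos, diffs, fun c h1 h2 => ?_, total⟩
  rcases sums c h1 h2 with ⟨r, hr, h⟩ | h
  · exact ⟨r, by omega, by rw [Nat.mod_eq_of_lt hr]; exact h⟩
  · refine ⟨k - 1, by omega, ?_⟩
    rw [show k - 1 + 1 = k by omega, Nat.mod_self]
    exact h

/-! ### `k = 4 p + 12` -/

def e0 (p : ℕ) (j : ℕ) : ℤ :=
  if j < 2 * p then (if j % 2 = 0 then 2 + (j / 2 : ℕ) else (j / 2 : ℕ) - (4 * p + 11))
  else if j = 2 * p then p + 2
  else if j = 2 * p + 1 then -(p + 4)
  else if j = 2 * p + 2 then -(p + 3)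
  else if j = 2 * p + 3 then -(3 * p + 9)
  else if j = 2 * p + 4 then -(3 * p + 11)
  else if j = 2 * p + 5 then -(3 * p + 10)
  else if j < 4 * p + 8 then
    (if j % 2 = 0 then -(p + 5) - ((j - (2 * p + 6)) / 2 : ℕ)
      else (3 * p + 8) - ((j - (2 * p + 6)) / 2 : ℕ))
  else if j = 4 * p + 8 then 1
  else if j = 4 * p + 9 then 2 * p + 7
  else if j = 4 * p + 10 then -(2 * p + 6)
  else 4 * p + 12

theorem starter0 (p : ℕ) : Starter (4 * p + 12) (e0 p) := by
  refine Starter.mk' (by omega) ?_ ?_ ?_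
  · intro c h1 h2
    by_cases c1 : c = 1
    · exact ⟨4 * p + 8, by omega, by unfold e0; omega⟩
    by_cases c2 : c < p + 2
    · exact ⟨2 * (c - 2), by omega, by unfold e0; omega⟩
    by_cases c3 : c = p + 2
    · exact ⟨2 * p, by omega, by unfold e0; omega⟩
    by_cases c4 : c = p + 3
    · exact ⟨2 * p + 2, by omega, by unfold e0; omega⟩
    by_cases c5 : c = p + 4
    · exact ⟨2 * p + 1, by omega, by unfold e0; omega⟩
    by_cases c6 : c < 2 * p + 6
    · exact ⟨2 * p + 6 + 2 * (c - (p + 5)), by omega, by unfold e0; omega⟩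
    by_cases c7 : c = 2 * p + 6
    · exact ⟨4 * p + 10, by omega, by unfold e0; omega⟩
    by_cases c8 : c = 2 * p + 7
    · exact ⟨4 * p + 9, by omega, by unfold e0; omega⟩
    by_cases c9 : c < 3 * p + 9
    · exact ⟨2 * p + 7 + 2 * (3 * p + 8 - c), by omega, by unfold e0; omega⟩
    by_cases c10 : c = 3 * p + 9
    · exact ⟨2 * p + 3, by omega, by unfold e0; omega⟩
    by_cases c11 : c = 3 * p + 10
    · exact ⟨2 * p + 5, by omega, by unfold e0; omega⟩
    by_cases c12 : c = 3 * p + 11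
    · exact ⟨2 * p + 4, by omega, by unfold e0; omega⟩
    by_cases c13 : c < 4 * p + 12
    · exact ⟨2 * (4 * p + 11 - c) + 1, by omega, by unfold e0; omega⟩
    · exact ⟨4 * p + 11, by omega, by unfold e0; omega⟩
  · intro c h1 h2
    by_cases c1 : c = 1
    · exact Or.inl ⟨4 * p + 9, by omega, by unfold e0; omega⟩
    by_cases c2 : c = 2
    · exact Or.inl ⟨2 * p, by omega, by unfold e0; omega⟩
    by_cases c3 : c ≤ 2 * p + 3
    · exact Or.inl ⟨2 * p + 6 + (2 * p + 3 - c), by omega, by unfold e0; omega⟩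
    by_cases c4 : c = 2 * p + 4
    · exact Or.inl ⟨2 * p + 4, by omega, by unfold e0; omega⟩
    by_cases c5 : c = 2 * p + 5
    · exact Or.inl ⟨2 * p + 3, by omega, by unfold e0; omega⟩
    by_cases c6 : c = 2 * p + 6
    · exact Or.inl ⟨4 * p + 10, by omega, by unfold e0; omega⟩
    by_cases c7 : c = 2 * p + 7
    · exact Or.inl ⟨2 * p + 1, by omega, by unfold e0; omega⟩
    by_cases c8 : c = 2 * p + 8
    · exact Or.inl ⟨4 * p + 8, by omega, by unfold e0; omega⟩
    by_cases c9 : c = 2 * p + 9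
    · exact Or.inl ⟨4 * p + 7, by omega, by unfold e0; omega⟩
    by_cases c10 : c ≤ 4 * p + 9
    · exact Or.inl ⟨4 * p + 9 - c, by omega, by unfold e0; omega⟩
    by_cases c11 : c = 4 * p + 10
    · exact Or.inl ⟨2 * p + 5, by omega, by unfold e0; omega⟩
    by_cases c12 : c = 4 * p + 11
    · refine Or.inr ?_
      rw [show 4 * p + 12 - 1 = 4 * p + 11 by omega]
      unfold e0; omega
    · exact Or.inl ⟨2 * p + 2, by omega, by unfold e0; omega⟩
  · refine ⟨-32, -(8 * (p + 3) - 1), ?_⟩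
    have hs : ∑ j ∈ range (4 * p + 12), e0 p j = -2 * ((p : ℤ) + 3) ^ 2 := by
      rw [sum_split (e0 p) p 6 (p + 1) 4 _ (by omega),
        zig_sum (e0 p) 0 2 (-(4 * p + 11)) 1 p (by intro i hi; unfold e0; omega),
        zig_sum (e0 p) (2 * p + 6) (-(p + 5)) (3 * p + 8) (-1) (p + 1)
          (by intro i hi; unfold e0; omega)]
      have a0 : e0 p (2 * p + 0) = p + 2 := by unfold e0; omega
      have a1 : e0 p (2 * p + 1) = -(p + 4) := by unfold e0; omega
      have a2 : e0 p (2 * p + 2) = -(p + 3) := by unfold e0; omega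
      have a3 : e0 p (2 * p + 3) = -(3 * p + 9) := by unfold e0; omega
      have a4 : e0 p (2 * p + 4) = -(3 * p + 11) := by unfold e0; omega
      have a5 : e0 p (2 * p + 5) = -(3 * p + 10) := by unfold e0; omega
      have b0 : e0 p (2 * p + 6 + 2 * (p + 1) + 0) = 1 := by unfold e0; omega
      have b1 : e0 p (2 * p + 6 + 2 * (p + 1) + 1) = 2 * p + 7 := by unfold e0; omega
      have b2 : e0 p (2 * p + 6 + 2 * (p + 1) + 2) = -(2 * p + 6) := by unfold e0; omega
      have b3 : e0 p (2 * p + 6 + 2 * (p + 1) + 3) = 4 * p + 12 := by unfold e0; omega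
      simp only [Finset.sum_range_succ, Finset.sum_range_zero, a0, a1, a2, a3, a4, a5, b0, b1, b2,
        b3]
      push_cast
      ring
    rw [hs]
    push_cast
    ring

/-! ### `k = 4 p + 13` -/

def e1 (p : ℕ) (j : ℕ) : ℤ :=
  if j < 2 * p + 2 then (if j % 2 = 0 then 2 + (j / 2 : ℕ) else (j / 2 : ℕ) - (4 * p + 12))
  else if j = 2 * p + 2 then -(p + 4)
  else if j = 2 * p + 3 then -(3 * p + 11)
  else if j = 2 * p + 4 then -(3 * p + 10)
  else if j = 2 * p + 5 then -(p + 3)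
  else if j < 4 * p + 8 then
    (if j % 2 = 0 then -(p + 5) - ((j - (2 * p + 6)) / 2 : ℕ)
      else (3 * p + 9) - ((j - (2 * p + 6)) / 2 : ℕ))
  else if j = 4 * p + 8 then 4 * p + 13
  else if j = 4 * p + 9 then 2 * p + 7
  else if j = 4 * p + 10 then -(2 * p + 6)
  else if j = 4 * p + 11 then 2 * p + 8
  else 1

theorem starter1 (p : ℕ) : Starter (4 * p + 13) (e1 p) := by
  refine Starter.mk' (by omega) ?_ ?_ ?_
  · intro c h1 h2
    by_cases c1 : c = 1
    · exact ⟨4 * p + 12, by omega, by unfold e1; omega⟩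
    by_cases c2 : c < p + 3
    · exact ⟨2 * (c - 2), by omega, by unfold e1; omega⟩
    by_cases c3 : c = p + 3
    · exact ⟨2 * p + 5, by omega, by unfold e1; omega⟩
    by_cases c4 : c = p + 4
    · exact ⟨2 * p + 2, by omega, by unfold e1; omega⟩
    by_cases c6 : c < 2 * p + 6
    · exact ⟨2 * p + 6 + 2 * (c - (p + 5)), by omega, by unfold e1; omega⟩
    by_cases c7 : c = 2 * p + 6
    · exact ⟨4 * p + 10, by omega, by unfold e1; omega⟩
    by_cases c8 : c = 2 * p + 7
    · exact ⟨4 * p + 9, by omega, by unfold e1; omega⟩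
    by_cases c8' : c = 2 * p + 8
    · exact ⟨4 * p + 11, by omega, by unfold e1; omega⟩
    by_cases c9 : c < 3 * p + 10
    · exact ⟨2 * p + 7 + 2 * (3 * p + 9 - c), by omega, by unfold e1; omega⟩
    by_cases c10 : c = 3 * p + 10
    · exact ⟨2 * p + 4, by omega, by unfold e1; omega⟩
    by_cases c11 : c = 3 * p + 11
    · exact ⟨2 * p + 3, by omega, by unfold e1; omega⟩
    by_cases c13 : c < 4 * p + 13
    · exact ⟨2 * (4 * p + 12 - c) + 1, by omega, by unfold e1; omega⟩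
    · exact ⟨4 * p + 8, by omega, by unfold e1; omega⟩
  · intro c h1 h2
    by_cases c1 : c = 1
    · exact Or.inl ⟨4 * p + 9, by omega, by unfold e1; omega⟩
    by_cases c2 : c = 2
    · exact Or.inl ⟨4 * p + 10, by omega, by unfold e1; omega⟩
    by_cases c2' : c = 3
    · refine Or.inr ?_
      rw [show 4 * p + 13 - 1 = 4 * p + 12 by omega]
      unfold e1; omega
    by_cases c3 : c ≤ 2 * p + 4
    · exact Or.inl ⟨2 * p + 6 + (2 * p + 4 - c), by omega, by unfold e1; omega⟩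
    by_cases c5 : c = 2 * p + 5
    · exact Or.inl ⟨4 * p + 7, by omega, by unfold e1; omega⟩
    by_cases c6 : c = 2 * p + 6
    · exact Or.inl ⟨2 * p + 3, by omega, by unfold e1; omega⟩
    by_cases c7 : c = 2 * p + 7
    · exact Or.inl ⟨4 * p + 8, by omega, by unfold e1; omega⟩
    by_cases c8 : c = 2 * p + 8
    · exact Or.inl ⟨2 * p + 5, by omega, by unfold e1; omega⟩
    by_cases c9 : c = 2 * p + 9
    · exact Or.inl ⟨4 * p + 11, by omega, by unfold e1; omega⟩
    by_cases c10 : c ≤ 4 * p + 10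
    · exact Or.inl ⟨4 * p + 10 - c, by omega, by unfold e1; omega⟩
    by_cases c11 : c = 4 * p + 11
    · exact Or.inl ⟨2 * p + 1, by omega, by unfold e1; omega⟩
    by_cases c12 : c = 4 * p + 12
    · exact Or.inl ⟨2 * p + 2, by omega, by unfold e1; omega⟩
    · exact Or.inl ⟨2 * p + 4, by omega, by unfold e1; omega⟩
  · refine ⟨-32, -(8 * (p + 3) - 11), ?_⟩
    have hs : ∑ j ∈ range (4 * p + 13), e1 p j = -2 * ((p : ℤ) + 3) ^ 2 + 2 * (p + 3) + 1 := by
      rw [sum_split (e1 p) (p + 1) 4 (p + 1) 5 _ (by omega),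
        zig_sum (e1 p) 0 2 (-(4 * p + 12)) 1 (p + 1) (by intro i hi; unfold e1; omega),
        zig_sum (e1 p) (2 * (p + 1) + 4) (-(p + 5)) (3 * p + 9) (-1) (p + 1)
          (by intro i hi; unfold e1; omega)]
      have a0 : e1 p (2 * (p + 1) + 0) = -(p + 4) := by unfold e1; omega
      have a1 : e1 p (2 * (p + 1) + 1) = -(3 * p + 11) := by unfold e1; omega
      have a2 : e1 p (2 * (p + 1) + 2) = -(3 * p + 10) := by unfold e1; omega
      have a3 : e1 p (2 * (p + 1) + 3) = -(p + 3) := by unfold e1; omega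
      have b0 : e1 p (2 * (p + 1) + 4 + 2 * (p + 1) + 0) = 4 * p + 13 := by unfold e1; omega
      have b1 : e1 p (2 * (p + 1) + 4 + 2 * (p + 1) + 1) = 2 * p + 7 := by unfold e1; omega
      have b2 : e1 p (2 * (p + 1) + 4 + 2 * (p + 1) + 2) = -(2 * p + 6) := by unfold e1; omega
      have b3 : e1 p (2 * (p + 1) + 4 + 2 * (p + 1) + 3) = 2 * p + 8 := by unfold e1; omega
      have b4 : e1 p (2 * (p + 1) + 4 + 2 * (p + 1) + 4) = 1 := by unfold e1; omega
      simp only [Finset.sum_range_succ, Finset.sum_range_zero, a0, a1, a2, a3, b0, b1, b2,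
        b3, b4]
      push_cast
      ring
    rw [hs]
    push_cast
    ring

/-! ### `k = 4 p + 10` -/

def e2 (p : ℕ) (j : ℕ) : ℤ :=
  if j < 2 * p then (if j % 2 = 0 then 3 + (j / 2 : ℕ) else (j / 2 : ℕ) - (4 * p + 8))
  else if j = 2 * p then p + 3
  else if j < 4 * p + 1 then
    (if j % 2 = 1 then (3 * p + 8) - ((j - (2 * p + 1)) / 2 : ℕ)
      else -(p + 4) - ((j - (2 * p + 1)) / 2 : ℕ))
  else if j = 4 * p + 1 then 2 * p + 8
  else if j = 4 * p + 2 then 2 * p + 7
  else if j = 4 * p + 3 then -(2 * p + 4)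
  else if j = 4 * p + 4 then 2 * p + 6
  else if j = 4 * p + 5 then -(2 * p + 5)
  else if j = 4 * p + 6 then 4 * p + 10
  else if j = 4 * p + 7 then 2
  else if j = 4 * p + 8 then -(4 * p + 9)
  else 1

theorem starter2 (p : ℕ) : Starter (4 * p + 10) (e2 p) := by
  refine Starter.mk' (by omega) ?_ ?_ ?_
  · intro c h1 h2
    by_cases c1 : c = 1
    · exact ⟨4 * p + 9, by omega, by unfold e2; omega⟩
    by_cases c1' : c = 2
    · exact ⟨4 * p + 7, by omega, by unfold e2; omega⟩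
    by_cases c2 : c < p + 3
    · exact ⟨2 * (c - 3), by omega, by unfold e2; omega⟩
    by_cases c3 : c = p + 3
    · exact ⟨2 * p, by omega, by unfold e2; omega⟩
    by_cases c6 : c < 2 * p + 4
    · exact ⟨2 * p + 2 + 2 * (c - (p + 4)), by omega, by unfold e2; omega⟩
    by_cases c7 : c = 2 * p + 4
    · exact ⟨4 * p + 3, by omega, by unfold e2; omega⟩
    by_cases c8 : c = 2 * p + 5
    · exact ⟨4 * p + 5, by omega, by unfold e2; omega⟩
    by_cases c8' : c = 2 * p + 6
    · exact ⟨4 * p + 4, by omega, by unfold e2; omega⟩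
    by_cases c8'' : c = 2 * p + 7
    · exact ⟨4 * p + 2, by omega, by unfold e2; omega⟩
    by_cases c9' : c = 2 * p + 8
    · exact ⟨4 * p + 1, by omega, by unfold e2; omega⟩
    by_cases c9 : c < 3 * p + 9
    · exact ⟨2 * p + 1 + 2 * (3 * p + 8 - c), by omega, by unfold e2; omega⟩
    by_cases c13 : c < 4 * p + 9
    · exact ⟨2 * (4 * p + 8 - c) + 1, by omega, by unfold e2; omega⟩
    by_cases c14 : c = 4 * p + 9
    · exact ⟨4 * p + 8, by omega, by unfold e2; omega⟩
    · exact ⟨4 * p + 6, by omega, by unfold e2; omega⟩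
  · intro c h1 h2
    by_cases c1 : c = 1
    · exact Or.inl ⟨4 * p + 4, by omega, by unfold e2; omega⟩
    by_cases c2 : c = 2
    · exact Or.inl ⟨4 * p + 3, by omega, by unfold e2; omega⟩
    by_cases c2' : c = 3
    · exact Or.inl ⟨4 * p + 2, by omega, by unfold e2; omega⟩
    by_cases c2'' : c = 4
    · refine Or.inr ?_
      rw [show 4 * p + 10 - 1 = 4 * p + 9 by omega]
      unfold e2; omega
    by_cases c3 : c ≤ 2 * p + 4
    · exact Or.inl ⟨2 * p + 1 + (2 * p + 4 - c), by omega, by unfold e2; omega⟩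
    by_cases c5 : c = 2 * p + 5
    · exact Or.inl ⟨4 * p + 5, by omega, by unfold e2; omega⟩
    by_cases c10 : c ≤ 4 * p + 5
    · exact Or.inl ⟨4 * p + 5 - c, by omega, by unfold e2; omega⟩
    by_cases c11 : c = 4 * p + 6
    · exact Or.inl ⟨4 * p + 1, by omega, by unfold e2; omega⟩
    by_cases c12 : c = 4 * p + 7
    · exact Or.inl ⟨4 * p + 7, by omega, by unfold e2; omega⟩
    by_cases c13 : c = 4 * p + 8
    · exact Or.inl ⟨4 * p + 8, by omega, by unfold e2; omega⟩
    by_cases c14 : c = 4 * p + 9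
    · exact Or.inl ⟨4 * p + 6, by omega, by unfold e2; omega⟩
    · exact Or.inl ⟨2 * p, by omega, by unfold e2; omega⟩
  · refine ⟨-32, -(8 * (p + 2) - 45), ?_⟩
    have hs : ∑ j ∈ range (4 * p + 10), e2 p j =
        -2 * ((p : ℤ) + 2) ^ 2 + 10 * (p + 2) + 7 := by
      rw [sum_split (e2 p) p 1 p 9 _ (by omega),
        zig_sum (e2 p) 0 3 (-(4 * p + 8)) 1 p (by intro i hi; unfold e2; omega),
        zig_sum (e2 p) (2 * p + 1) (3 * p + 8) (-(p + 4)) (-1) p
          (by intro i hi; unfold e2; omega)]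
      have a0 : e2 p (2 * p + 0) = p + 3 := by unfold e2; omega
      have b0 : e2 p (2 * p + 1 + 2 * p + 0) = 2 * p + 8 := by unfold e2; omega
      have b1 : e2 p (2 * p + 1 + 2 * p + 1) = 2 * p + 7 := by unfold e2; omega
      have b2 : e2 p (2 * p + 1 + 2 * p + 2) = -(2 * p + 4) := by unfold e2; omega
      have b3 : e2 p (2 * p + 1 + 2 * p + 3) = 2 * p + 6 := by unfold e2; omega
      have b4 : e2 p (2 * p + 1 + 2 * p + 4) = -(2 * p + 5) := by unfold e2; omega
      have b5 : e2 p (2 * p + 1 + 2 * p + 5) = 4 * p + 10 := by unfold e2; omega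
      have b6 : e2 p (2 * p + 1 + 2 * p + 6) = 2 := by unfold e2; omega
      have b7 : e2 p (2 * p + 1 + 2 * p + 7) = -(4 * p + 9) := by unfold e2; omega
      have b8 : e2 p (2 * p + 1 + 2 * p + 8) = 1 := by unfold e2; omega
      simp only [Finset.sum_range_succ, Finset.sum_range_zero, a0, b0, b1, b2,
        b3, b4, b5, b6, b7, b8]
      push_cast
      ring
    rw [hs]
    push_cast
    ring

/-! ### `k = 4 p + 11` -/

def e3 (p : ℕ) (j : ℕ) : ℤ :=
  if j < 2 * p then (if j % 2 = 0 then 2 + (j / 2 : ℕ) else (j / 2 : ℕ) - (4 * p + 10))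
  else if j = 2 * p then p + 2
  else if j = 2 * p + 1 then p + 3
  else if j = 2 * p + 2 then 3 * p + 9
  else if j = 2 * p + 3 then -(3 * p + 10)
  else if j < 4 * p + 8 then
    (if j % 2 = 0 then -(p + 4) - ((j - (2 * p + 4)) / 2 : ℕ)
      else (3 * p + 8) - ((j - (2 * p + 4)) / 2 : ℕ))
  else if j = 4 * p + 8 then 1
  else if j = 4 * p + 9 then 2 * p + 6
  else 4 * p + 11

theorem starter3 (p : ℕ) : Starter (4 * p + 11) (e3 p) := by
  refine Starter.mk' (by omega) ?_ ?_ ?_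
  · intro c h1 h2
    by_cases c1 : c = 1
    · exact ⟨4 * p + 8, by omega, by unfold e3; omega⟩
    by_cases c2 : c < p + 2
    · exact ⟨2 * (c - 2), by omega, by unfold e3; omega⟩
    by_cases c3 : c = p + 2
    · exact ⟨2 * p, by omega, by unfold e3; omega⟩
    by_cases c4 : c = p + 3
    · exact ⟨2 * p + 1, by omega, by unfold e3; omega⟩
    by_cases c6 : c < 2 * p + 6
    · exact ⟨2 * p + 4 + 2 * (c - (p + 4)), by omega, by unfold e3; omega⟩
    by_cases c7 : c = 2 * p + 6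
    · exact ⟨4 * p + 9, by omega, by unfold e3; omega⟩
    by_cases c9 : c < 3 * p + 9
    · exact ⟨2 * p + 5 + 2 * (3 * p + 8 - c), by omega, by unfold e3; omega⟩
    by_cases c10 : c = 3 * p + 9
    · exact ⟨2 * p + 2, by omega, by unfold e3; omega⟩
    by_cases c11 : c = 3 * p + 10
    · exact ⟨2 * p + 3, by omega, by unfold e3; omega⟩
    by_cases c13 : c < 4 * p + 11
    · exact ⟨2 * (4 * p + 10 - c) + 1, by omega, by unfold e3; omega⟩
    · exact ⟨4 * p + 10, by omega, by unfold e3; omega⟩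
  · intro c h1 h2
    by_cases c1 : c = 1
    · exact Or.inl ⟨2 * p + 2, by omega, by unfold e3; omega⟩
    by_cases c3 : c ≤ 2 * p + 4
    · exact Or.inl ⟨2 * p + 4 + (2 * p + 4 - c), by omega, by unfold e3; omega⟩
    by_cases c5 : c = 2 * p + 5
    · exact Or.inl ⟨2 * p, by omega, by unfold e3; omega⟩
    by_cases c6 : c = 2 * p + 6
    · exact Or.inl ⟨4 * p + 9, by omega, by unfold e3; omega⟩
    by_cases c7 : c = 2 * p + 7
    · exact Or.inl ⟨4 * p + 8, by omega, by unfold e3; omega⟩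
    by_cases c8 : c = 2 * p + 8
    · exact Or.inl ⟨4 * p + 7, by omega, by unfold e3; omega⟩
    by_cases c10 : c ≤ 4 * p + 8
    · exact Or.inl ⟨4 * p + 8 - c, by omega, by unfold e3; omega⟩
    by_cases c11 : c = 4 * p + 9
    · exact Or.inl ⟨2 * p + 3, by omega, by unfold e3; omega⟩
    by_cases c12 : c = 4 * p + 10
    · refine Or.inr ?_
      rw [show 4 * p + 11 - 1 = 4 * p + 10 by omega]
      unfold e3; omega
    · exact Or.inl ⟨2 * p + 1, by omega, by unfold e3; omega⟩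
  · refine ⟨-32, -(8 * (p + 2) - 55), ?_⟩
    have hs : ∑ j ∈ range (4 * p + 11), e3 p j =
        -2 * ((p : ℤ) + 2) ^ 2 + 12 * (p + 2) + 12 := by
      rw [sum_split (e3 p) p 4 (p + 2) 3 _ (by omega),
        zig_sum (e3 p) 0 2 (-(4 * p + 10)) 1 p (by intro i hi; unfold e3; omega),
        zig_sum (e3 p) (2 * p + 4) (-(p + 4)) (3 * p + 8) (-1) (p + 2)
          (by intro i hi; unfold e3; omega)]
      have a0 : e3 p (2 * p + 0) = p + 2 := by unfold e3; omega
      have a1 : e3 p (2 * p + 1) = p + 3 := by unfold e3; omega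
      have a2 : e3 p (2 * p + 2) = 3 * p + 9 := by unfold e3; omega
      have a3 : e3 p (2 * p + 3) = -(3 * p + 10) := by unfold e3; omega
      have b0 : e3 p (2 * p + 4 + 2 * (p + 2) + 0) = 1 := by unfold e3; omega
      have b1 : e3 p (2 * p + 4 + 2 * (p + 2) + 1) = 2 * p + 6 := by unfold e3; omega
      have b2 : e3 p (2 * p + 4 + 2 * (p + 2) + 2) = 4 * p + 11 := by unfold e3; omega
      simp only [Finset.sum_range_succ, Finset.sum_range_zero, a0, a1, a2, a3, b0, b1, b2]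
      push_cast
      ring
    rw [hs]
    push_cast
    ring

/-! ### Small orders -/

def lst (l : List ℤ) (j : ℕ) : ℤ := l.getD j 0

theorem starter_small_aux (l : List ℤ) (k : ℕ) (u q : ℤ) (hk : 0 < k)
    (h1 : ∀ c ∈ Finset.range k, ∃ r ∈ Finset.range k,
      (lst l r = (c + 1 : ℕ) ∨ lst l r = -(c + 1 : ℕ)))
    (h2 : ∀ c ∈ Finset.range k, ∃ r ∈ Finset.range k,
      (lst l r + lst l ((r + 1) % k) = (c + 1 : ℕ) ∨ lst l r + lst l ((r + 1) % k) = -(c + 1 : ℕ) ∨
        lst l r + lst l ((r + 1) % k) = (2 * k + 1) - (c + 1 : ℕ) ∨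
        lst l r + lst l ((r + 1) % k) = (c + 1 : ℕ) - (2 * k + 1)))
    (h3 : u * (∑ j ∈ range k, lst l j) + q * (2 * k + 1) = 1) : Starter k (lst l) := by
  refine ⟨hk, fun c hc1 hc2 => ?_, fun c hc1 hc2 => ?_, ⟨u, q, h3⟩⟩
  · obtain ⟨r, hr, h⟩ := h1 (c - 1) (Finset.mem_range.2 (by omega))
    rw [show c - 1 + 1 = c by omega] at h
    exact ⟨r, Finset.mem_range.1 hr, h⟩
  · obtain ⟨r, hr, h⟩ := h2 (c - 1) (Finset.mem_range.2 (by omega))
    rw [show c - 1 + 1 = c by omega] at h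
    exact ⟨r, Finset.mem_range.1 hr, h⟩

theorem starter_small4 : Starter 4 (lst [1, -2, -3, -4]) :=
  starter_small_aux _ 4 1 1 (by norm_num) (by decide) (by decide) (by decide)

theorem starter_small5 : Starter 5 (lst [1, 2, 3, -4, -5]) :=
  starter_small_aux _ 5 7 2 (by norm_num) (by decide) (by decide) (by decide)

theorem starter_small6 : Starter 6 (lst [1, -2, -3, -4, -6, -5]) :=
  starter_small_aux _ 6 2 3 (by norm_num) (by decide) (by decide) (by decide)

theorem starter_small7 : Starter 7 (lst [1, -2, -5, -7, -4, -6, -3]) :=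
  starter_small_aux _ 7 4 7 (by norm_num) (by decide) (by decide) (by decide)

theorem starter_small8 : Starter 8 (lst [1, -2, -3, -4, -5, 8, -6, -7]) :=
  starter_small_aux _ 8 (-1) (-1) (by norm_num) (by decide) (by decide) (by decide)

theorem starter_small9 : Starter 9 (lst [1, -2, -3, -4, -5, -8, 6, 9, 7]) :=
  starter_small_aux _ 9 1 0 (by norm_num) (by decide) (by decide) (by decide)

theorem exists_starter (k : ℕ) (hk : 4 ≤ k) : ∃ e, Starter k e := by
  by_cases h4 : k = 4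
  · subst h4; exact ⟨_, starter_small4⟩
  by_cases h5 : k = 5
  · subst h5; exact ⟨_, starter_small5⟩
  by_cases h6 : k = 6
  · subst h6; exact ⟨_, starter_small6⟩
  by_cases h7 : k = 7
  · subst h7; exact ⟨_, starter_small7⟩
  by_cases h8 : k = 8
  · subst h8; exact ⟨_, starter_small8⟩
  by_cases h9 : k = 9
  · subst h9; exact ⟨_, starter_small9⟩
  rcases (by omega : k % 4 = 0 ∨ k % 4 = 1 ∨ k % 4 = 2 ∨ k % 4 = 3) with h | h | h | h
  · obtain ⟨p, rfl⟩ : ∃ p, k = 4 * p + 12 := ⟨(k - 12) / 4, by omega⟩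
    exact ⟨_, starter0 p⟩
  · obtain ⟨p, rfl⟩ : ∃ p, k = 4 * p + 13 := ⟨(k - 13) / 4, by omega⟩
    exact ⟨_, starter1 p⟩
  · obtain ⟨p, rfl⟩ : ∃ p, k = 4 * p + 10 := ⟨(k - 10) / 4, by omega⟩
    exact ⟨_, starter2 p⟩
  · obtain ⟨p, rfl⟩ : ∃ p, k = 4 * p + 11 := ⟨(k - 11) / 4, by omega⟩
    exact ⟨_, starter3 p⟩

end Pool.Agent.W125.Kotzig
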