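import Mathlib
import Pool.Agent.W125.KotzigC

set_option autoImplicit false

namespace Pool.Agent.W125.Kotzig

open Finset

/-! ### Necessary conditions -/

theorem odd_of_pgroupoid {V : Type} [Fintype V] [DecidableEq V] [Nonempty V] (op : V → V → V)
    (h : IsPGroupoid op) : Odd (Fintype.card V) := by
  classical
  obtain ⟨b⟩ := ‹Nonempty V›
  have hinv : ∀ a, op (op a b) b = a := fun a => ((h.swap a b _).1 rfl)
  let f : Function.End V := fun a => op a b
  have hf : f ^ 2 ^ 1 = 1 := by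
    rw [pow_one, pow_two]
    funext a
    exact hinv a
  have hmod := Equiv.Perm.card_fixedPoints_modEq (p := 2) (n := 1) hf
  have hfix : Fintype.card (Function.fixedPoints f) = 1 := by
    rw [Fintype.card_eq_one_iff]
    refine ⟨⟨b, h.idem b⟩, ?_⟩
    rintro ⟨a, ha⟩
    by_contra hne
    have hab : a ≠ b := fun e => hne (Subtype.ext e)
    exact (h.ne a b hab).1 ha
  rw [Nat.odd_iff]
  unfold Nat.ModEq at hmod
  rw [hmod, hfix]

theorem no_five (op : Fin 5 → Fin 5 → Fin 5) (hP : IsPGroupoid op) (hQ : IsQuasigroup op)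
    (hE : IsEulerian op) : False := by
  have cancel : ∀ a x y, op a x = op a y → x = y := fun a x y h =>
    (hQ.1 a (op a y)).unique h rfl
  have sw : ∀ a b c, op a b = c → op c b = a := fun a b c h => (hP.swap a b c).1 h
  -- five distinct elements exhaust
  have exh : ∀ a b c d e x : Fin 5, a ≠ b → a ≠ c → a ≠ d → a ≠ e → b ≠ c → b ≠ d → b ≠ e →
      c ≠ d → c ≠ e → d ≠ e → x = a ∨ x = b ∨ x = c ∨ x = d ∨ x = e := by
    intro a b c d e x h1 h2 h3 h4 h5 h6 h7 h8 h9 h10
    omega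
  have ex2 : ∀ a b c : Fin 5, a ≠ b → a ≠ c → b ≠ c → ∃ p q : Fin 5, p ≠ q ∧ p ≠ a ∧ p ≠ b ∧
      p ≠ c ∧ q ≠ a ∧ q ≠ b ∧ q ≠ c := by decide
  -- no `a1 · a2 = a0` if `a0 · a1 = a2`
  have T : ∀ a b c, a ≠ b → op a b = c → op b c ≠ a := by
    intro a b c hab h1 h2
    have hca : c ≠ a := by rw [← h1]; exact (hP.ne a b hab).1
    have hcb : c ≠ b := by rw [← h1]; exact (hP.ne a b hab).2
    obtain ⟨p, q, hpq, hpa, hpb, hpc, hqa, hqb, hqc⟩ := ex2 a b c hab hca.symm hcb.symm
    -- `p · b = q`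
    have e1 : op p b = q := by
      have n1 := (hP.ne p b hpb)
      have n2 : op p b ≠ a := fun h => hpc ((sw _ _ _ h).symm.trans h1)
      have n3 : op p b ≠ c := fun h => hpa ((sw _ _ _ h).symm.trans (sw _ _ _ h1))
      rcases exh a b c p q (op p b) hab hca.symm hpa.symm hqa.symm hcb.symm hpb.symm hqb.symm
        hpc.symm hqc.symm hpq with h | h | h | h | h
      · exact absurd h n2
      · exact absurd h n1.2
      · exact absurd h n3
      · exact absurd h n1.1
      · exact h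
    have e2 : op p c = q := by
      have n1 := (hP.ne p c hpc)
      have n2 : op p c ≠ a := fun h => hpb ((sw _ _ _ h).symm.trans (sw _ _ _ h2))
      have n3 : op p c ≠ b := fun h => hpa ((sw _ _ _ h).symm.trans h2)
      rcases exh a b c p q (op p c) hab hca.symm hpa.symm hqa.symm hcb.symm hpb.symm hqb.symm
        hpc.symm hqc.symm hpq with h | h | h | h | h
      · exact absurd h n2
      · exact absurd h n3
      · exact absurd h n1.2
      · exact absurd h n1.1
      · exact h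
    exact hcb (cancel p b c (e1.trans e2.symm)).symm
  -- the walk has period five
  obtain ⟨v, h1, h2⟩ := hE
  obtain ⟨i, hi, -⟩ := h2 0 1 (by decide)
  have n01 : v i ≠ v (i + 1) := by
    intro h
    rw [← h] at hi
    have := (Sym2.eq_iff.1 hi)
    rcases this with ⟨a, b⟩ | ⟨a, b⟩ <;> · rw [a] at b; exact absurd b (by decide)
  have s2 : op (v i) (v (i + 1)) = v (i + 2) := h1 i
  have s3 : op (v (i + 1)) (v (i + 2)) = v (i + 3) := by
    have := h1 (i + 1)
    rwa [show i + 1 + 1 = i + 2 by ring, show i + 1 + 2 = i + 3 by ring] at this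
  have s4 : op (v (i + 2)) (v (i + 3)) = v (i + 4) := by
    have := h1 (i + 2)
    rwa [show i + 2 + 1 = i + 3 by ring, show i + 2 + 2 = i + 4 by ring] at this
  have s5 : op (v (i + 3)) (v (i + 4)) = v (i + 5) := by
    have := h1 (i + 3)
    rwa [show i + 3 + 1 = i + 4 by ring, show i + 3 + 2 = i + 5 by ring] at this
  have s6 : op (v (i + 4)) (v (i + 5)) = v (i + 6) := by
    have := h1 (i + 4)
    rwa [show i + 4 + 1 = i + 5 by ring, show i + 4 + 2 = i + 6 by ring] at this
  generalize hb0 : v i = b0 at *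
  generalize hb1 : v (i + 1) = b1 at *
  generalize hb2 : v (i + 2) = b2 at *
  generalize hb3 : v (i + 3) = b3 at *
  generalize hb4 : v (i + 4) = b4 at *
  generalize hb5 : v (i + 5) = b5 at *
  generalize hb6 : v (i + 6) = b6 at *
  have n02 : b0 ≠ b2 := by rw [← s2]; exact (hP.ne _ _ n01).1.symm
  have n12 : b1 ≠ b2 := by rw [← s2]; exact (hP.ne _ _ n01).2.symm
  have n13 : b1 ≠ b3 := by rw [← s3]; exact (hP.ne _ _ n12).1.symm
  have n23 : b2 ≠ b3 := by rw [← s3]; exact (hP.ne _ _ n12).2.symm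
  have n03 : b0 ≠ b3 := by rw [← s3]; exact (T _ _ _ n01 s2).symm
  have n24 : b2 ≠ b4 := by rw [← s4]; exact (hP.ne _ _ n23).1.symm
  have n34 : b3 ≠ b4 := by rw [← s4]; exact (hP.ne _ _ n23).2.symm
  have n14 : b1 ≠ b4 := by rw [← s4]; exact (T _ _ _ n12 s3).symm
  have n04 : b0 ≠ b4 := by
    intro h
    have e : op b2 b3 = op b2 b1 := by rw [s4, ← h, sw _ _ _ s2]
    exact n13 (cancel _ _ _ e).symm
  have n35 : b3 ≠ b5 := by rw [← s5]; exact (hP.ne _ _ n34).1.symm
  have n45 : b4 ≠ b5 := by rw [← s5]; exact (hP.ne _ _ n34).2.symm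
  have n25 : b2 ≠ b5 := by rw [← s5]; exact (T _ _ _ n23 s4).symm
  have n15 : b1 ≠ b5 := by
    intro h
    have e : op b3 b4 = op b3 b2 := by rw [s5, ← h, sw _ _ _ s3]
    exact n24 (cancel _ _ _ e).symm
  have e50 : b5 = b0 := by
    rcases exh b0 b1 b2 b3 b4 b5 n01 n02 n03 n04 n12 n13 n14 n23 n24 n34 with h | h | h | h | h
    · exact h
    · exact absurd h.symm n15
    · exact absurd h.symm n25
    · exact absurd h.symm n35
    · exact absurd h.symm n45
  have n46 : b4 ≠ b6 := by rw [← s6]; exact (hP.ne _ _ n45).1.symm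
  have n56 : b5 ≠ b6 := by rw [← s6]; exact (hP.ne _ _ n45).2.symm
  have n36 : b3 ≠ b6 := by rw [← s6]; exact (T _ _ _ n34 s5).symm
  have n26 : b2 ≠ b6 := by
    intro h
    have e : op b4 b5 = op b4 b3 := by rw [s6, ← h, sw _ _ _ s4]
    exact n35 (cancel _ _ _ e).symm
  have e61 : b6 = b1 := by
    rcases exh b0 b1 b2 b3 b4 b6 n01 n02 n03 n04 n12 n13 n14 n23 n24 n34 with h | h | h | h | h
    · exact absurd (e50.trans h.symm) n56
    · exact h
    · exact absurd h.symm n26
    · exact absurd h.symm n36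
    · exact absurd h.symm n46
  have hu := (h2 b0 b1 n01).unique (y₁ := i) (y₂ := i + 5) (by rw [hb0, hb1])
    (by rw [show i + 5 + 1 = i + 6 by ring, hb5, hb6, e50, e61])
  have h5 : ((5 : ℕ) : ZMod (Fintype.card (Fin 5) * (Fintype.card (Fin 5) - 1) / 2)) = 0 := by
    have : i + 5 = i + 0 := by rw [← hu, add_zero]
    have := add_left_cancel this
    exact_mod_cast this
  rw [ZMod.natCast_eq_zero_iff] at h5
  simp only [Fintype.card_fin] at h5
  exact absurd h5 (by decide)

/-! ### The orders 3 and 7 -/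

theorem exists_three : ∃ op : Fin 3 → Fin 3 → Fin 3,
    IsPGroupoid op ∧ IsQuasigroup op ∧ IsEulerian op := by
  refine exists_of_walk 3 (by simp) (fun i => (![0, 1, 2] : Fin 3 → Fin 3) i) ?_ ?_
  · decide
  · decide

theorem exists_seven : ∃ op : Fin 7 → Fin 7 → Fin 7,
    IsPGroupoid op ∧ IsQuasigroup op ∧ IsEulerian op := by
  refine exists_of_walk 21 (by simp) (fun i => (![0, 1, 2, 0, 3, 4, 1, 5, 6, 0, 5, 3, 1, 6, 2, 4,
    5, 2, 3, 6, 4] : Fin 21 → Fin 7) i) ?_ ?_
  · decide
  · decide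

/-- Eulerian P-quasigroups of order `n ≥ 2` exist exactly for odd `n ≠ 5`. -/
theorem classification (n : ℕ) (hn : 2 ≤ n) :
    (∃ op : Fin n → Fin n → Fin n, IsPGroupoid op ∧ IsQuasigroup op ∧ IsEulerian op) ↔
      (Odd n ∧ n ≠ 5) := by
  constructor
  · rintro ⟨op, hP, hQ, hE⟩
    have : Nonempty (Fin n) := ⟨⟨0, by omega⟩⟩
    refine ⟨by simpa using odd_of_pgroupoid op hP, ?_⟩
    rintro rfl
    exact no_five op hP hQ hE
  · rintro ⟨⟨k, rfl⟩, h5⟩
    by_cases k1 : k = 1
    · subst k1; exact exists_three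
    by_cases k3 : k = 3
    · subst k3; exact exists_seven
    obtain ⟨e, he⟩ := exists_starter k (by omega)
    exact exists_fin_of_starter he

end Pool.Agent.W125.Kotzig
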