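import Mathlib

/-!
# Strands, levels and three lexicographic keys

Combinatorial core of the construction for `MP_89b4f4_co`.  A strand `e` has two natural
numbers `p` (initial position) and `t` (the time at which it is moved to the front), and levels
`0, 1, 2, …`; level `6 r + i` is level `i` of gadget `r`.  The three keys below are lexicographic
triples of integers; the intersection of the three orders is the relation `coreRel`.
-/

namespace Pool.Agent.W125.Dim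

/-- lexicographic strict comparison of integer triples -/
def lx (x y : ℤ × ℤ × ℤ) : Prop :=
  x.1 < y.1 ∨ (x.1 = y.1 ∧ (x.2.1 < y.2.1 ∨ (x.2.1 = y.2.1 ∧ x.2.2 < y.2.2)))

/-- first key inside gadget `r`: `P`, `Q` are the positions before and after the gadget -/
def g1 (r : ℤ) (i : ℕ) (P Q : ℤ) : ℤ × ℤ × ℤ :=
  match i with
  | 0 => (2 * r - 2, -P, 1)
  | 1 => (2 * r + 1, P, 1)
  | 2 => (2 * r + 1, P, 0)
  | 3 => (2 * r + 1, P, 2)
  | 4 => (2 * r, -Q, 0)
  | 5 => (2 * r, -Q, 2)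
  | _ => (2 * r, -Q, 1)

/-- second key inside gadget `r`; `a` says that the strand is the moving one -/
def g2 (r : ℤ) (i : ℕ) (P Q : ℤ) (a : Bool) : ℤ × ℤ × ℤ :=
  match i with
  | 0 => (-2 * r, -P, 0)
  | 1 => (-2 * r, -P, 2)
  | 2 => (-2 * r, -P, 1)
  | 3 => bif a then (-2 * r, -P, 4) else (-2 * r + 1, Q, 1)
  | 4 => bif a then (-2 * r, -P, 3) else (-2 * r + 1, Q, 0)
  | 5 => (-2 * r + 1, Q, 2)
  | _ => (-2 * r - 2, -Q, 0)

/-- third key inside gadget `r` -/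
def g3 (r : ℤ) (i : ℕ) (P Q : ℤ) (a : Bool) : ℤ × ℤ × ℤ :=
  match i with
  | 0 => (2 * r + 1, P, 3)
  | 1 => (2 * r + 1, P, 4)
  | 2 => bif a then (2 * r + 1, P, 0) else (2 * r, -P, 0)
  | 3 => bif a then (2 * r + 1, P, 2) else (2 * r, -P, 2)
  | 4 => bif a then (2 * r + 1, P, 1) else (2 * r, -P, 1)
  | 5 => (2 * r + 3, Q, 5)
  | _ => (2 * r + 3, Q, 3)

/-- the relation between levels `i`, `j` of one strand in one gadget -/
def relSame (i j : ℕ) : Prop := (i % 2 = 0 ∧ (j = i + 1 ∨ i = j + 1)) ∨ (i = 0 ∧ j = 5)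

instance (i j : ℕ) : Decidable (relSame i j) := by unfold relSame; infer_instance

theorem gadget_same (r : ℤ) (P Q : ℤ) (a : Bool) (i j : ℕ) (hi : i ≤ 6) (hj : j ≤ 6)
    (hij : ¬ relSame i j) (hne : i ≠ j) :
    lx (g1 r j P Q) (g1 r i P Q) ∨ lx (g2 r j P Q a) (g2 r i P Q a) ∨
      lx (g3 r j P Q a) (g3 r i P Q a) := by
  cases a <;> interval_cases i <;> interval_cases j <;>
    first
    | exact absurd rfl hne
    | exact absurd (by decide) hij
    | (simp only [lx, g1, g2, g3, cond_true, cond_false]; omega)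
    | simp [lx, g1, g2, g3]

theorem gadget_same_rel (r : ℤ) (P Q : ℤ) (a : Bool) (i j : ℕ) (hi : i ≤ 6) (hj : j ≤ 6)
    (hij : relSame i j) :
    lx (g1 r i P Q) (g1 r j P Q) ∧ lx (g2 r i P Q a) (g2 r j P Q a) ∧
      lx (g3 r i P Q a) (g3 r j P Q a) := by
  cases a <;> interval_cases i <;> interval_cases j <;>
    first
    | exact absurd hij (by decide)
    | (simp only [lx, g1, g2, g3, cond_true, cond_false]; omega)
    | simp [lx, g1, g2, g3]

theorem gadget_diff (r : ℤ) (P Q P' Q' : ℤ) (a a' : Bool) (i j : ℕ) (hi : i ≤ 6) (hj : j ≤ 6)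
    (hij : ¬ (i = 0 ∧ j = 5)) (hP : P ≠ P') (hQ : Q ≠ Q')
    (h : (a = false ∧ a' = false ∧ Q = P ∧ Q' = P') ∨ (a = true ∧ a' = false ∧ Q' = P' ∧ Q < Q') ∨
      (a = false ∧ a' = true ∧ Q = P ∧ Q' < Q)) :
    lx (g1 r j P' Q') (g1 r i P Q) ∨ lx (g2 r j P' Q' a') (g2 r i P Q a) ∨
      lx (g3 r j P' Q' a') (g3 r i P Q a) := by
  rcases h with ⟨rfl, rfl, rfl, rfl⟩ | ⟨rfl, rfl, rfl, h⟩ | ⟨rfl, rfl, rfl, h⟩ <;>
    interval_cases i <;> interval_cases j <;>
    first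
    | exact absurd ⟨rfl, rfl⟩ hij
    | (simp only [lx, g1, g2, g3, cond_true, cond_false]; omega)
    | (simp [lx, g1, g2, g3]; done)
    | (simp [lx, g1, g2, g3]; omega)

theorem gadget_diff_rel (r : ℤ) (P Q P' Q' : ℤ) (a a' : Bool) :
    lx (g1 r 0 P Q) (g1 r 5 P' Q') ∧ lx (g2 r 0 P Q a) (g2 r 5 P' Q' a') ∧
      lx (g3 r 0 P Q a) (g3 r 5 P' Q' a') := by
  simp only [lx, g1, g2, g3]; omega

end Pool.Agent.W125.Dim
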