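import Pool.Agent.W125.DimA

/-!
# The poset attached to an incidence system, as an intersection of three orders
-/

namespace Pool.Agent.W125.Dim

/-- position of a strand with data `t` (moving time), `p` (initial position) before gadget `r` -/
def pos (t p : ℕ) (r : ℕ) : ℤ := if t < r then -((t : ℤ) + 1) else (p : ℤ)

/-- keys of level `l` of the strand with data `t`, `p` -/
def c1 (l t p : ℕ) : ℤ × ℤ × ℤ := g1 ((l / 6 : ℕ) : ℤ) (l % 6) (pos t p (l / 6)) (pos t p (l / 6 + 1))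
def c2 (l t p : ℕ) : ℤ × ℤ × ℤ :=
  g2 ((l / 6 : ℕ) : ℤ) (l % 6) (pos t p (l / 6)) (pos t p (l / 6 + 1)) (decide (t = l / 6))
def c3 (l t p : ℕ) : ℤ × ℤ × ℤ :=
  g3 ((l / 6 : ℕ) : ℤ) (l % 6) (pos t p (l / 6)) (pos t p (l / 6 + 1)) (decide (t = l / 6))

/-- level `l` of a strand lies below level `k` of a strand (`same`: the same strand) -/
def crel (l k : ℕ) (same : Prop) : Prop :=
  (l % 2 = 0 ∧ same ∧ (k = l + 1 ∨ l = k + 1)) ∨ (l % 6 = 0 ∧ k = l + 5)

theorem c1_six (r t p : ℕ) : c1 (6 * (r + 1)) t p =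
    g1 (r : ℤ) 6 (pos t p r) (pos t p (r + 1)) := by
  have h1 : 6 * (r + 1) / 6 = r + 1 := by omega
  have h2 : 6 * (r + 1) % 6 = 0 := by omega
  simp only [c1, h1, h2, g1, Prod.mk.injEq, and_true]
  push_cast
  ring

theorem c2_six (r t p : ℕ) (a : Bool) : c2 (6 * (r + 1)) t p =
    g2 (r : ℤ) 6 (pos t p r) (pos t p (r + 1)) a := by
  have h1 : 6 * (r + 1) / 6 = r + 1 := by omega
  have h2 : 6 * (r + 1) % 6 = 0 := by omega
  simp only [c2, h1, h2, g2, Prod.mk.injEq, and_true]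
  push_cast
  ring

theorem c3_six (r t p : ℕ) (a : Bool) : c3 (6 * (r + 1)) t p =
    g3 (r : ℤ) 6 (pos t p r) (pos t p (r + 1)) a := by
  have h1 : 6 * (r + 1) / 6 = r + 1 := by omega
  have h2 : 6 * (r + 1) % 6 = 0 := by omega
  simp only [c3, h1, h2, g3, Prod.mk.injEq, and_true]
  push_cast
  ring

theorem c_in (r i t p : ℕ) (hi : i < 6) :
    c1 (6 * r + i) t p = g1 (r : ℤ) i (pos t p r) (pos t p (r + 1)) ∧
    c2 (6 * r + i) t p = g2 (r : ℤ) i (pos t p r) (pos t p (r + 1)) (decide (t = r)) ∧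
    c3 (6 * r + i) t p = g3 (r : ℤ) i (pos t p r) (pos t p (r + 1)) (decide (t = r)) := by
  have h1 : (6 * r + i) / 6 = r := by omega
  have h2 : (6 * r + i) % 6 = i := by omega
  simp only [c1, c2, c3, h1, h2, and_self]

/-- levels `6 r + i` with `i ≤ 6` -/
theorem c_in' (r i t p : ℕ) (hi : i ≤ 6) :
    c1 (6 * r + i) t p = g1 (r : ℤ) i (pos t p r) (pos t p (r + 1)) ∧
    c2 (6 * r + i) t p = g2 (r : ℤ) i (pos t p r) (pos t p (r + 1)) (decide (t = r)) ∧
    c3 (6 * r + i) t p = g3 (r : ℤ) i (pos t p r) (pos t p (r + 1)) (decide (t = r)) := by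
  rcases Nat.lt_or_ge i 6 with h | h
  · exact c_in r i t p h
  · have : i = 6 := le_antisymm hi h
    subst this
    have e : 6 * r + 6 = 6 * (r + 1) := by ring
    rw [e]
    exact ⟨c1_six r t p, c2_six r t p _, c3_six r t p _⟩

theorem zone1_ge (r : ℤ) (i : ℕ) (P Q : ℤ) : 2 * r - 2 ≤ (g1 r i P Q).1 := by
  unfold g1; split <;> simp <;> omega

theorem zone1_ge' (r : ℤ) (i : ℕ) (hi : i ≠ 0) (P Q : ℤ) : 2 * r ≤ (g1 r i P Q).1 := by
  unfold g1; split <;> simp_all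

theorem zone1_le (r : ℤ) (i : ℕ) (P Q : ℤ) : (g1 r i P Q).1 ≤ 2 * r + 1 := by
  unfold g1; split <;> simp <;> omega

theorem zone2_ge (r : ℤ) (i : ℕ) (hi : i < 6) (P Q : ℤ) (a : Bool) : -2 * r ≤ (g2 r i P Q a).1 := by
  cases a <;> interval_cases i <;> simp [g2]

theorem zone2_le (r : ℤ) (i : ℕ) (P Q : ℤ) (a : Bool) : (g2 r i P Q a).1 ≤ -2 * r + 1 := by
  cases a <;> unfold g2 <;> split <;> simp <;> omega

/-- separated levels -/
theorem sep (l k t p t' p' : ℕ) (h : l / 6 + 1 < k / 6 ∨ (l / 6 + 1 = k / 6 ∧ k % 6 ≠ 0)) :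
    lx (c1 l t p) (c1 k t' p') ∧ lx (c2 k t' p') (c2 l t p) := by
  have a1 := zone1_le ((l / 6 : ℕ) : ℤ) (l % 6) (pos t p (l / 6)) (pos t p (l / 6 + 1))
  have a2 := zone2_ge ((l / 6 : ℕ) : ℤ) (l % 6) (Nat.mod_lt _ (by norm_num)) (pos t p (l / 6))
    (pos t p (l / 6 + 1)) (decide (t = l / 6))
  have a3 := zone1_ge ((k / 6 : ℕ) : ℤ) (k % 6) (pos t' p' (k / 6)) (pos t' p' (k / 6 + 1))
  have a4 := zone2_le ((k / 6 : ℕ) : ℤ) (k % 6) (pos t' p' (k / 6))
    (pos t' p' (k / 6 + 1)) (decide (t' = k / 6))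
  constructor
  · left
    show (g1 _ _ _ _).1 < (g1 _ _ _ _).1
    rcases h with h | ⟨h, h'⟩
    · have : ((l / 6 : ℕ) : ℤ) + 1 < ((k / 6 : ℕ) : ℤ) := by exact_mod_cast h
      omega
    · have a5 := zone1_ge' ((k / 6 : ℕ) : ℤ) (k % 6) h' (pos t' p' (k / 6)) (pos t' p' (k / 6 + 1))
      have : ((l / 6 : ℕ) : ℤ) + 1 = ((k / 6 : ℕ) : ℤ) := by exact_mod_cast h
      omega
  · left
    show (g2 _ _ _ _ _).1 < (g2 _ _ _ _ _).1
    have : ((l / 6 : ℕ) : ℤ) + 1 ≤ ((k / 6 : ℕ) : ℤ) := by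
      rcases h with h | ⟨h, _⟩
      · exact_mod_cast h.le
      · exact_mod_cast h.le
    omega

/-- behaviour of the positions of two different strands in one gadget -/
theorem pos_cases (t p t' p' r : ℕ) (ht : t ≠ t') :
    (decide (t = r) = false ∧ decide (t' = r) = false ∧ pos t p (r + 1) = pos t p r ∧
        pos t' p' (r + 1) = pos t' p' r) ∨
      (decide (t = r) = true ∧ decide (t' = r) = false ∧ pos t' p' (r + 1) = pos t' p' r ∧
        pos t p (r + 1) < pos t' p' (r + 1)) ∨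
      (decide (t = r) = false ∧ decide (t' = r) = true ∧ pos t p (r + 1) = pos t p r ∧
        pos t' p' (r + 1) < pos t p (r + 1)) := by
  unfold pos
  rcases lt_trichotomy t r with h | h | h <;> rcases lt_trichotomy t' r with h' | h' | h'
  · left
    rw [if_pos (by omega), if_pos (by omega), if_pos (by omega), if_pos (by omega)]
    exact ⟨by simp; omega, by simp; omega, rfl, rfl⟩
  · right; right
    rw [if_pos (by omega), if_pos (by omega), if_pos (by omega)]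
    exact ⟨by simp; omega, by simp; omega, rfl, by omega⟩
  · left
    rw [if_pos (by omega), if_pos (by omega), if_neg (by omega), if_neg (by omega)]
    exact ⟨by simp; omega, by simp; omega, rfl, rfl⟩
  · right; left
    rw [if_pos (by omega), if_pos (by omega), if_pos (by omega)]
    exact ⟨by simp; omega, by simp; omega, rfl, by omega⟩
  · exact absurd (h.trans h'.symm) ht
  · right; left
    rw [if_neg (by omega), if_neg (by omega), if_pos (by omega)]
    exact ⟨by simp; omega, by simp; omega, rfl, by omega⟩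
  · left
    rw [if_neg (by omega), if_neg (by omega), if_pos (by omega), if_pos (by omega)]
    exact ⟨by simp; omega, by simp; omega, rfl, rfl⟩
  · right; right
    rw [if_neg (by omega), if_neg (by omega), if_pos (by omega)]
    exact ⟨by simp; omega, by simp; omega, rfl, by omega⟩
  · left
    rw [if_neg (by omega), if_neg (by omega), if_neg (by omega), if_neg (by omega)]
    exact ⟨by simp; omega, by simp; omega, rfl, rfl⟩

theorem pos_ne (t p t' p' r : ℕ) (ht : t ≠ t') (hp : p ≠ p') : pos t p r ≠ pos t' p' r := by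
  unfold pos
  split_ifs <;> omega

theorem crel_shift (r i j : ℕ) (same : Prop) (hi : i ≤ 6) (hj : j ≤ 6) :
    crel (6 * r + i) (6 * r + j) same ↔ ((same ∧ (i % 2 = 0 ∧ (j = i + 1 ∨ i = j + 1))) ∨
      (i = 0 ∧ j = 5)) := by
  unfold crel
  constructor
  · rintro (⟨h1, h2, h3⟩ | ⟨h1, h2⟩)
    · exact Or.inl ⟨h2, by omega, by omega⟩
    · exact Or.inr (by omega)
  · rintro (⟨h1, h2, h3⟩ | ⟨h1, h2⟩)
    · exact Or.inl ⟨by omega, h1, by omega⟩
    · exact Or.inr (by omega)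

theorem crel_far (l k : ℕ) (same : Prop)
    (h : l / 6 + 1 < k / 6 ∨ (l / 6 + 1 = k / 6 ∧ k % 6 ≠ 0) ∨
      k / 6 + 1 < l / 6 ∨ (k / 6 + 1 = l / 6 ∧ l % 6 ≠ 0)) : ¬ crel l k same := by
  unfold crel
  rintro (⟨h1, h2, h3⟩ | ⟨h1, h2⟩) <;> omega

/-- two levels are separated, or they lie in a common gadget -/
theorem level_cases (l k : ℕ) :
    (l / 6 + 1 < k / 6 ∨ (l / 6 + 1 = k / 6 ∧ k % 6 ≠ 0)) ∨
    (k / 6 + 1 < l / 6 ∨ (k / 6 + 1 = l / 6 ∧ l % 6 ≠ 0)) ∨
    ∃ r i j, i ≤ 6 ∧ j ≤ 6 ∧ l = 6 * r + i ∧ k = 6 * r + j := by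
  rcases lt_trichotomy (l / 6) (k / 6) with h | h | h
  · by_cases h1 : l / 6 + 1 < k / 6 ∨ (l / 6 + 1 = k / 6 ∧ k % 6 ≠ 0)
    · exact Or.inl h1
    · exact Or.inr (Or.inr ⟨l / 6, l % 6, 6, by omega, le_refl _, by omega, by omega⟩)
  · exact Or.inr (Or.inr ⟨l / 6, l % 6, k % 6, by omega, by omega, by omega, by omega⟩)
  · by_cases h1 : k / 6 + 1 < l / 6 ∨ (k / 6 + 1 = l / 6 ∧ l % 6 ≠ 0)
    · exact Or.inr (Or.inl h1)
    · exact Or.inr (Or.inr ⟨k / 6, 6, k % 6, le_refl _, by omega, by omega, by omega⟩)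

/-- related levels: all three keys increase -/
theorem cc_rel (l k t p t' p' : ℕ) (h : crel l k (t = t' ∧ p = p')) :
    lx (c1 l t p) (c1 k t' p') ∧ lx (c2 l t p) (c2 k t' p') ∧ lx (c3 l t p) (c3 k t' p') := by
  rcases level_cases l k with h1 | h1 | ⟨r, i, j, hi, hj, rfl, rfl⟩
  · exact absurd h (crel_far _ _ _ (by omega))
  · exact absurd h (crel_far _ _ _ (by omega))
  · obtain ⟨x1, x2, x3⟩ := c_in' r i t p hi
    obtain ⟨y1, y2, y3⟩ := c_in' r j t' p' hj
    rw [x1, x2, x3, y1, y2, y3]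
    rw [crel_shift r i j _ hi hj] at h
    rcases h with ⟨⟨rfl, rfl⟩, h⟩ | ⟨rfl, rfl⟩
    · exact gadget_same_rel _ _ _ _ i j hi hj (Or.inl h)
    · exact gadget_diff_rel _ _ _ _ _ _ _

/-- unrelated levels: some key does not increase -/
theorem cc_nrel (l k t p t' p' : ℕ) (hne : t = t' → p = p' → l ≠ k) (ht : t = t' ↔ p = p')
    (h : ¬ crel l k (t = t' ∧ p = p')) :
    lx (c1 k t' p') (c1 l t p) ∨ lx (c2 k t' p') (c2 l t p) ∨ lx (c3 k t' p') (c3 l t p) := by
  rcases level_cases l k with h1 | h1 | ⟨r, i, j, hi, hj, rfl, rfl⟩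
  · exact Or.inr (Or.inl (sep l k t p t' p' h1).2)
  · exact Or.inl (sep k l t' p' t p h1).1
  · obtain ⟨x1, x2, x3⟩ := c_in' r i t p hi
    obtain ⟨y1, y2, y3⟩ := c_in' r j t' p' hj
    rw [x1, x2, x3, y1, y2, y3]
    rw [crel_shift r i j _ hi hj] at h
    by_cases htt : t = t'
    · have hpp := ht.1 htt
      subst htt; subst hpp
      refine gadget_same _ _ _ _ i j hi hj ?_ ?_
      · rintro (h2 | h2)
        · exact h (Or.inl ⟨⟨rfl, rfl⟩, h2⟩)
        · exact h (Or.inr h2)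
      · intro h2
        exact hne rfl rfl (by omega)
    · have hpp : p ≠ p' := fun h2 => htt (ht.2 h2)
      refine gadget_diff _ _ _ _ _ _ _ i j hi hj ?_ (pos_ne _ _ _ _ _ htt hpp)
        (pos_ne _ _ _ _ _ htt hpp) (pos_cases t p t' p' r htt)
      intro h2
      exact h (Or.inr h2)

end Pool.Agent.W125.Dim
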