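import Pool.Agent.W125.DimB

/-!
# The poset of a finite incidence relation `A : U → W → Prop`

Vertices: `u x` for `x : U`, `w y` for `y : W`, and `c l e` for every level `l < 6 R + 2` and every
incident pair `e = (x, y)`, where `R` is the number of gadgets.
-/

namespace Pool.Agent.W125.Dim

/-- incident pairs -/
abbrev Inc {U W : Type} (A : U → W → Prop) : Type := {e : U × W // A e.1 e.2}

/-- the vertices of the construction, with `R` gadgets -/
inductive Vtx {U W : Type} (A : U → W → Prop) (R : ℕ) : Type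
  | u : U → Vtx A R
  | w : W → Vtx A R
  | c : Fin (6 * R + 2) → Inc A → Vtx A R

open Vtx

variable {U W : Type} {A : U → W → Prop} {R : ℕ}

/-- the strict order of the construction -/
def Rel : Vtx A R → Vtx A R → Prop
  | c l e, c k f => crel l k (e = f)
  | c l e, u x => (l : ℕ) = 0 ∧ e.1.1 = x
  | w y, c l e => (l : ℕ) = 6 * R + 1 ∧ e.1.2 = y
  | _, _ => False

/-- numbering data: `nu`, `nw` number `U` and `W`, below `BU` and `BW` -/
structure Num (U W : Type) (R : ℕ) where
  nu : U → ℕ
  nw : W → ℕ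
  BU : ℕ
  BW : ℕ
  nu_inj : Function.Injective nu
  nw_inj : Function.Injective nw
  nu_lt : ∀ x, nu x < BU
  nw_lt : ∀ y, nw y < BW
  le_R : ∀ x y, nw y * BU + nu x < R
  BU_pos : 0 < BU
  BW_pos : 0 < BW

variable (N : Num U W R)

/-- start of the block of `x` in the initial order -/
def au (x : U) : ℕ := N.nu x * N.BW
/-- start of the block of `y` in the moving order -/
def aw (y : W) : ℕ := N.nw y * N.BU

theorem au_lt {x y : U} (h : N.nu x < N.nu y) : au N x + N.BW ≤ au N y := by
  unfold au
  calc N.nu x * N.BW + N.BW = (N.nu x + 1) * N.BW := by ring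
    _ ≤ N.nu y * N.BW := Nat.mul_le_mul_right _ h

theorem aw_lt {x y : W} (h : N.nw x < N.nw y) : aw N x + N.BU ≤ aw N y := by
  unfold aw
  calc N.nw x * N.BU + N.BU = (N.nw x + 1) * N.BU := by ring
    _ ≤ N.nw y * N.BU := Nat.mul_le_mul_right _ h

/-- initial position -/
def io (e : Inc A) : ℕ := au N e.1.1 + N.nw e.1.2
/-- moving time -/
def ta (e : Inc A) : ℕ := aw N e.1.2 + N.nu e.1.1

def K1 : Vtx A R → ℤ × ℤ × ℤ
  | u x => (-2, -((au N x : ℕ) : ℤ), 2)
  | w y => (2 * (R : ℤ) + 1, -((aw N y + N.BU : ℕ) : ℤ), 0)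
  | c l e => c1 l (ta N e) (io N e)

def K2 : Vtx A R → ℤ × ℤ × ℤ
  | u x => (2, (N.nu x : ℤ), 0)
  | w y => (-2 * (R : ℤ), ((aw N y : ℕ) : ℤ), 3)
  | c l e => c2 l (ta N e) (io N e)

def K3 : Vtx A R → ℤ × ℤ × ℤ
  | u x => (1, ((au N x + N.BW : ℕ) : ℤ), -1)
  | w y => (2 * (R : ℤ), (N.nw y : ℤ), 0)
  | c l e => c3 l (ta N e) (io N e)

theorem io_inj (e f : Inc A) : io N e = io N f ↔ e = f := by
  constructor
  · intro h
    have h1 := N.nw_lt e.1.2
    have h2 := N.nw_lt f.1.2
    have h3 : N.nu e.1.1 = N.nu f.1.1 := by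
      rcases lt_trichotomy (N.nu e.1.1) (N.nu f.1.1) with h3 | h3 | h3
      · have := au_lt N h3
        unfold io at h; omega
      · exact h3
      · have := au_lt N h3
        unfold io at h; omega
    have h4 : e.1.1 = f.1.1 := N.nu_inj h3
    have h5 : N.nw e.1.2 = N.nw f.1.2 := by
      unfold io at h; rw [h4] at h; omega
    exact Subtype.ext (Prod.ext h4 (N.nw_inj h5))
  · rintro rfl; rfl

theorem ta_inj (e f : Inc A) : ta N e = ta N f ↔ e = f := by
  constructor
  · intro h
    have h1 := N.nu_lt e.1.1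
    have h2 := N.nu_lt f.1.1
    have h3 : N.nw e.1.2 = N.nw f.1.2 := by
      rcases lt_trichotomy (N.nw e.1.2) (N.nw f.1.2) with h3 | h3 | h3
      · have := aw_lt N h3
        unfold ta at h; omega
      · exact h3
      · have := aw_lt N h3
        unfold ta at h; omega
    have h4 : e.1.2 = f.1.2 := N.nw_inj h3
    have h5 : N.nu e.1.1 = N.nu f.1.1 := by
      unfold ta at h; rw [h4] at h; omega
    exact Subtype.ext (Prod.ext (N.nu_inj h5) h4)
  · rintro rfl; rfl

theorem ta_lt (e : Inc A) : ta N e < R := N.le_R _ _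

theorem crel_congr {l k : ℕ} {p q : Prop} (h : p ↔ q) : crel l k p ↔ crel l k q := by
  unfold crel; rw [h]

theorem same_iff (e f : Inc A) : (ta N e = ta N f ∧ io N e = io N f) ↔ e = f := by
  rw [ta_inj, io_inj, and_self]

/-- all three keys increase along the relation -/
theorem key_rel (x y : Vtx A R) (h : Rel x y) :
    lx (K1 N x) (K1 N y) ∧ lx (K2 N x) (K2 N y) ∧ lx (K3 N x) (K3 N y) := by
  match x, y, h with
  | c l e, c k f, h =>
    exact cc_rel l k _ _ _ _ ((crel_congr (same_iff N e f)).2 h)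
  | c l e, u x, ⟨h0, hx⟩ =>
    subst hx
    have hb := N.nw_lt e.1.2
    simp only [K1, K2, K3, c1, c2, c3, h0, Nat.zero_div, Nat.zero_mod, g1, g2, g3, pos, lx,
      Nat.not_lt_zero, if_false, io]
    refine ⟨?_, ?_, ?_⟩
    · right; exact ⟨by norm_num, by omega⟩
    · left; norm_num
    · right; exact ⟨by norm_num, by omega⟩
  | w y, c l e, ⟨h0, hy⟩ =>
    subst hy
    have h1 : (6 * R + 1) / 6 = R := by omega
    have h2 : (6 * R + 1) % 6 = 1 := by omega
    have h3 := ta_lt N e
    have hb := N.nu_lt e.1.1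
    simp only [K1, K2, K3, c1, c2, c3, h0, h1, h2, g1, g2, g3, pos, lx, if_pos h3]
    unfold ta
    refine ⟨?_, ?_, ?_⟩
    · right; exact ⟨trivial, by omega⟩
    · right; exact ⟨trivial, by omega⟩
    · left; omega

/-- zones of the first key of a level -/
theorem c1_zone (l t p : ℕ) (hl : l ≠ 0) : 0 ≤ (c1 l t p).1 := by
  unfold c1
  rcases Nat.eq_zero_or_pos (l / 6) with h | h
  · have : l % 6 ≠ 0 := by omega
    have := zone1_ge' ((l / 6 : ℕ) : ℤ) (l % 6) this (pos t p (l / 6)) (pos t p (l / 6 + 1))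
    omega
  · have := zone1_ge ((l / 6 : ℕ) : ℤ) (l % 6) (pos t p (l / 6)) (pos t p (l / 6 + 1))
    omega

theorem c2_zone_le (l t p : ℕ) : (c2 l t p).1 ≤ 1 := by
  unfold c2
  have := zone2_le ((l / 6 : ℕ) : ℤ) (l % 6) (pos t p (l / 6)) (pos t p (l / 6 + 1))
    (decide (t = l / 6))
  omega

theorem c2_zone_ge (l t p : ℕ) (hl : l < 6 * R) : -2 * (R : ℤ) < (c2 l t p).1 := by
  unfold c2
  have h1 := zone2_ge ((l / 6 : ℕ) : ℤ) (l % 6) (Nat.mod_lt _ (by norm_num)) (pos t p (l / 6))
    (pos t p (l / 6 + 1)) (decide (t = l / 6))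
  omega

theorem c1_zone_le (l t p : ℕ) (hl : l ≤ 6 * R) : (c1 l t p).1 < 2 * (R : ℤ) + 1 := by
  unfold c1
  rcases Nat.lt_or_ge l (6 * R) with h | h
  · have h1 := zone1_le ((l / 6 : ℕ) : ℤ) (l % 6) (pos t p (l / 6)) (pos t p (l / 6 + 1))
    omega
  · have : l = 6 * R := le_antisymm hl h
    subst this
    have h1 : 6 * R / 6 = R := by omega
    have h2 : 6 * R % 6 = 0 := by omega
    simp only [h1, h2, g1]
    omega

/-- unrelated vertices: some key does not increase -/
theorem key_nrel (x y : Vtx A R) (hne : x ≠ y) (h : ¬ Rel x y) :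
    lx (K1 N y) (K1 N x) ∨ lx (K2 N y) (K2 N x) ∨ lx (K3 N y) (K3 N x) := by
  match x, y, hne, h with
  | c l e, c k f, hne, h =>
    refine cc_nrel l k _ _ _ _ ?_ ?_ (fun h' => h ((crel_congr (same_iff N e f)).1 h'))
    · intro h1 h2 h3
      have := (ta_inj N e f).1 h1
      subst this
      exact hne (by rw [Fin.ext h3])
    · rw [ta_inj, io_inj]
  | u x, u y, hne, h =>
    have hxy : N.nu x ≠ N.nu y := fun h' => hne (by rw [N.nu_inj h'])
    rcases lt_or_gt_of_ne hxy with h1 | h1
    · have h2 := au_lt N h1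
      have h3 := N.nu_lt x
      left
      simp only [K1, lx]
      right
      refine ⟨trivial, ?_⟩
      have h4 := N.BW_pos
      omega
    · right; left
      simp only [K2, lx]
      right
      refine ⟨trivial, ?_⟩
      omega
  | u x, w y, hne, h =>
    right; left
    simp only [K2, lx]
    omega
  | w x, u y, hne, h =>
    left
    simp only [K1, lx]
    omega
  | w x, w y, hne, h =>
    have hxy : N.nw x ≠ N.nw y := fun h' => hne (by rw [N.nw_inj h'])
    rcases lt_or_gt_of_ne hxy with h1 | h1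
    · have h2 := aw_lt N h1
      have h4 := N.BU_pos
      left
      simp only [K1, lx]
      right
      exact ⟨trivial, by omega⟩
    · right; right
      simp only [K3, lx]
      right
      exact ⟨trivial, by omega⟩
  | u x, c l e, hne, h =>
    right; left
    have := c2_zone_le l (ta N e) (io N e)
    simp only [K2, lx]
    omega
  | c l e, u x, hne, h =>
    by_cases hl : (l : ℕ) = 0
    · have hx : e.1.1 ≠ x := fun h' => h ⟨hl, h'⟩
      have hxy : N.nu e.1.1 ≠ N.nu x := fun h' => hx (N.nu_inj h')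
      have hb := N.nw_lt e.1.2
      rcases lt_or_gt_of_ne hxy with h1 | h1
      · have h2 := au_lt N h1
        left
        simp only [K1, c1, hl, Nat.zero_div, Nat.zero_mod, g1, pos, lx, Nat.not_lt_zero, if_false,
          io]
        right; exact ⟨by norm_num, by omega⟩
      · have h2 := au_lt N h1
        right; right
        simp only [K3, c3, hl, Nat.zero_div, Nat.zero_mod, g3, pos, lx, Nat.not_lt_zero, if_false,
          io]
        right; exact ⟨by norm_num, by omega⟩
    · left
      have := c1_zone l (ta N e) (io N e) hl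
      simp only [K1, lx]
      omega
  | w y, c l e, hne, h =>
    by_cases hl : (l : ℕ) = 6 * R + 1
    · have hy : e.1.2 ≠ y := fun h' => h ⟨hl, h'⟩
      have hxy : N.nw e.1.2 ≠ N.nw y := fun h' => hy (N.nw_inj h')
      have hb := N.nu_lt e.1.1
      have g1' : (6 * R + 1) / 6 = R := by omega
      have g2' : (6 * R + 1) % 6 = 1 := by omega
      have g3' := ta_lt N e
      rcases lt_or_gt_of_ne hxy with h1 | h1
      · have h2 := aw_lt N h1
        right; left
        simp only [K2, c2, hl, g1', g2', g2, pos, lx, if_pos g3']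
        unfold ta
        right; exact ⟨trivial, by omega⟩
      · have h2 := aw_lt N h1
        left
        simp only [K1, c1, hl, g1', g2', g1, pos, lx, if_pos g3']
        unfold ta
        right; exact ⟨trivial, by omega⟩
    · left
      have := c1_zone_le (R := R) l (ta N e) (io N e) (by have := l.2; omega)
      simp only [K1, lx]
      omega
  | c l e, w y, hne, h =>
    by_cases hl : (l : ℕ) < 6 * R
    · right; left
      have := c2_zone_ge (R := R) l (ta N e) (io N e) hl
      simp only [K2, lx]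
      omega
    · right; right
      have h1 : (l : ℕ) / 6 = R := by have := l.2; omega
      have h2 : (l : ℕ) % 6 = 0 ∨ (l : ℕ) % 6 = 1 := by have := l.2; omega
      simp only [K3, c3, h1, lx]
      rcases h2 with h2 | h2
      · simp only [h2, g3]; omega
      · simp only [h2, g3]; omega

end Pool.Agent.W125.Dim
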