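import Pool.Agent.W125.DimC

/-!
# Isomorphisms between the comparability graphs `XG A R`
-/

namespace Pool.Agent.W125.Dim

open Vtx

variable {U W U' W' : Type} {A : U → W → Prop} {A' : U' → W' → Prop} {R : ℕ}

theorem Rel_irrefl (x : Vtx A R) : ¬ Rel x x := by
  match x with
  | u x => exact id
  | w y => exact id
  | c l e =>
    rintro (⟨h1, h2, h3⟩ | ⟨h1, h2⟩) <;> omega

/-- the comparability graph of the construction -/
def XG (A : U → W → Prop) (R : ℕ) : SimpleGraph (Vtx A R) where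
  Adj x y := Rel x y ∨ Rel y x
  symm := ⟨fun _ _ h => Or.symm h⟩
  loopless := ⟨fun x h => h.elim (Rel_irrefl x) (Rel_irrefl x)⟩

/-- neighbours of `u x` -/
theorem adj_u (x : U) (v : Vtx A R) :
    (XG A R).Adj (u x) v ↔ ∃ (l : Fin (6 * R + 2)) (e : Inc A), v = c l e ∧ (l : ℕ) = 0 ∧ e.1.1 = x := by
  match v with
  | u y => simp [XG, Rel]
  | w y => simp [XG, Rel]
  | c l e =>
    constructor
    · rintro (h | h)
      · exact h.elim
      · exact ⟨l, e, rfl, h⟩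
    · rintro ⟨l', e', h1, h2⟩
      obtain ⟨rfl, rfl⟩ := Vtx.c.inj h1
      exact Or.inr h2

/-- neighbours of `w y` -/
theorem adj_w (y : W) (v : Vtx A R) :
    (XG A R).Adj (w y) v ↔ ∃ (l : Fin (6 * R + 2)) (e : Inc A),
      v = c l e ∧ (l : ℕ) = 6 * R + 1 ∧ e.1.2 = y := by
  match v with
  | u y => simp [XG, Rel]
  | w y => simp [XG, Rel]
  | c l e =>
    constructor
    · rintro (h | h)
      · exact ⟨l, e, rfl, h⟩
      · exact h.elim
    · rintro ⟨l', e', h1, h2⟩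
      obtain ⟨rfl, rfl⟩ := Vtx.c.inj h1
      exact Or.inl h2

/-- neighbours of `c l e` -/
theorem adj_c (l : Fin (6 * R + 2)) (e : Inc A) (v : Vtx A R) :
    (XG A R).Adj (c l e) v ↔
      (∃ k : Fin (6 * R + 2), v = c k e ∧ ((k : ℕ) = l + 1 ∨ (l : ℕ) = k + 1)) ∨
      (∃ (k : Fin (6 * R + 2)) (f : Inc A), v = c k f ∧
        (((l : ℕ) % 6 = 0 ∧ (k : ℕ) = l + 5) ∨ ((k : ℕ) % 6 = 0 ∧ (l : ℕ) = k + 5))) ∨
      (v = u e.1.1 ∧ (l : ℕ) = 0) ∨ (v = w e.1.2 ∧ (l : ℕ) = 6 * R + 1) := by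
  match v with
  | u x =>
    constructor
    · rintro (⟨h0, h1⟩ | h)
      · right; right; left
        exact ⟨by rw [h1], h0⟩
      · exact h.elim
    · rintro (⟨k, h, _⟩ | ⟨k, f, h, _⟩ | ⟨h, h0⟩ | ⟨h, h0⟩)
      · cases h
      · cases h
      · exact Or.inl ⟨h0, (Vtx.u.inj h).symm⟩
      · cases h
  | w x =>
    constructor
    · rintro (h | ⟨h0, h1⟩)
      · exact h.elim
      · right; right; right
        exact ⟨by rw [h1], h0⟩
    · rintro (⟨k, h, _⟩ | ⟨k, f, h, _⟩ | ⟨h, h0⟩ | ⟨h, h0⟩)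
      · cases h
      · cases h
      · cases h
      · exact Or.inr ⟨h0, (Vtx.w.inj h).symm⟩
  | c k f =>
    constructor
    · rintro ((⟨h1, h2, h3⟩ | ⟨h1, h2⟩) | (⟨h1, h2, h3⟩ | ⟨h1, h2⟩))
      · subst h2
        exact Or.inl ⟨k, rfl, h3⟩
      · exact Or.inr (Or.inl ⟨k, f, rfl, Or.inl ⟨h1, h2⟩⟩)
      · subst h2
        exact Or.inl ⟨k, rfl, h3.symm⟩
      · exact Or.inr (Or.inl ⟨k, f, rfl, Or.inr ⟨h1, h2⟩⟩)
    · rintro (⟨k', h, h'⟩ | ⟨k', f', h, h'⟩ | ⟨h, h0⟩ | ⟨h, h0⟩)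
      · obtain ⟨rfl, rfl⟩ := Vtx.c.inj h
        rcases Nat.mod_two_eq_zero_or_one (l : ℕ) with hl | hl
        · exact Or.inl (Or.inl ⟨hl, rfl, h'⟩)
        · exact Or.inr (Or.inl ⟨by omega, rfl, h'.symm⟩)
      · obtain ⟨rfl, rfl⟩ := Vtx.c.inj h
        rcases h' with h' | h'
        · exact Or.inl (Or.inr h')
        · exact Or.inr (Or.inr h')
      · cases h
      · cases h

/-- at least three neighbours -/
def Big (v : Vtx A R) : Prop :=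
  ∃ a b c, a ≠ b ∧ a ≠ c ∧ b ≠ c ∧ (XG A R).Adj v a ∧ (XG A R).Adj v b ∧ (XG A R).Adj v c

theorem Big_iso (φ : XG A R ≃g XG A' R) {v : Vtx A R} (h : Big v) : Big (φ v) := by
  obtain ⟨a, b, c, h1, h2, h3, h4, h5, h6⟩ := h
  exact ⟨φ a, φ b, φ c, fun h => h1 (φ.injective h), fun h => h2 (φ.injective h),
    fun h => h3 (φ.injective h), φ.map_adj_iff.2 h4, φ.map_adj_iff.2 h5, φ.map_adj_iff.2 h6⟩

theorem Big_iff (φ : XG A R ≃g XG A' R) (v : Vtx A R) : Big v ↔ Big (φ v) := by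
  refine ⟨Big_iso φ, fun h => ?_⟩
  have := Big_iso φ.symm h
  rwa [RelIso.symm_apply_apply] at this

/-- floor levels are big -/
theorem big_floor (l : Fin (6 * R + 2)) (e : Inc A) (h : (l : ℕ) % 6 = 0) (h' : (l : ℕ) < 6 * R) :
    Big (c l e : Vtx A R) := by
  rcases Nat.eq_zero_or_pos (l : ℕ) with h0 | h0
  · refine ⟨u e.1.1, c ⟨l + 1, by omega⟩ e, c ⟨l + 5, by omega⟩ e, by simp, by simp, ?_, ?_, ?_, ?_⟩
    · intro h1
      have h2 : (l : ℕ) + 1 = l + 5 := congrArg Fin.val (Vtx.c.inj h1).1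
      omega
    · rw [adj_c]; exact Or.inr (Or.inr (Or.inl ⟨rfl, h0⟩))
    · rw [adj_c]; exact Or.inl ⟨_, rfl, Or.inl rfl⟩
    · rw [adj_c]; exact Or.inr (Or.inl ⟨_, e, rfl, Or.inl ⟨h, rfl⟩⟩)
  · refine ⟨c ⟨l - 1, by omega⟩ e, c ⟨l + 1, by omega⟩ e, c ⟨l + 5, by omega⟩ e, ?_, ?_, ?_, ?_, ?_, ?_⟩
    · intro h1
      have h2 : (l : ℕ) - 1 = l + 1 := congrArg Fin.val (Vtx.c.inj h1).1
      omega
    · intro h1
      have h2 : (l : ℕ) - 1 = l + 5 := congrArg Fin.val (Vtx.c.inj h1).1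
      omega
    · intro h1
      have h2 : (l : ℕ) + 1 = l + 5 := congrArg Fin.val (Vtx.c.inj h1).1
      omega
    · rw [adj_c]; exact Or.inl ⟨_, rfl, Or.inr (show (l : ℕ) = l - 1 + 1 by omega)⟩
    · rw [adj_c]; exact Or.inl ⟨_, rfl, Or.inl rfl⟩
    · rw [adj_c]; exact Or.inr (Or.inl ⟨_, e, rfl, Or.inl ⟨h, rfl⟩⟩)

/-- roof levels are big -/
theorem big_roof (l : Fin (6 * R + 2)) (e : Inc A) (h : (l : ℕ) % 6 = 5) :
    Big (c l e : Vtx A R) := by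
  have hl := l.2
  refine ⟨c ⟨l - 1, by omega⟩ e, c ⟨l + 1, by omega⟩ e, c ⟨l - 5, by omega⟩ e, ?_, ?_, ?_, ?_, ?_, ?_⟩
  · intro h1
    have h2 : (l : ℕ) - 1 = l + 1 := congrArg Fin.val (Vtx.c.inj h1).1
    omega
  · intro h1
    have h2 : (l : ℕ) - 1 = l - 5 := congrArg Fin.val (Vtx.c.inj h1).1
    omega
  · intro h1
    have h2 : (l : ℕ) + 1 = l - 5 := congrArg Fin.val (Vtx.c.inj h1).1
    omega
  · rw [adj_c]; exact Or.inl ⟨_, rfl, Or.inr (show (l : ℕ) = l - 1 + 1 by omega)⟩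
  · rw [adj_c]; exact Or.inl ⟨_, rfl, Or.inl rfl⟩
  · rw [adj_c]
    exact Or.inr (Or.inl ⟨_, e, rfl, Or.inr ⟨show ((l : ℕ) - 5) % 6 = 0 by omega,
      show (l : ℕ) = l - 5 + 5 by omega⟩⟩)

/-- three different elements do not fit in a set of two -/
theorem no_three {V : Type} {a b c p q : V} (hab : a ≠ b) (hac : a ≠ c) (hbc : b ≠ c)
    (ha : a = p ∨ a = q) (hb : b = p ∨ b = q) (hc : c = p ∨ c = q) : False := by
  rcases ha with rfl | rfl <;> rcases hb with rfl | rfl <;> rcases hc with rfl | rfl <;>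
    simp_all

/-- a level which is not big has at most two neighbours: last level -/
theorem two_last (l : Fin (6 * R + 2)) (e : Inc A) (hl : (l : ℕ) = 6 * R + 1) (v : Vtx A R)
    (h : (XG A R).Adj (c l e) v) :
    v = c ⟨l - 1, lt_of_le_of_lt (Nat.sub_le _ _) l.2⟩ e ∨ v = w e.1.2 := by
  rw [adj_c] at h
  rcases h with ⟨k, rfl, h⟩ | ⟨k, f, rfl, h⟩ | ⟨rfl, h⟩ | ⟨rfl, h⟩
  · have := k.2
    left; congr 1; apply Fin.ext
    show (k : ℕ) = l - 1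
    omega
  · have := k.2; omega
  · omega
  · right; rfl

theorem two_mid (l : Fin (6 * R + 2)) (e : Inc A) (hl : (l : ℕ) < 6 * R + 1) (hR : 0 < R)
    (h' : ((l : ℕ) % 6 ≠ 0 ∧ (l : ℕ) % 6 ≠ 5) ∨ (l : ℕ) = 6 * R) (v : Vtx A R)
    (h : (XG A R).Adj (c l e) v) :
    v = c ⟨l - 1, lt_of_le_of_lt (Nat.sub_le _ _) l.2⟩ e ∨ v = c ⟨l + 1, by omega⟩ e := by
  rw [adj_c] at h
  rcases h with ⟨k, rfl, h | h⟩ | ⟨k, f, rfl, h⟩ | ⟨rfl, h⟩ | ⟨rfl, h⟩
  · right; congr 1; apply Fin.ext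
    show (k : ℕ) = l + 1
    omega
  · left; congr 1; apply Fin.ext
    show (k : ℕ) = l - 1
    omega
  · have := k.2; omega
  · omega
  · omega

/-- the other levels are not big -/
theorem not_big (l : Fin (6 * R + 2)) (e : Inc A)
    (h : ((l : ℕ) % 6 ≠ 0 ∧ (l : ℕ) % 6 ≠ 5) ∨ (l : ℕ) = 6 * R) (hR : 0 < R) :
    ¬ Big (c l e : Vtx A R) := by
  rintro ⟨a, b, d, h1, h2, h3, h4, h5, h6⟩
  by_cases hl1 : (l : ℕ) = 6 * R + 1
  · exact no_three h1 h2 h3 (two_last l e hl1 _ h4) (two_last l e hl1 _ h5) (two_last l e hl1 _ h6)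
  · have hl2 : (l : ℕ) < 6 * R + 1 := by have := l.2; omega
    exact no_three h1 h2 h3 (two_mid l e hl2 hR h _ h4) (two_mid l e hl2 hR h _ h5)
      (two_mid l e hl2 hR h _ h6)

/-- characterisation of the vertices `u x` -/
def IsU (v : Vtx A R) : Prop :=
  (∀ v', (XG A R).Adj v v' → Big v') ∧ ∃ v', (XG A R).Adj v v'

theorem IsU_iso (φ : XG A R ≃g XG A' R) {v : Vtx A R} (h : IsU v) : IsU (φ v) := by
  constructor
  · intro v' hv'
    have h1 : (XG A R).Adj v (φ.symm v') := by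
      rw [← φ.map_adj_iff, RelIso.apply_symm_apply]; exact hv'
    have := Big_iso φ (h.1 _ h1)
    rwa [RelIso.apply_symm_apply] at this
  · obtain ⟨v', hv'⟩ := h.2
    exact ⟨φ v', φ.map_adj_iff.2 hv'⟩

theorem isU_u (hR : 0 < R) (hU : ∀ x, ∃ y, A x y) (x : U) : IsU (u x : Vtx A R) := by
  constructor
  · intro v' h
    rw [adj_u] at h
    obtain ⟨l, e, rfl, h0, _⟩ := h
    exact big_floor l e (by omega) (by omega)
  · obtain ⟨y, hy⟩ := hU x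
    refine ⟨c ⟨0, by omega⟩ ⟨(x, y), hy⟩, ?_⟩
    rw [adj_u]
    exact ⟨_, _, rfl, rfl, rfl⟩

theorem not_isU_w (hR : 0 < R) (hW : ∀ y, ∃ x, A x y) (y : W) : ¬ IsU (w y : Vtx A R) := by
  rintro ⟨h, -⟩
  obtain ⟨x, hx⟩ := hW y
  have h1 : (XG A R).Adj (w y) (c ⟨6 * R + 1, by omega⟩ ⟨(x, y), hx⟩) := by
    rw [adj_w]; exact ⟨_, _, rfl, rfl, rfl⟩
  refine not_big _ _ ?_ hR (h _ h1)
  left
  constructor <;> simp

theorem not_isU_c (hR : 0 < R) (l : Fin (6 * R + 2)) (e : Inc A) : ¬ IsU (c l e : Vtx A R) := by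
  rintro ⟨h, -⟩
  have hl := l.2
  by_cases h1 : (l : ℕ) % 6 ≤ 2 ∧ (l : ℕ) ≠ 6 * R + 1
  · have h2 : (XG A R).Adj (c l e) (c ⟨l + 1, by omega⟩ e) := by
      rw [adj_c]; exact Or.inl ⟨_, rfl, Or.inl rfl⟩
    refine not_big _ _ ?_ hR (h _ h2)
    left
    constructor <;> simp <;> omega
  · have h2 : (XG A R).Adj (c l e) (c ⟨l - 1, by omega⟩ e) := by
      rw [adj_c]; exact Or.inl ⟨_, rfl, Or.inr (by simp; omega)⟩
    refine not_big _ _ ?_ hR (h _ h2)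
    by_cases h3 : (l : ℕ) = 6 * R + 1
    · right; simp; omega
    · left
      constructor <;> simp <;> omega

theorem eq_u_of_isU (hR : 0 < R) (hW : ∀ y, ∃ x, A x y) {v : Vtx A R} (h : IsU v) :
    ∃ x, v = u x := by
  match v, h with
  | u x, _ => exact ⟨x, rfl⟩
  | w y, h => exact absurd h (not_isU_w hR hW y)
  | c l e, h => exact absurd h (not_isU_c hR l e)

end Pool.Agent.W125.Dim
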