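import Mathlib

/-!
# Comparability graphs of bounded dimension
-/

namespace Pool.Agent.W125.Dim

/-- `X` is the comparability graph of the partial order `P` on its vertex set: two vertices are
adjacent iff they are different and comparable. -/
def IsComparabilityGraph {V : Type*} (P : PartialOrder V) (X : SimpleGraph V) : Prop :=
  ∀ x y : V, X.Adj x y ↔ x ≠ y ∧ (P.le x y ∨ P.le y x)

/-- The order `P` is the intersection of `k` linear orders on its ground set (that is, the
dimension of `P` is at most `k`). -/
def DimLE {V : Type*} (P : PartialOrder V) (k : ℕ) : Prop :=
  ∃ L : Fin k → LinearOrder V, ∀ x y : V, P.le x y ↔ ∀ i, (L i).le x y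

/-- The class `k`-DIM: `X` is the comparability graph of a partial order which is the
intersection of `k` linear orders. -/
def KDim (k : ℕ) {V : Type*} (X : SimpleGraph V) : Prop :=
  ∃ P : PartialOrder V, IsComparabilityGraph P X ∧ DimLE P k

end Pool.Agent.W125.Dim
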