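import Pool.Agent.W125.DimD

/-!
# Every isomorphism `XG A R ≃g XG A' R` comes from an isomorphism of incidence relations
-/

namespace Pool.Agent.W125.Dim

open Vtx

variable {U W U' W' : Type} {A : U → W → Prop} {A' : U' → W' → Prop} {R : ℕ}

/-- the isomorphism of constructions induced by an isomorphism of relations -/
def mapV (α : U → U') (β : W → W') (h : ∀ x y, A x y → A' (α x) (β y)) : Vtx A R → Vtx A' R
  | u x => u (α x)
  | w y => w (β y)
  | c l e => c l ⟨(α e.1.1, β e.1.2), h _ _ e.2⟩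

theorem crel_mono {l k : ℕ} {p q : Prop} (h : p → q) : crel l k p → crel l k q := by
  rintro (⟨h1, h2, h3⟩ | h1)
  · exact Or.inl ⟨h1, h h2, h3⟩
  · exact Or.inr h1

theorem Rel_map (α : U → U') (β : W → W') (h : ∀ x y, A x y → A' (α x) (β y))
    (v v' : Vtx A R) (hv : Rel v v') : Rel (mapV α β h v) (mapV α β h v') := by
  match v, v', hv with
  | c l e, c k f, hv =>
    exact crel_mono (by rintro rfl; rfl) hv
  | c l e, u x, ⟨h0, hx⟩ => exact ⟨h0, by rw [← hx]⟩
  | w y, c l e, ⟨h0, hy⟩ => exact ⟨h0, by rw [← hy]⟩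

/-- the graph isomorphism attached to a pair of bijections preserving the relation -/
def mapIso (α : U ≃ U') (β : W ≃ W') (h : ∀ x y, A x y ↔ A' (α x) (β y)) :
    XG A R ≃g XG A' R where
  toFun := mapV α β (fun x y => (h x y).1)
  invFun := mapV α.symm β.symm (fun x y hxy => by
    rw [h, α.apply_symm_apply, β.apply_symm_apply]; exact hxy)
  left_inv v := by
    match v with
    | u x => simp [mapV]
    | w y => simp [mapV]
    | c l e => simp [mapV]
  right_inv v := by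
    match v with
    | u x => simp [mapV]
    | w y => simp [mapV]
    | c l e => simp [mapV]
  map_rel_iff' := by
    have key : ∀ v v' : Vtx A R,
        Rel (mapV α β (fun x y => (h x y).1) v) (mapV α β (fun x y => (h x y).1) v') ↔ Rel v v' := by
      intro v v'
      refine ⟨fun hv => ?_, Rel_map _ _ _ _ _⟩
      match v, v', hv with
      | c l e, c k f, hv =>
        refine crel_mono ?_ hv
        intro he
        have h1 := congrArg (fun z => z.1.1) he
        have h2 := congrArg (fun z => z.1.2) he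
        exact Subtype.ext (Prod.ext (α.injective h1) (β.injective h2))
      | c l e, u x, ⟨h0, hx⟩ => exact ⟨h0, α.injective hx⟩
      | w y, c l e, ⟨h0, hy⟩ => exact ⟨h0, β.injective hy⟩
    intro v v'
    show (Rel _ _ ∨ Rel _ _) ↔ (Rel _ _ ∨ Rel _ _)
    exact or_congr (key v v') (key v' v)

section
variable (hR : 0 < R) (hU : ∀ x, ∃ y, A x y) (hW : ∀ y, ∃ x, A x y)
  (hU' : ∀ x, ∃ y, A' x y) (hW' : ∀ y, ∃ x, A' x y) (φ : XG A R ≃g XG A' R)
include hR hU hW' 

theorem map_u (x : U) : ∃ x', φ (u x) = u x' :=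
  eq_u_of_isU hR hW' (IsU_iso φ (isU_u hR hU x))

theorem map_zero (e : Inc A) (h : 0 < 6 * R + 2) :
    ∃ e' : Inc A', φ (c ⟨0, h⟩ e) = c ⟨0, h⟩ e' := by
  obtain ⟨x', hx'⟩ := map_u hR hU hW' φ e.1.1
  have h1 : (XG A R).Adj (u e.1.1) (c ⟨0, h⟩ e) := by
    rw [adj_u]; exact ⟨_, _, rfl, rfl, rfl⟩
  rw [← φ.map_adj_iff, hx', adj_u] at h1
  obtain ⟨l, e', h2, h3, h4⟩ := h1
  refine ⟨e', ?_⟩
  rw [h2]
  congr 1
  exact Fin.ext h3

end

/-- all levels are preserved -/
theorem map_levels (hR : 0 < R) (hU : ∀ x, ∃ y, A x y) (hW : ∀ y, ∃ x, A x y)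
    (hW' : ∀ y, ∃ x, A' x y) (φ : XG A R ≃g XG A' R)
    (ψ : Inc A → Inc A') (hψ : ∀ e, φ (c ⟨0, by omega⟩ e) = c ⟨0, by omega⟩ (ψ e))
    (hs : Function.Surjective ψ) :
    ∀ (l : ℕ) (h : l < 6 * R + 2) (e : Inc A), φ (c ⟨l, h⟩ e) = c ⟨l, h⟩ (ψ e) := by
  intro l
  induction l using Nat.strong_induction_on with
  | _ l ih =>
    intro h e
    rcases Nat.eq_zero_or_pos l with h0 | h0
    · subst h0; exact hψ e
    · obtain ⟨m, rfl⟩ : ∃ m, l = m + 1 := ⟨l - 1, by omega⟩
      have hm : m < 6 * R + 2 := by omega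
      have h1 : (XG A R).Adj (c ⟨m, hm⟩ e) (c ⟨m + 1, h⟩ e) := by
        rw [adj_c]; exact Or.inl ⟨_, rfl, Or.inl rfl⟩
      rw [← φ.map_adj_iff, ih m (by omega) hm e, adj_c] at h1
      rcases h1 with ⟨k, h2, h3 | h3⟩ | ⟨k, f, h2, h3 | h3⟩ | ⟨h2, h3⟩ | ⟨h2, h3⟩
      · rw [h2]; congr 1; exact Fin.ext h3
      · exfalso
        simp only at h3
        have h4 := ih k (by omega) k.2 e
        have h5 : φ (c ⟨m + 1, h⟩ e) = φ (c ⟨k, k.2⟩ e) := by rw [h2, h4]
        have h6 := (Vtx.c.inj (φ.injective h5)).1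
        have h7 : m + 1 = (k : ℕ) := congrArg Fin.val h6
        omega
      · exfalso
        simp only at h3
        have hk := k.2
        have h4 : Big (c k f : Vtx A' R) := big_roof k f (by omega)
        rw [← h2, ← Big_iff] at h4
        refine not_big _ _ ?_ hR h4
        left
        constructor <;> simp only <;> omega
      · exfalso
        simp only at h3
        obtain ⟨e', rfl⟩ := hs f
        have h4 := ih k (by omega) k.2 e'
        have h5 : φ (c ⟨m + 1, h⟩ e) = φ (c ⟨k, k.2⟩ e') := by rw [h2, h4]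
        have h6 := (Vtx.c.inj (φ.injective h5)).1
        have h7 : m + 1 = (k : ℕ) := congrArg Fin.val h6
        omega
      · exfalso
        obtain ⟨x', hx'⟩ := map_u hR hU hW' φ e.1.1
        have h8 : (XG A R).Adj (u e.1.1) (c ⟨0, by omega⟩ e) := by
          rw [adj_u]; exact ⟨_, _, rfl, rfl, rfl⟩
        rw [← φ.map_adj_iff, hx', hψ, adj_u] at h8
        obtain ⟨l', e', h9, h10, h11⟩ := h8
        have h12 := (Vtx.c.inj h9).2
        have h13 : φ (u e.1.1) = φ (c ⟨m + 1, h⟩ e) := by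
          rw [hx', h2, h12, h11]
        have h14 := φ.injective h13
        cases h14
      · simp only at h3
        omega

/-- **Structure of isomorphisms.** -/
theorem iso_struct (hR : 0 < R) (hU : ∀ x, ∃ y, A x y) (hW : ∀ y, ∃ x, A x y)
    (hU' : ∀ x, ∃ y, A' x y) (hW' : ∀ y, ∃ x, A' x y) (φ : XG A R ≃g XG A' R) :
    ∃ (α : U ≃ U') (β : W ≃ W') (h : ∀ x y, A x y ↔ A' (α x) (β y)), φ = mapIso α β h := by
  classical
  have hL : 0 < 6 * R + 2 := by omega
  choose ψ hψ using fun e => map_zero hR hU hW' φ e hL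
  choose ψ' hψ' using fun e => map_zero hR hU' hW φ.symm e hL
  have hs : Function.Surjective ψ := by
    intro f
    refine ⟨ψ' f, ?_⟩
    have h1 := congrArg φ (hψ' f)
    rw [RelIso.apply_symm_apply, hψ] at h1
    exact ((Vtx.c.inj h1).2).symm
  have hs' : Function.Surjective ψ' := by
    intro f
    refine ⟨ψ f, ?_⟩
    have h1 := congrArg φ.symm (hψ f)
    rw [RelIso.symm_apply_apply, hψ'] at h1
    exact ((Vtx.c.inj h1).2).symm
  have hl := map_levels hR hU hW hW' φ ψ hψ hs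
  have hl' := map_levels hR hU' hW' hW φ.symm ψ' hψ' hs'
  choose α hα using fun x => map_u hR hU hW' φ x
  choose α' hα' using fun x => map_u hR hU' hW φ.symm x
  -- the vertices `w y`
  have hw : ∀ e : Inc A, φ (w e.1.2) = w (ψ e).1.2 := by
    intro e
    have h1 : (XG A R).Adj (c ⟨6 * R + 1, by omega⟩ e) (w e.1.2) := by
      rw [adj_c]; exact Or.inr (Or.inr (Or.inr ⟨rfl, rfl⟩))
    rw [← φ.map_adj_iff, hl, adj_c] at h1
    rcases h1 with ⟨k, h2, h3 | h3⟩ | ⟨k, f, h2, h3 | h3⟩ | ⟨h2, h3⟩ | ⟨h2, h3⟩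
    · simp only at h3; have := k.2; omega
    · exfalso
      have h4 := hl k k.2 e
      have h5 : φ (w e.1.2) = φ (c ⟨k, k.2⟩ e) := by rw [h2, h4]
      cases φ.injective h5
    · simp only at h3; have := k.2; omega
    · simp only at h3; omega
    · simp only at h3; omega
    · exact h2
  have hw' : ∀ e : Inc A', φ.symm (w e.1.2) = w (ψ' e).1.2 := by
    intro e
    have h1 : (XG A' R).Adj (c ⟨6 * R + 1, by omega⟩ e) (w e.1.2) := by
      rw [adj_c]; exact Or.inr (Or.inr (Or.inr ⟨rfl, rfl⟩))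
    rw [← φ.symm.map_adj_iff, hl', adj_c] at h1
    rcases h1 with ⟨k, h2, h3 | h3⟩ | ⟨k, f, h2, h3 | h3⟩ | ⟨h2, h3⟩ | ⟨h2, h3⟩
    · simp only at h3; have := k.2; omega
    · exfalso
      have h4 := hl' k k.2 e
      have h5 : φ.symm (w e.1.2) = φ.symm (c ⟨k, k.2⟩ e) := by rw [h2, h4]
      cases φ.symm.injective h5
    · simp only at h3; have := k.2; omega
    · simp only at h3; omega
    · simp only at h3; omega
    · exact h2
  have hβ0 : ∀ y : W, ∃ y', φ (w y) = w y' := by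
    intro y
    obtain ⟨x, hx⟩ := hW y
    exact ⟨_, hw ⟨(x, y), hx⟩⟩
  have hβ0' : ∀ y : W', ∃ y', φ.symm (w y) = w y' := by
    intro y
    obtain ⟨x, hx⟩ := hW' y
    exact ⟨_, hw' ⟨(x, y), hx⟩⟩
  choose β hβ using hβ0
  choose β' hβ' using hβ0'
  have e1 : ∀ e : Inc A, (ψ e).1.1 = α e.1.1 := by
    intro e
    have h8 : (XG A R).Adj (u e.1.1) (c ⟨0, by omega⟩ e) := by
      rw [adj_u]; exact ⟨_, _, rfl, rfl, rfl⟩
    rw [← φ.map_adj_iff, hα, hψ, adj_u] at h8
    obtain ⟨l', e', h9, h10, h11⟩ := h8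
    rw [(Vtx.c.inj h9).2, h11]
  have e2 : ∀ e : Inc A, (ψ e).1.2 = β e.1.2 := by
    intro e
    have h1 := hw e
    rw [hβ] at h1
    exact (Vtx.w.inj h1).symm
  have e1' : ∀ e : Inc A', (ψ' e).1.1 = α' e.1.1 := by
    intro e
    have h8 : (XG A' R).Adj (u e.1.1) (c ⟨0, by omega⟩ e) := by
      rw [adj_u]; exact ⟨_, _, rfl, rfl, rfl⟩
    rw [← φ.symm.map_adj_iff, hα', hψ', adj_u] at h8
    obtain ⟨l', e', h9, h10, h11⟩ := h8
    rw [(Vtx.c.inj h9).2, h11]
  have e2' : ∀ e : Inc A', (ψ' e).1.2 = β' e.1.2 := by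
    intro e
    have h1 := hw' e
    rw [hβ'] at h1
    exact (Vtx.w.inj h1).symm
  have a1 : ∀ x, α' (α x) = x := by
    intro x
    have h1 := congrArg φ.symm (hα x)
    rw [RelIso.symm_apply_apply, hα'] at h1
    exact (Vtx.u.inj h1).symm
  have a2 : ∀ x, α (α' x) = x := by
    intro x
    have h1 := congrArg φ (hα' x)
    rw [RelIso.apply_symm_apply, hα] at h1
    exact (Vtx.u.inj h1).symm
  have b1 : ∀ y, β' (β y) = y := by
    intro x
    have h1 := congrArg φ.symm (hβ x)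
    rw [RelIso.symm_apply_apply, hβ'] at h1
    exact (Vtx.w.inj h1).symm
  have b2 : ∀ y, β (β' y) = y := by
    intro x
    have h1 := congrArg φ (hβ' x)
    rw [RelIso.apply_symm_apply, hβ] at h1
    exact (Vtx.w.inj h1).symm
  have hA : ∀ x y, A x y → A' (α x) (β y) := by
    intro x y hxy
    have h1 := (ψ ⟨(x, y), hxy⟩).2
    rwa [e1, e2] at h1
  have hA' : ∀ x y, A' x y → A (α' x) (β' y) := by
    intro x y hxy
    have h1 := (ψ' ⟨(x, y), hxy⟩).2
    rwa [e1', e2'] at h1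
  refine ⟨⟨α, α', a1, a2⟩, ⟨β, β', b1, b2⟩, fun x y => ⟨hA x y, fun h => ?_⟩, ?_⟩
  · have := hA' _ _ h
    simp only [Equiv.coe_fn_mk] at this
    rwa [a1, b1] at this
  · ext v
    match v with
    | u x => rw [hα]; rfl
    | w y => rw [hβ]; rfl
    | c l e =>
      have : φ (c l e) = c l (ψ e) := hl l l.2 e
      rw [this]
      show c l (ψ e) = c l _
      congr 1
      exact Subtype.ext (Prod.ext (e1 e) (e2 e))

end Pool.Agent.W125.Dim
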