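import Pool.Agent.W125.DimE
import Pool.Agent.W125.DimDefs

/-!
# `XG A R` lies in 3-DIM
-/

namespace Pool.Agent.W125.Dim

open Vtx

/-- transport of `KDim` along a graph isomorphism -/
theorem KDim.of_iso {k : ℕ} {V V' : Type*} {X : SimpleGraph V} {X' : SimpleGraph V'}
    (φ : X ≃g X') (h : KDim k X) : KDim k X' := by
  obtain ⟨P, h1, L, h2⟩ := h
  refine ⟨@PartialOrder.lift V' V P φ.symm φ.symm.injective, ?_,
    fun i => @LinearOrder.lift' V' V (L i) φ.symm φ.symm.injective, ?_⟩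
  · intro x y
    rw [← φ.symm.map_adj_iff, h1]
    refine and_congr (not_congr φ.symm.injective.eq_iff) Iff.rfl
  · intro x y
    exact h2 _ _

/-- a triple of integers as an element of the lexicographic product -/
def tl (x : ℤ × ℤ × ℤ) : ℤ ×ₗ (ℤ ×ₗ ℤ) := toLex (x.1, toLex (x.2.1, x.2.2))

theorem tl_lt {x y : ℤ × ℤ × ℤ} (h : lx x y) : tl x < tl y := by
  unfold tl
  rw [Prod.Lex.toLex_lt_toLex]
  rcases h with h | ⟨h1, h | ⟨h2, h3⟩⟩
  · exact Or.inl h
  · exact Or.inr ⟨h1, Prod.Lex.toLex_lt_toLex.2 (Or.inl h)⟩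
  · exact Or.inr ⟨h1, Prod.Lex.toLex_lt_toLex.2 (Or.inr ⟨h2, h3⟩)⟩

/-- three keys whose strict intersection is `Rel` give a poset of dimension at most three -/
theorem kdim_of_keys {V : Type} [Finite V] (X : SimpleGraph V) (Rl : V → V → Prop)
    (hX : ∀ x y, X.Adj x y ↔ Rl x y ∨ Rl y x)
    (K : Fin 3 → V → ℤ × ℤ × ℤ)
    (h1 : ∀ x y, Rl x y → ∀ i, lx (K i x) (K i y))
    (h2 : ∀ x y, x ≠ y → ¬ Rl x y → ∃ i, lx (K i y) (K i x)) : KDim 3 X := by
  classical
  obtain ⟨n, ⟨f⟩⟩ := Finite.exists_equiv_fin V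
  let key : Fin 3 → V → (ℤ ×ₗ (ℤ ×ₗ ℤ)) ×ₗ Fin n := fun i x => toLex (tl (K i x), f x)
  have hinj : ∀ i, Function.Injective (key i) := by
    intro i x y hxy
    have h := congrArg (fun z => (ofLex z).2) hxy
    exact f.injective h
  have hle : ∀ x y, (∀ i, key i x ≤ key i y) ↔ (x = y ∨ Rl x y) := by
    intro x y
    constructor
    · intro h
      by_contra hc
      rw [not_or] at hc
      obtain ⟨i, hi⟩ := h2 x y hc.1 hc.2
      have h3 : key i y < key i x := Prod.Lex.toLex_lt_toLex.2 (Or.inl (tl_lt hi))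
      exact absurd (h i) (not_le.2 h3)
    · rintro (rfl | h) i
      · exact le_refl _
      · exact (Prod.Lex.toLex_lt_toLex.2 (Or.inl (tl_lt (h1 x y h i)))).le
  refine ⟨@PartialOrder.lift V (Fin 3 → (ℤ ×ₗ (ℤ ×ₗ ℤ)) ×ₗ Fin n) _ (fun x i => key i x) ?_, ?_,
    fun i => LinearOrder.lift' (key i) (hinj i), ?_⟩
  · intro x y h
    exact hinj 0 (congrFun h 0)
  · intro x y
    have e1 : (@PartialOrder.lift V (Fin 3 → (ℤ ×ₗ (ℤ ×ₗ ℤ)) ×ₗ Fin n) _ (fun x i => key i x)
        (fun x y h => hinj 0 (congrFun h 0))).le x y ↔ (x = y ∨ Rl x y) := hle x y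
    have e2 : (@PartialOrder.lift V (Fin 3 → (ℤ ×ₗ (ℤ ×ₗ ℤ)) ×ₗ Fin n) _ (fun x i => key i x)
        (fun x y h => hinj 0 (congrFun h 0))).le y x ↔ (y = x ∨ Rl y x) := hle y x
    rw [hX]
    constructor
    · intro h
      have hne : x ≠ y := X.ne_of_adj ((hX x y).2 h)
      refine ⟨hne, ?_⟩
      rcases h with h | h
      · exact Or.inl (e1.2 (Or.inr h))
      · exact Or.inr (e2.2 (Or.inr h))
    · rintro ⟨hne, h | h⟩
      · exact Or.inl ((e1.1 h).resolve_left hne)
      · exact Or.inr ((e2.1 h).resolve_left hne.symm)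
  · intro x y
    exact Iff.rfl

variable {U W : Type} {A : U → W → Prop} {R : ℕ}

instance Vtx.finite [Finite U] [Finite W] : Finite (Vtx A R) := by
  let f : Vtx A R → U ⊕ W ⊕ (Fin (6 * R + 2) × Inc A) := fun v =>
    match v with
    | u x => Sum.inl x
    | w y => Sum.inr (Sum.inl y)
    | c l e => Sum.inr (Sum.inr (l, e))
  refine Finite.of_injective f ?_
  intro a b h
  match a, b with
  | u x, u y => exact congrArg _ (Sum.inl.inj h)
  | w x, w y => exact congrArg _ (Sum.inl.inj (Sum.inr.inj h))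
  | c l e, c k g =>
    have h1 := Sum.inr.inj (Sum.inr.inj h)
    have h2 := congrArg Prod.fst h1
    have h3 := congrArg Prod.snd h1
    simp only at h2 h3
    rw [h2, h3]
  | u x, w y => cases h
  | u x, c l e => exact absurd h (by simp [f])
  | w x, u y => cases h
  | w x, c l e => exact absurd h (by simp [f])
  | c l e, u x => exact absurd h (by simp [f])
  | c l e, w x => exact absurd h (by simp [f])

theorem XG_kdim [Finite U] [Finite W] (N : Num U W R) : KDim 3 (XG A R) := by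
  refine kdim_of_keys (XG A R) Rel (fun _ _ => Iff.rfl) ![K1 N, K2 N, K3 N] ?_ ?_
  · intro x y h i
    obtain ⟨h1, h2, h3⟩ := key_rel N x y h
    fin_cases i
    · exact h1
    · exact h2
    · exact h3
  · intro x y hne h
    rcases key_nrel N x y hne h with h1 | h1 | h1
    · exact ⟨0, h1⟩
    · exact ⟨1, h1⟩
    · exact ⟨2, h1⟩

/-- numbering data exist as soon as `R` is large -/
theorem exists_num [Finite U] [Finite W] (hR : Nat.card W * (Nat.card U + 1) ≤ R) :
    Nonempty (Num U W R) := by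
  classical
  let fu := Finite.equivFin U
  let fw := Finite.equivFin W
  refine ⟨⟨fun x => fu x, fun y => fw y, Nat.card U + 1, Nat.card W + 1,
    fun x y h => fu.injective (Fin.ext h), fun x y h => fw.injective (Fin.ext h),
    fun x => Nat.lt_succ_of_lt (fu x).2, fun y => Nat.lt_succ_of_lt (fw y).2, ?_,
    Nat.succ_pos _, Nat.succ_pos _⟩⟩
  intro x y
  have h1 := (fu x).2
  have h2 := (fw y).2
  refine lt_of_lt_of_le ?_ hR
  calc (fw y : ℕ) * (Nat.card U + 1) + (fu x : ℕ)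
      < (fw y : ℕ) * (Nat.card U + 1) + (Nat.card U + 1) := by omega
    _ = ((fw y : ℕ) + 1) * (Nat.card U + 1) := by ring
    _ ≤ Nat.card W * (Nat.card U + 1) := Nat.mul_le_mul_right _ h2

end Pool.Agent.W125.Dim
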