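import Pool.Agent.W125.DimF

/-!
# An incidence relation with a prescribed automorphism group
-/

namespace Pool.Agent.W125.Dim


set_option linter.unusedSectionVars false

variable (G : Type) [Group G] [Finite G]

/-- number of the colour `c` -/
noncomputable def en (c : G) : ℕ := (Finite.equivFin G c : ℕ)

/-- class of a vertex on the right: first copies have class `0`, second copies class `1`,
and the colour `c` has class `2 + en c` -/
noncomputable def cls : G ⊕ (G ⊕ G) → ℕ
  | Sum.inl _ => 0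
  | Sum.inr (Sum.inl _) => 1
  | Sum.inr (Sum.inr c) => 2 + en G c

/-- the incidence relation: pairs `(g, h)` are incident with the first copy of `g`, the second
copy of `h` and the colour `g⁻¹ h`; the dummy `i` is incident with the vertices of class `> i` -/
def GA : (G × G) ⊕ Fin (Nat.card G + 1) → G ⊕ (G ⊕ G) → Prop
  | Sum.inl p, Sum.inl g => g = p.1
  | Sum.inl p, Sum.inr (Sum.inl h) => h = p.2
  | Sum.inl p, Sum.inr (Sum.inr c) => c = p.1⁻¹ * p.2
  | Sum.inr i, y => (i : ℕ) < cls G y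

omit [Group G] in
theorem en_lt (c : G) : en G c < Nat.card G := (Finite.equivFin G c).2

omit [Group G] in
theorem en_inj {c d : G} (h : en G c = en G d) : c = d :=
  (Finite.equivFin G).injective (Fin.ext h)

omit [Group G] in
theorem en_surj {k : ℕ} (h : k < Nat.card G) : ∃ c, en G c = k :=
  ⟨(Finite.equivFin G).symm ⟨k, h⟩, by simp [en]⟩

theorem cls_le (y : G ⊕ (G ⊕ G)) : cls G y ≤ Nat.card G + 1 := by
  match y with
  | Sum.inl _ => exact Nat.zero_le _
  | Sum.inr (Sum.inl _) => exact Nat.succ_le_succ (Nat.zero_le _)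
  | Sum.inr (Sum.inr c) => have := en_lt G c; simp only [cls]; omega

/-- every class between `1` and `n + 1` occurs -/
theorem cls_surj {k : ℕ} (h0 : 0 < k) (h : k ≤ Nat.card G + 1) : ∃ y, cls G y = k := by
  rcases Nat.lt_or_ge k 2 with h1 | h1
  · exact ⟨Sum.inr (Sum.inl 1), by simp only [cls]; omega⟩
  · obtain ⟨c, hc⟩ := en_surj G (k := k - 2) (by omega)
    exact ⟨Sum.inr (Sum.inr c), by simp only [cls]; omega⟩

theorem GA_left (x : (G × G) ⊕ Fin (Nat.card G + 1)) : ∃ y, GA G x y := by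
  match x with
  | Sum.inl p => exact ⟨Sum.inl p.1, rfl⟩
  | Sum.inr i =>
    obtain ⟨y, hy⟩ := cls_surj G (k := i + 1) (Nat.succ_pos _) i.2
    exact ⟨y, by show (i : ℕ) < cls G y; omega⟩

theorem GA_right (y : G ⊕ (G ⊕ G)) : ∃ x, GA G x y := by
  match y with
  | Sum.inl g => exact ⟨Sum.inl (g, 1), rfl⟩
  | Sum.inr (Sum.inl h) => exact ⟨Sum.inl (1, h), rfl⟩
  | Sum.inr (Sum.inr c) => exact ⟨Sum.inl (1, c), by show c = 1⁻¹ * c; simp⟩

/-- the degree of a vertex on the right is `n + cls` -/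
theorem card_GA (y : G ⊕ (G ⊕ G)) : Nat.card {x // GA G x y} = Nat.card G + cls G y := by
  classical
  have e : {x // GA G x y} ≃ {p : G × G // GA G (Sum.inl p) y} ⊕
      {i : Fin (Nat.card G + 1) // GA G (Sum.inr i) y} :=
    { toFun := fun x => match x with
        | ⟨Sum.inl p, h⟩ => Sum.inl ⟨p, h⟩
        | ⟨Sum.inr i, h⟩ => Sum.inr ⟨i, h⟩
      invFun := fun x => match x with
        | Sum.inl ⟨p, h⟩ => ⟨Sum.inl p, h⟩
        | Sum.inr ⟨i, h⟩ => ⟨Sum.inr i, h⟩
      left_inv := fun x => by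
        match x with
        | ⟨Sum.inl p, h⟩ => rfl
        | ⟨Sum.inr i, h⟩ => rfl
      right_inv := fun x => by
        match x with
        | Sum.inl ⟨p, h⟩ => rfl
        | Sum.inr ⟨i, h⟩ => rfl }
  rw [Nat.card_congr e, Nat.card_sum]
  congr 1
  · -- pairs
    match y with
    | Sum.inl g =>
      refine Nat.card_congr ⟨fun x => x.1.2, fun h => ⟨(g, h), rfl⟩, ?_, fun _ => rfl⟩
      rintro ⟨⟨a, b⟩, h⟩
      have h' : g = a := h
      subst h'
      rfl
    | Sum.inr (Sum.inl g) =>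
      refine Nat.card_congr ⟨fun x => x.1.1, fun h => ⟨(h, g), rfl⟩, ?_, fun _ => rfl⟩
      rintro ⟨⟨a, b⟩, h⟩
      have h' : g = b := h
      subst h'
      rfl
    | Sum.inr (Sum.inr c) =>
      refine Nat.card_congr ⟨fun x => x.1.1, fun h => ⟨(h, h * c), by
        show c = h⁻¹ * (h * c); simp⟩, ?_, fun _ => rfl⟩
      rintro ⟨⟨a, b⟩, h⟩
      have h' : c = a⁻¹ * b := h
      subst h'
      simp
  · -- dummies
    have hle := cls_le G y
    have e2 : {i : Fin (Nat.card G + 1) // GA G (Sum.inr i) y} ≃ Fin (cls G y) :=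
      { toFun := fun i => ⟨i.1, i.2⟩
        invFun := fun i => ⟨⟨i.1, lt_of_lt_of_le i.2 hle⟩, i.2⟩
        left_inv := fun i => rfl
        right_inv := fun i => rfl }
    rw [Nat.card_congr e2, Nat.card_fin]

variable {G}

/-- isomorphisms preserve classes -/
theorem cls_pres (α : (G × G) ⊕ Fin (Nat.card G + 1) ≃ (G × G) ⊕ Fin (Nat.card G + 1))
    (β : G ⊕ (G ⊕ G) ≃ G ⊕ (G ⊕ G)) (h : ∀ x y, GA G x y ↔ GA G (α x) (β y))
    (y : G ⊕ (G ⊕ G)) : cls G (β y) = cls G y := by
  have h1 := card_GA G y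
  have h2 := card_GA G (β y)
  have e : {x // GA G x y} ≃ {x // GA G x (β y)} := Equiv.subtypeEquiv α (fun x => h x y)
  have := Nat.card_congr e
  omega

/-- left translation on the left side -/
def tlL (γ : G) : (G × G) ⊕ Fin (Nat.card G + 1) → (G × G) ⊕ Fin (Nat.card G + 1)
  | Sum.inl p => Sum.inl (γ * p.1, γ * p.2)
  | Sum.inr i => Sum.inr i

def tlR (γ : G) : G ⊕ (G ⊕ G) → G ⊕ (G ⊕ G)
  | Sum.inl g => Sum.inl (γ * g)
  | Sum.inr (Sum.inl h) => Sum.inr (Sum.inl (γ * h))
  | Sum.inr (Sum.inr c) => Sum.inr (Sum.inr c)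

/-- every automorphism of the relation is a left translation -/
theorem GA_rigid (α : (G × G) ⊕ Fin (Nat.card G + 1) ≃ (G × G) ⊕ Fin (Nat.card G + 1))
    (β : G ⊕ (G ⊕ G) ≃ G ⊕ (G ⊕ G)) (h : ∀ x y, GA G x y ↔ GA G (α x) (β y)) :
    ∃ γ : G, (∀ x, α x = tlL γ x) ∧ (∀ y, β y = tlR γ y) := by
  have hc := cls_pres α β h
  -- the three classes
  have hb1 : ∀ g : G, ∃ g' : G, β (Sum.inl g) = Sum.inl g' := by
    intro g
    have h1 := hc (Sum.inl g)
    match hy : β (Sum.inl g) with
    | Sum.inl g' => exact ⟨g', rfl⟩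
    | Sum.inr (Sum.inl g') => rw [hy] at h1; simp [cls] at h1
    | Sum.inr (Sum.inr g') => rw [hy] at h1; simp [cls] at h1
  have hb2 : ∀ g : G, ∃ g' : G, β (Sum.inr (Sum.inl g)) = Sum.inr (Sum.inl g') := by
    intro g
    have h1 := hc (Sum.inr (Sum.inl g))
    match hy : β (Sum.inr (Sum.inl g)) with
    | Sum.inl g' => rw [hy] at h1; simp [cls] at h1
    | Sum.inr (Sum.inl g') => exact ⟨g', rfl⟩
    | Sum.inr (Sum.inr g') => rw [hy] at h1; simp [cls] at h1; omega
  have hb3 : ∀ c : G, β (Sum.inr (Sum.inr c)) = Sum.inr (Sum.inr c) := by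
    intro g
    have h1 := hc (Sum.inr (Sum.inr g))
    match hy : β (Sum.inr (Sum.inr g)) with
    | Sum.inl g' => rw [hy] at h1; simp only [cls] at h1; omega
    | Sum.inr (Sum.inl g') => rw [hy] at h1; simp [cls] at h1; omega
    | Sum.inr (Sum.inr g') =>
      rw [hy] at h1
      simp only [cls] at h1
      rw [en_inj G (show en G g' = en G g by omega)]
  choose b1 hb1 using hb1
  choose b2 hb2 using hb2
  -- pairs
  have ha : ∀ g k : G, α (Sum.inl (g, k)) = Sum.inl (b1 g, b2 k) ∧ (b1 g)⁻¹ * b2 k = g⁻¹ * k := by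
    intro g k
    have h1 : GA G (α (Sum.inl (g, k))) (β (Sum.inl g)) := (h _ _).1 rfl
    have h2 : GA G (α (Sum.inl (g, k))) (β (Sum.inr (Sum.inl k))) := (h _ _).1 rfl
    have h3 : GA G (α (Sum.inl (g, k))) (β (Sum.inr (Sum.inr (g⁻¹ * k)))) := (h _ _).1 rfl
    rw [hb1] at h1
    rw [hb2] at h2
    rw [hb3] at h3
    match hp : α (Sum.inl (g, k)) with
    | Sum.inl (a, b) =>
      rw [hp] at h1 h2 h3
      have h1' : b1 g = a := h1
      have h2' : b2 k = b := h2
      have h3' : g⁻¹ * k = a⁻¹ * b := h3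
      rw [h1', h2', h3']
      exact ⟨rfl, rfl⟩
    | Sum.inr i =>
      rw [hp] at h1
      exact absurd h1 (Nat.not_lt_zero _)
  have hk : ∀ k, b2 k = b1 1 * k := by
    intro k
    have := (ha 1 k).2
    rw [inv_mul_eq_iff_eq_mul] at this
    rw [this]; simp
  have hg : ∀ g, b1 g = b1 1 * g := by
    intro g
    have h1 := (ha g g).2
    rw [hk, inv_mul_cancel, inv_mul_eq_one] at h1
    exact h1
  refine ⟨b1 1, ?_, ?_⟩
  · intro x
    match x with
    | Sum.inl (g, k) =>
      rw [(ha g k).1, hk, hg g]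
      rfl
    | Sum.inr i =>
      -- dummies are not mapped to pairs
      match hi : α (Sum.inr i) with
      | Sum.inl (a, b) =>
        exfalso
        have h1 : α (Sum.inl ((b1 1)⁻¹ * a, (b1 1)⁻¹ * b)) = Sum.inl (a, b) := by
          rw [(ha _ _).1, hk, hg ((b1 1)⁻¹ * a)]
          simp
        rw [← hi] at h1
        have := α.injective h1
        cases this
      | Sum.inr j =>
        have h1 : ∀ y, (i : ℕ) < cls G y ↔ (j : ℕ) < cls G y := by
          intro y
          have h2 := h (Sum.inr i) y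
          rw [hi] at h2
          have h3 : ((i : ℕ) < cls G y) ↔ ((j : ℕ) < cls G (β y)) := h2
          rwa [hc] at h3
        have hij : i = j := by
          apply Fin.ext
          rcases lt_trichotomy (i : ℕ) (j : ℕ) with h2 | h2 | h2
          · obtain ⟨y, hy⟩ := cls_surj G (k := i + 1) (Nat.succ_pos _) i.2
            have := (h1 y).1 (by omega)
            omega
          · exact h2
          · obtain ⟨y, hy⟩ := cls_surj G (k := j + 1) (Nat.succ_pos _) j.2
            have := (h1 y).2 (by omega)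
            omega
        rw [hij]
        rfl
  · intro y
    match y with
    | Sum.inl g => rw [hb1, hg]; rfl
    | Sum.inr (Sum.inl k) => rw [hb2, hk]; rfl
    | Sum.inr (Sum.inr c) => rw [hb3]; rfl

end Pool.Agent.W125.Dim
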