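import Pool.Agent.W125.DimG

/-!
# The class 3-DIM is universal
-/

namespace Pool.Agent.W125.Dim

set_option linter.unusedSectionVars false

variable {G : Type} [Group G] [Finite G]

theorem tlL_mul (γ δ : G) (x : (G × G) ⊕ Fin (Nat.card G + 1)) :
    tlL (γ * δ) x = tlL γ (tlL δ x) := by
  match x with
  | Sum.inl p => simp [tlL, mul_assoc]
  | Sum.inr i => rfl

theorem tlR_mul (γ δ : G) (x : G ⊕ (G ⊕ G)) : tlR (γ * δ) x = tlR γ (tlR δ x) := by
  match x with
  | Sum.inl p => simp [tlR, mul_assoc]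
  | Sum.inr (Sum.inl i) => simp [tlR, mul_assoc]
  | Sum.inr (Sum.inr i) => rfl

theorem tlL_one (x : (G × G) ⊕ Fin (Nat.card G + 1)) : tlL (1 : G) x = x := by
  match x with
  | Sum.inl p => simp [tlL]
  | Sum.inr i => rfl

theorem tlR_one (x : G ⊕ (G ⊕ G)) : tlR (1 : G) x = x := by
  match x with
  | Sum.inl p => simp [tlR]
  | Sum.inr (Sum.inl i) => simp [tlR]
  | Sum.inr (Sum.inr i) => rfl

/-- left translations as permutations -/
def eL (γ : G) : (G × G) ⊕ Fin (Nat.card G + 1) ≃ (G × G) ⊕ Fin (Nat.card G + 1) where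
  toFun := tlL γ
  invFun := tlL γ⁻¹
  left_inv x := by rw [← tlL_mul, inv_mul_cancel, tlL_one]
  right_inv x := by rw [← tlL_mul, mul_inv_cancel, tlL_one]

def eR (γ : G) : G ⊕ (G ⊕ G) ≃ G ⊕ (G ⊕ G) where
  toFun := tlR γ
  invFun := tlR γ⁻¹
  left_inv x := by rw [← tlR_mul, inv_mul_cancel, tlR_one]
  right_inv x := by rw [← tlR_mul, mul_inv_cancel, tlR_one]

theorem GA_tl (γ : G) (x : (G × G) ⊕ Fin (Nat.card G + 1)) (y : G ⊕ (G ⊕ G)) :
    GA G x y ↔ GA G (eL γ x) (eR γ y) := by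
  match x, y with
  | Sum.inl p, Sum.inl g =>
    show g = p.1 ↔ γ * g = γ * p.1
    rw [mul_right_inj]
  | Sum.inl p, Sum.inr (Sum.inl h) =>
    show h = p.2 ↔ γ * h = γ * p.2
    rw [mul_right_inj]
  | Sum.inl p, Sum.inr (Sum.inr c) =>
    show c = p.1⁻¹ * p.2 ↔ c = (γ * p.1)⁻¹ * (γ * p.2)
    rw [mul_inv_rev, mul_assoc, inv_mul_cancel_left]
  | Sum.inr i, Sum.inl g => exact Iff.rfl
  | Sum.inr i, Sum.inr (Sum.inl g) => exact Iff.rfl
  | Sum.inr i, Sum.inr (Sum.inr g) => exact Iff.rfl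

/-- the action of `G` on the construction -/
def act (R : ℕ) (γ : G) : XG (GA G) R ≃g XG (GA G) R := mapIso (eL γ) (eR γ) (GA_tl γ)

theorem act_bijective (R : ℕ) (hR : 0 < R) :
    Function.Bijective (act R : G → (XG (GA G) R ≃g XG (GA G) R)) := by
  constructor
  · intro γ δ h
    have h1 : act R γ (Vtx.w (Sum.inl 1)) = act R δ (Vtx.w (Sum.inl 1)) := by rw [h]
    have h2 : (Sum.inl (γ * 1) : G ⊕ (G ⊕ G)) = Sum.inl (δ * 1) := Vtx.w.inj h1
    have h3 := Sum.inl.inj h2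
    rwa [mul_one, mul_one] at h3
  · intro φ
    obtain ⟨α, β, h, rfl⟩ := iso_struct hR (GA_left G) (GA_right G) (GA_left G) (GA_right G) φ
    obtain ⟨γ, h1, h2⟩ := GA_rigid α β h
    refine ⟨γ, ?_⟩
    have e1 : α = eL γ := Equiv.ext h1
    have e2 : β = eR γ := Equiv.ext h2
    subst e1; subst e2
    rfl

theorem act_mul (R : ℕ) (γ δ : G) : act R (γ * δ) = act R γ * act R δ := by
  ext v
  match v with
  | Vtx.u x => exact congrArg Vtx.u (tlL_mul γ δ x)
  | Vtx.w y => exact congrArg Vtx.w (tlR_mul γ δ y)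
  | Vtx.c l e =>
    show Vtx.c l _ = Vtx.c l _
    congr 1
    exact Subtype.ext (Prod.ext (tlL_mul γ δ e.1.1) (tlR_mul γ δ e.1.2))

/-- the automorphism group of the construction is `G` -/
theorem exists_small (G : Type) [Group G] [Finite G] :
    ∃ (V : Type) (_ : Finite V) (X : SimpleGraph V), KDim 3 X ∧ Nonempty ((X ≃g X) ≃* G) := by
  let R := Nat.card (G ⊕ (G ⊕ G)) * (Nat.card ((G × G) ⊕ Fin (Nat.card G + 1)) + 1) + 1
  obtain ⟨N⟩ := exists_num (U := (G × G) ⊕ Fin (Nat.card G + 1)) (W := G ⊕ (G ⊕ G)) (R := R)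
    (Nat.le_succ _)
  refine ⟨Vtx (GA G) R, inferInstance, XG (GA G) R, XG_kdim N, ⟨?_⟩⟩
  exact (MulEquiv.ofBijective (⟨⟨act R, by
    have h := act_mul R (1 : G) 1
    rw [mul_one] at h
    exact (mul_eq_left (a := act R (1 : G))).1 h.symm⟩, act_mul R⟩ : G →* _)
    (act_bijective R (Nat.succ_pos _))).symm

/-- conjugation of automorphism groups -/
def autCongr {V V' : Type*} {X : SimpleGraph V} {X' : SimpleGraph V'} (e : X ≃g X') :
    (X ≃g X) ≃* (X' ≃g X') where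
  toFun φ := (e.symm.trans φ).trans e
  invFun φ := (e.trans φ).trans e.symm
  left_inv φ := by ext x; simp
  right_inv φ := by ext x; simp
  map_mul' φ ψ := by ext x; simp

/-- a copy of `Fin n` without algebraic structure -/
def Copy (n : ℕ) : Type := Fin n

/-- **Universality of 3-DIM.** -/
theorem universal (G : Type*) [Group G] [Finite G] :
    ∃ (n : ℕ) (X : SimpleGraph (Fin n)), KDim 3 X ∧ Nonempty ((X ≃g X) ≃* G) := by
  classical
  let e : Copy (Nat.card G) ≃ G := (Finite.equivFin G).symm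
  let _ : Group (Copy (Nat.card G)) := e.group
  have : Finite (Copy (Nat.card G)) := inferInstanceAs (Finite (Fin (Nat.card G)))
  obtain ⟨V, hV, X, h1, ⟨h2⟩⟩ := exists_small (Copy (Nat.card G))
  obtain ⟨n, ⟨f⟩⟩ := Finite.exists_equiv_fin V
  have i : X.comap f.symm ≃g X := SimpleGraph.Iso.comap f.symm X
  exact ⟨n, X.comap f.symm, h1.of_iso i.symm, ⟨(autCongr i.symm).symm.trans (h2.trans e.mulEquiv)⟩⟩

end Pool.Agent.W125.Dim
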