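import Pool.Agent.W894.HT.MDefs

/-!
# HM-EVG: evaluation of the sums over all orders with blocks
-/

set_option autoImplicit false

namespace Pool.Agent.W125.HMEvg

open Pool.Agent.W894.HT

variable {A : Type} [CommRing A]

/-! ### words -/

theorem ch_map (φ ψ : ℕ → ℕ → A) (f : ℕ → ℕ) (hf : ∀ i j, f i < f j ↔ i < j) :
    ∀ l : List ℕ, l.Nodup → (∀ i ∈ l, ∀ j ∈ l, i ≠ j → φ (f i) (f j) = ψ i j) →
      ch φ (l.map f) = ch ψ l := by
  intro l
  induction l with
  | nil => intro _ _; rfl
  | cons a l ih =>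
    intro hn h
    cases l with
    | nil => rfl
    | cons b l =>
      have hn' := hn
      rw [List.nodup_cons] at hn
      have hab : a ≠ b := fun hab => hn.1 (hab ▸ List.mem_cons_self)
      have e1 := ih hn.2 (fun i hi j hj hij =>
        h i (List.mem_cons_of_mem _ hi) j (List.mem_cons_of_mem _ hj) hij)
      have e2 := h a List.mem_cons_self b (List.mem_cons_of_mem _ List.mem_cons_self) hab
      show ((if f a < f b then 1 else 0) + φ (f a) (f b)) * ch φ ((b :: l).map f) =
        ((if a < b then 1 else 0) + ψ a b) * ch ψ (b :: l)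
      rw [e1, e2]
      simp only [hf]

theorem AS_map (φ ψ : ℕ → ℕ → A) (f : ℕ → ℕ) (hf : ∀ i j, f i < f j ↔ i < j) (W : List ℕ)
    (hn : W.Nodup) (h : ∀ i ∈ W, ∀ j ∈ W, i ≠ j → φ (f i) (f j) = ψ i j) :
    AS φ (W.map f) = AS ψ W := by
  unfold AS
  rw [← List.map_permutations', List.map_map]
  congr 1
  refine List.map_congr_left fun l hl => ?_
  have hp := List.mem_permutations'.1 hl
  exact ch_map φ ψ f hf l (hp.nodup_iff.2 hn)
    (fun i hi j hj => h i (hp.mem_iff.1 hi) j (hp.mem_iff.1 hj))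

theorem AS_perm (φ : ℕ → ℕ → A) {W W' : List ℕ} (h : W.Perm W') : AS φ W = AS φ W' := by
  unfold AS
  exact ((h.permutations').map _).sum_eq

theorem NN_map (φ ψ : ℕ → ℕ → A) (f : ℕ → ℕ) (hf : ∀ i j, f i < f j ↔ i < j) (v : ℕ) (Y : List ℕ)
    (hn : (v :: Y).Nodup)
    (h : ∀ i ∈ v :: Y, ∀ j ∈ v :: Y, i ≠ j → φ (f i) (f j) = ψ i j) :
    NN φ (f v) (Y.map f) = NN ψ v Y := by
  have hinj : Function.Injective f := by
    intro i j hij
    by_contra hne
    rcases lt_or_gt_of_ne hne with h1 | h1
    · have := (hf i j).2 h1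
      omega
    · have := (hf j i).2 h1
      omega
  have hvY := (List.nodup_cons.1 hn)
  unfold NN
  rw [List.sublists'_map, List.map_map]
  congr 1
  refine List.map_congr_left fun S hS => ?_
  have hSY := List.mem_sublists'.1 hS
  simp only [Function.comp_apply]
  congr 1
  · rw [← List.map_permutations', List.map_map]
    congr 1
    refine List.map_congr_left fun l hl => ?_
    have hp := List.mem_permutations'.1 hl
    have hlY : ∀ i ∈ l, i ∈ Y := fun i hi => hSY.subset (hp.mem_iff.1 hi)
    have e1 : l.map f ++ [f v] = (l ++ [v]).map f := by simp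
    simp only [Function.comp_apply]
    rw [e1]
    apply ch_map φ ψ f hf
    · rw [List.nodup_append]
      refine ⟨hp.nodup_iff.2 (hSY.nodup hvY.2), List.nodup_singleton v, ?_⟩
      intro a ha b hb hab
      rw [List.mem_singleton] at hb
      rw [hb] at hab
      exact hvY.1 (hab ▸ hlY a ha)
    · intro i hi j hj hij
      apply h i _ j _ hij
      · rcases List.mem_append.1 hi with h1 | h1
        · exact List.mem_cons_of_mem _ (hlY i h1)
        · rw [List.mem_singleton] at h1
          rw [h1]; exact List.mem_cons_self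
      · rcases List.mem_append.1 hj with h1 | h1
        · exact List.mem_cons_of_mem _ (hlY j h1)
        · rw [List.mem_singleton] at h1
          rw [h1]; exact List.mem_cons_self
  · have e1 : (Y.map f).filter (fun y => decide (y ∉ S.map f)) =
        (Y.filter fun y => decide (y ∉ S)).map f := by
      rw [List.filter_map]
      congr 1
      apply List.filter_congr
      intro y _
      simp only [Function.comp_apply, decide_eq_decide]
      rw [List.mem_map_of_injective hinj]
    rw [e1]
    apply AS_map φ ψ f hf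
    · exact hvY.2.filter _
    · intro i hi j hj hij
      exact h i (List.mem_cons_of_mem _ (List.mem_of_mem_filter hi)) j
        (List.mem_cons_of_mem _ (List.mem_of_mem_filter hj)) hij

/-! ### dual numbers -/

theorem ch_inl (ψ : ℕ → ℕ → A) : ∀ l : List ℕ,
    ch (A := DualNumber A) (fun i j => TrivSqZeroExt.inl (ψ i j)) l =
      TrivSqZeroExt.inl (ch ψ l) := by
  intro l
  induction l with
  | nil => rfl
  | cons a l ih =>
    cases l with
    | nil => rfl
    | cons b l =>
      show ((if a < b then 1 else 0) + TrivSqZeroExt.inl (ψ a b)) *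
        ch (A := DualNumber A) (fun i j => TrivSqZeroExt.inl (ψ i j)) (b :: l) =
        TrivSqZeroExt.inl (((if a < b then 1 else 0) + ψ a b) * ch ψ (b :: l))
      rw [ih, TrivSqZeroExt.inl_mul, TrivSqZeroExt.inl_add]
      congr 2
      split_ifs
      · rfl
      · rfl

theorem sum_inl {α : Type} (L : List α) (f : α → A) :
    (L.map fun l => (TrivSqZeroExt.inl (f l) : DualNumber A)).sum =
      TrivSqZeroExt.inl ((L.map f).sum) := by
  induction L with
  | nil => rfl
  | cons a L ih =>
    rw [List.map_cons, List.sum_cons, List.map_cons, List.sum_cons, ih, TrivSqZeroExt.inl_add]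

theorem AS_inl (ψ : ℕ → ℕ → A) (W : List ℕ) :
    AS (A := DualNumber A) (fun i j => TrivSqZeroExt.inl (ψ i j)) W =
      TrivSqZeroExt.inl (AS ψ W) := by
  unfold AS
  rw [← sum_inl]
  congr 1
  exact List.map_congr_left fun l _ => ch_inl ψ l

theorem NN_inl (ψ : ℕ → ℕ → A) (v : ℕ) (Y : List ℕ) :
    NN (A := DualNumber A) (fun i j => TrivSqZeroExt.inl (ψ i j)) v Y =
      TrivSqZeroExt.inl (NN ψ v Y) := by
  unfold NN
  rw [← sum_inl]
  congr 1
  refine List.map_congr_left fun S _ => ?_
  rw [AS_inl, TrivSqZeroExt.inl_mul, ← sum_inl]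
  congr 2
  exact List.map_congr_left fun l _ => ch_inl ψ _

theorem Gm_inl (s m : ℕ) (ρ : ℕ → ℕ) :
    (TrivSqZeroExt.inl (Gm s m ρ : A) : DualNumber A) = Gm s m ρ := by
  induction m with
  | zero =>
    unfold Gm
    exact TrivSqZeroExt.inl_natCast _
  | succ m ih =>
    unfold Gm
    rw [TrivSqZeroExt.inl_mul, ih]
    congr 1

theorem Gm_congr (s : ℕ) : ∀ (m z : ℕ), 2 < z → 3 + s * m + 1 ≤ z → 2 ≤ s → ∀ ρ ρ' : ℕ → ℕ,
    (∀ c, c < z → ρ c = ρ' c) → (Gm s m ρ : A) = Gm s m ρ' := by
  intro m
  induction m with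
  | zero =>
    intro z hz _ _ ρ ρ' h
    unfold Gm
    rw [h 2 hz]
  | succ m ih =>
    intro z hz hz2 hs ρ ρ' h
    have e : s * (m + 1) = s * m + s := by ring
    unfold Gm
    rw [h (3 + s * m + 1) (by omega), ih z hz (by omega) hs ρ ρ' h]

/-! ### the blocks -/

theorem blk_map (s j : ℕ) : blk s j = (List.range' 2 (s - 2)).map (fun i => 3 + s * j + i) := by
  unfold blk
  rw [List.map_add_range']

theorem mem_blk {s j y : ℕ} : y ∈ blk s j ↔ 3 + s * j + 2 ≤ y ∧ y < 3 + s * j + 2 + (s - 2) := by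
  unfold blk
  rw [List.mem_range'_1]

theorem vj_eq (s j : ℕ) : vj s j = 3 + s * j + s := by
  unfold vj; ring

theorem range_perm {s : ℕ} (hs : 2 ≤ s) :
    (s :: List.range' 2 (s - 2)).Perm (List.range' 2 (s - 1)) := by
  have e : s - 1 = (s - 2) + 1 := by omega
  rw [e, List.range'_concat]
  have e2 : 2 + 1 * (s - 2) = s := by omega
  rw [e2]
  exact (List.perm_append_singleton s _).symm

theorem mem_Bl {s : ℕ} (hs : 2 ≤ s) : ∀ (m u : ℕ), u ∈ Bl s m → 5 ≤ u ∧ u < 3 + s * m + 1 := by
  intro m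
  induction m with
  | zero => intro u hu; exact absurd hu (List.not_mem_nil)
  | succ m ih =>
    intro u hu
    have e : s * (m + 1) = s * m + s := by ring
    rcases List.mem_cons.1 hu with rfl | hu
    · rw [vj_eq]; omega
    · rcases List.mem_append.1 hu with hu | hu
      · rw [mem_blk] at hu
        omega
      · have := ih u hu
        omega

theorem nodup_Bl {s : ℕ} (hs : 2 ≤ s) (m : ℕ) (T : List ℕ) (hT : T.Nodup) (hT3 : ∀ u ∈ T, u ≤ 3) :
    (Bl s m ++ T).Nodup := by
  induction m with
  | zero => exact hT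
  | succ m ih =>
    have e0 : Bl s (m + 1) ++ T = vj s m :: (blk s m ++ (Bl s m ++ T)) := by
      simp [Bl, List.append_assoc]
    rw [e0, List.nodup_cons, List.nodup_append]
    refine ⟨?_, ?_, ih, ?_⟩
    · intro h
      rcases List.mem_append.1 h with h | h
      · rw [mem_blk, vj_eq] at h
        omega
      · rcases List.mem_append.1 h with h | h
        · have := mem_Bl hs m _ h
          rw [vj_eq] at this
          omega
        · have := hT3 _ h
          rw [vj_eq] at this
          omega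
    · exact List.nodup_range'
    · intro x hx y hy hxy
      rw [mem_blk] at hx
      rcases List.mem_append.1 hy with h | h
      · have := mem_Bl hs m _ h
        omega
      · have := hT3 _ h
        omega

theorem BLw_dual {s m : ℕ} (hs : 2 ≤ s) {ψ φ : ℕ → ℕ → A} (h : BLw s (m + 1) ψ φ) :
    BLw (A := DualNumber A) s m (fun i j => TrivSqZeroExt.inl (ψ i j)) (dl φ (vj s m)) := by
  have hle : ∀ j, j < m → s * j + s ≤ s * m := by
    intro j hj
    calc s * j + s = s * (j + 1) := by ring
      _ ≤ s * m := Nat.mul_le_mul_left s hj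
  have key : ∀ j, j < m → ∀ y ∈ blk s j, φ (vj s m) y = 0 ∧ φ y (vj s m) = 0 := by
    intro j hj y hy
    apply h.1 j (by omega) y hy
    · intro hv
      rw [mem_blk, vj_eq] at hv
      have := hle j hj
      omega
    · intro hv
      rw [vj_eq, vj_eq] at hv
      have := hle j hj
      omega
  constructor
  · intro j hj y hy u hu hu2
    obtain ⟨h1, h2⟩ := h.1 j (by omega) y hy u hu hu2
    obtain ⟨h3, h4⟩ := key j hj y hy
    unfold dl
    rw [h1, h2, h3, h4]
    simp
  · intro j hj i i' hi hi2 hi' hi2' hne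
    have h1 := h.2 j (by omega) i i' hi hi2 hi' hi2' hne
    have h2 : φ (3 + s * j + i) (vj s m) * φ (vj s m) (3 + s * j + i') = 0 := by
      rcases hne with hne | hne
      · rw [(key j hj (3 + s * j + i) (by rw [mem_blk]; omega)).2, zero_mul]
      · rw [(key j hj (3 + s * j + i') (by rw [mem_blk]; omega)).1, mul_zero]
    unfold dl
    rw [h1, h2]
    simp

theorem sum_fst {α : Type} (L : List α) (F : α → DualNumber A) :
    ((L.map F).sum).fst = (L.map fun l => (F l).fst).sum := by
  induction L with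
  | nil => simp
  | cons a L ih =>
    rw [List.map_cons, List.sum_cons, List.map_cons, List.sum_cons, ← ih,
      TrivSqZeroExt.fst_add]

/-- one block -/
theorem step (h1 : S_BLOCK) (h2 : S_DFST) {m s : ℕ} (hs : 2 ≤ s) {φ ψ : ℕ → ℕ → A} {a b : A}
    (hB : BLw s (m + 1) ψ φ) (ha : AS ψ (List.range' 2 (s - 1)) = a)
    (hb : AS ψ (List.range' 2 (s - 2)) = b) (hN : 2 * NN ψ s (List.range' 2 (s - 2)) = 0)
    (x : ℕ) (T : List ℕ) (hx3 : x ≤ 3) (hT : T.Nodup) (hT3 : ∀ u ∈ T, u ≤ 3) (hxT : x ∉ T) :
    PS φ (ftop (Gm s (m + 1))) x (Bl s (m + 1) ++ T) =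
      a * (PS (A := DualNumber A) (dl φ (vj s m)) (ftop (Gm s m)) x (Bl s m ++ T)).fst +
      b * (PS (A := DualNumber A) (dl φ (vj s m)) (ftop (Gm s m)) x (Bl s m ++ T)).snd := by
  have e0 : Bl s (m + 1) ++ T = vj s m :: (blk s m ++ (Bl s m ++ T)) := by
    simp [Bl, List.append_assoc]
  have hVlt : ∀ u ∈ Bl s m ++ T, u < 3 + s * m + 1 := by
    intro u hu
    rcases List.mem_append.1 hu with h | h
    · exact (mem_Bl hs m u h).2
    · have := hT3 u h; omega
  have hxV : x ∉ Bl s m ++ T := by
    intro hu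
    rcases List.mem_append.1 hu with h | h
    · have := (mem_Bl hs m x h).1; omega
    · exact hxT h
  have hf : ∀ i j : ℕ, 3 + s * m + i < 3 + s * m + j ↔ i < j := by intro i j; omega
  have hmem : ∀ i ∈ s :: List.range' 2 (s - 2), 2 ≤ i ∧ i ≤ s := by
    intro i hi
    rcases List.mem_cons.1 hi with rfl | hi
    · omega
    · rw [List.mem_range'_1] at hi; omega
  have hnd : (s :: List.range' 2 (s - 2)).Nodup := by
    rw [List.nodup_cons]
    refine ⟨?_, List.nodup_range'⟩
    rw [List.mem_range'_1]; omega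
  have hφψ : ∀ i ∈ s :: List.range' 2 (s - 2), ∀ j ∈ s :: List.range' 2 (s - 2), i ≠ j →
      φ (3 + s * m + i) (3 + s * m + j) = ψ i j := by
    intro i hi j hj hij
    obtain ⟨i1, i2⟩ := hmem i hi
    obtain ⟨j1, j2⟩ := hmem j hj
    exact hB.2 m (by omega) i j i1 i2 j1 j2 (by omega)
  have hvm : vj s m :: blk s m = (s :: List.range' 2 (s - 2)).map (fun i => 3 + s * m + i) := by
    rw [List.map_cons, ← blk_map, vj_eq]
  have eA : AS φ (vj s m :: blk s m) = a := by
    rw [hvm, AS_map φ ψ _ hf _ hnd hφψ, AS_perm ψ (range_perm hs), ha]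
  have eB : AS φ (blk s m) = b := by
    rw [blk_map, AS_map φ ψ _ hf _ List.nodup_range' (fun i hi j hj =>
      hφψ i (List.mem_cons_of_mem _ hi) j (List.mem_cons_of_mem _ hj)), hb]
  have eN : 2 * NN φ (vj s m) (blk s m) = 0 := by
    rw [blk_map, vj_eq, NN_map φ ψ _ hf s _ hnd hφψ, hN]
  have key := h1 A φ (Gm s m) (3 + s * m + 1) (vj s m) x (blk s m) (Bl s m ++ T)
    (e0 ▸ nodup_Bl hs (m + 1) T hT hT3) (by omega) hVlt hxV (by rw [vj_eq]; omega)
    (fun y hy => by rw [mem_blk] at hy; omega)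
    (by
      intro y hy u hu
      have hu' : u < 3 + s * m + 1 := by
        rcases hu with hu | hu
        · exact hVlt u hu
        · omega
      exact hB.1 m (by omega) y hy u (fun h => by rw [mem_blk] at h; omega)
        (fun h => by rw [vj_eq] at h; omega))
    (fun ρ ρ' h => Gm_congr s m (3 + s * m + 1) (by omega) le_rfl hs ρ ρ' h) eN
  have e1 : (fun u κ => ((κ (3 + s * m + 1) + low u (3 + s * m + 1) : ℕ) : A) *
      ftop (Gm s m) u κ : ℕ → (ℕ → ℕ) → A) = ftop (Gm s (m + 1)) := by
    funext u κ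
    rfl
  rw [e1] at key
  rw [e0, key, eA, eB]
  have e2 : (fun u κ => TrivSqZeroExt.inl (ftop (Gm s m) u κ : A) : ℕ → (ℕ → ℕ) → DualNumber A) =
      ftop (Gm s m) := by
    funext u κ
    exact Gm_inl s m _
  have e3 : (PS (A := DualNumber A) (dl φ (vj s m)) (ftop (Gm s m)) x (Bl s m ++ T)).fst =
      PS φ (ftop (Gm s m)) x (Bl s m ++ T) := by
    unfold PS
    rw [sum_fst]
    congr 1
    refine List.map_congr_left fun l _ => ?_
    have := h2 A φ (ftop (Gm s m)) (vj s m) l x (fun _ => 0)
    rw [e2] at this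
    exact this
  rw [e2, e3]

theorem main (h1 : S_BLOCK) (h2 : S_DFST) (h3 : S_QSTEP) : S_EVG := by
  intro m
  induction m with
  | zero =>
    intro s A _ φ ψ a b hs _ hφ _ _ _
    have e2 : PQ a b φ 3 1 (Vl s 0) = φ 3 1 := by
      simp [PQ, Vl, wtg]
    constructor
    · have e1 : (Bl s 0 ++ [3, 1]).permutations' = [[3, 1], [1, 3]] := rfl
      unfold PS
      rw [e1, e2]
      simp [Rr, ftop, Gm, hφ, itv, low]
      ring
    · have e1 : (Bl s 0 ++ [1]).permutations' = [[1]] := rfl
      unfold PS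
      rw [e1, e2]
      simp [Rr, ftop, Gm, low]
  | succ m ih =>
    intro s A _ φ ψ a b hs hB hφ ha hb hN
    obtain ⟨i1, i2⟩ := ih s (DualNumber A) (dl φ (vj s m))
      (fun i j => TrivSqZeroExt.inl (ψ i j)) (TrivSqZeroExt.inl a) (TrivSqZeroExt.inl b) hs
      (BLw_dual hs hB) (by
        intro u
        unfold dl
        rw [hφ, hφ, zero_mul]
        simp) (by rw [AS_inl, ha]) (by rw [AS_inl, hb]) (by
        have e : (2 : DualNumber A) = TrivSqZeroExt.inl 2 := by
          rw [show (2 : A) = ((2 : ℕ) : A) by norm_num, TrivSqZeroExt.inl_natCast]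
          norm_num
        rw [NN_inl, e, ← TrivSqZeroExt.inl_mul, hN, TrivSqZeroExt.inl_zero])
    have e3 : PQ a b φ 3 1 (Vl s (m + 1)) = PQ a b φ 3 1 (vj s m :: Vl s m) := rfl
    have e4 := h3 ℕ A a b φ 3 1 (vj s m) (Vl s m)
    have e5 : (dlg φ (vj s m) : ℕ → ℕ → DualNumber A) = dl φ (vj s m) := rfl
    rw [e5] at e4
    constructor
    · rw [step h1 h2 hs hB ha hb hN 0 [3, 1] (by omega) (by simp) (by
        intro u hu
        simp only [List.mem_cons, List.not_mem_nil, or_false] at hu
        omega) (by simp), i1, e3, e4]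
      have e6 : (TrivSqZeroExt.inl a : DualNumber A) ^ m = TrivSqZeroExt.inl (a ^ m) :=
        TrivSqZeroExt.inl_pow a m
      rw [e6, two_mul, two_mul]
      simp only [TrivSqZeroExt.fst_add, TrivSqZeroExt.snd_add, TrivSqZeroExt.fst_inl,
        TrivSqZeroExt.snd_inl]
      ring
    · rw [step h1 h2 hs hB ha hb hN 3 [1] (by omega) (by simp) (by
        intro u hu
        simp only [List.mem_cons, List.not_mem_nil, or_false] at hu
        omega) (by simp), i2, e3, e4]

end Pool.Agent.W125.HMEvg
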