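import Pool.Agent.W749.NM.Stm
import Pool.Agent.W422.SM.RAC

/-!
# NM-RAL: the local functional equation in terms of the exponents
-/

set_option autoImplicit false

namespace Pool.Agent.W125.NMRAL

open MvPolynomial Pool.Agent.W426.SM Pool.Agent.W249.SM Pool.Agent.W422.SM Finset
open Pool.Agent.W749.NM (IsUnitB Ident S_RAL)

variable {n k : ℕ}

/-- a monomial of the unit and its shift -/
def Has0 (m : Fin k → Fin n → ℕ) (d : Fin n →₀ ℕ) (γ : Fin k → ℤ) : Prop :=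
  ∑ j, γ j = 0 ∧ ∀ i, (d i : ℤ) = ∑ j, γ j * m j i

theorem has0_unique (m : Fin k → Fin n → ℕ) (hm : AffInd m) (d : Fin n →₀ ℕ)
    (γ γ' : Fin k → ℤ) (h : Has0 m d γ) (h' : Has0 m d γ') : γ = γ' :=
  aff_unique m hm γ γ' (h.1.trans h'.1.symm) fun i => (h.2 i).symm.trans (h'.2 i)

/-- the contribution of a monomial of the unit -/
noncomputable def TT (A : Fin n → ℕ) (m : Fin k → Fin n → ℕ) (c : Fin k → ℂ) (e N : ℕ)
    (d v : Fin n →₀ ℕ) : ℂ :=
  ∑ t' ∈ piAntidiag univ (e * N), if d + (N • toF A + Phi m t') = v then KKc c t' else 0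

theorem term_has0 (A : Fin n → ℕ) (m : Fin k → Fin n → ℕ) (e N : ℕ) (d : Fin n →₀ ℕ)
    (t t' : Fin k → ℕ) (ht : t ∈ piAntidiag univ (e * N)) (ht' : t' ∈ piAntidiag univ (e * N))
    (hv : d + (N • toF A + Phi m t') = N • toF A + Phi m t) :
    Has0 m d (fun j => (t j : ℤ) - t' j) := by
  constructor
  · have h3 := sum_of_mem ht
    have h4 := sum_of_mem ht'
    rw [sum_sub_distrib]
    have h5 : (∑ j, (t j : ℤ)) = ((e * N : ℕ) : ℤ) := by exact_mod_cast h3
    have h6 : (∑ j, (t' j : ℤ)) = ((e * N : ℕ) : ℤ) := by exact_mod_cast h4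
    rw [h5, h6, sub_self]
  · intro i
    have h1 := DFunLike.congr_fun hv i
    rw [Finsupp.add_apply, U_apply, U_apply] at h1
    have h2 : ((d i : ℕ) : ℤ) + (N * A i + ∑ j, (t' j : ℤ) * m j i) =
        N * A i + ∑ j, (t j : ℤ) * m j i := by exact_mod_cast h1
    have h3 : ∑ j, ((t j : ℤ) - t' j) * (m j i : ℤ) =
        ∑ j, (t j : ℤ) * m j i - ∑ j, (t' j : ℤ) * m j i := by
      rw [← sum_sub_distrib]
      exact sum_congr rfl fun j _ => by ring
    rw [h3]
    linarith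

theorem TT_not (A : Fin n → ℕ) (m : Fin k → Fin n → ℕ) (c : Fin k → ℂ) (e N : ℕ)
    (d : Fin n →₀ ℕ) (t : Fin k → ℕ) (ht : t ∈ piAntidiag univ (e * N))
    (h : ¬ ∃ γ, Has0 m d γ) : TT A m c e N d (N • toF A + Phi m t) = 0 := by
  unfold TT
  refine sum_eq_zero fun t' ht' => ?_
  split_ifs with hv
  · exact absurd ⟨_, term_has0 A m e N d t t' ht ht' hv⟩ h
  · rfl

/-- ratio of the coefficients -/
theorem KKc_ratio0 (c : Fin k → ℂ) (hc : ∀ j, c j ≠ 0) (M : ℕ) (γ : Fin k → ℤ)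
    (t t' : Fin k → ℕ) (ht : t ∈ piAntidiag univ M)
    (ht' : t' ∈ piAntidiag univ M) (h : ∀ j, (t' j : ℤ) = t j - γ j) :
    KKc c t' = KKc c t * (∏ j, (c j) ^ (-γ j)) * ∏ j, ff (γ j) (t j) := by
  have h1 := Nat.multinomial_spec (univ : Finset (Fin k)) t
  have h2 := Nat.multinomial_spec (univ : Finset (Fin k)) t'
  rw [sum_of_mem ht] at h1
  rw [sum_of_mem ht'] at h2
  have h1' : (∏ j, ((t j).factorial : ℂ)) * ((Nat.multinomial univ t : ℕ) : ℂ) =
      ((M.factorial : ℕ) : ℂ) := by exact_mod_cast h1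
  have h2' : (∏ j, ((t' j).factorial : ℂ)) * ((Nat.multinomial univ t' : ℕ) : ℂ) =
      ((M.factorial : ℕ) : ℂ) := by exact_mod_cast h2
  have h4 : ∏ j, ((t j).factorial : ℂ) = (∏ j, ((t' j).factorial : ℂ)) * ∏ j, ff (γ j) (t j) := by
    rw [← prod_mul_distrib]
    exact prod_congr rfl fun j _ => ff_fac (t j) (t' j) (γ j) (h j)
  have h5 : (∏ j, ((t' j).factorial : ℂ)) ≠ 0 :=
    prod_ne_zero_iff.mpr fun j _ => by exact_mod_cast (Nat.factorial_ne_zero _)
  have h6 : ((Nat.multinomial univ t' : ℕ) : ℂ) = ((Nat.multinomial univ t : ℕ) : ℂ) *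
      ∏ j, ff (γ j) (t j) := by
    apply mul_left_cancel₀ h5
    rw [h2', ← h1', h4]
    ring
  have h7 : ∏ j, (c j) ^ t' j =
      (∏ j, (c j) ^ t j) * ∏ j, (c j) ^ (-γ j) := by
    rw [← prod_mul_distrib]
    refine prod_congr rfl fun j _ => ?_
    have hcj : c j ≠ 0 := hc j
    rw [← zpow_natCast, h j, sub_eq_add_neg, zpow_add₀ hcj, zpow_natCast]
  unfold KKc
  rw [h6, h7]
  ring

/-- the contribution of a monomial with a shift -/
theorem TT_has (A : Fin n → ℕ) (m : Fin k → Fin n → ℕ) (hm : AffInd m) (c : Fin k → ℂ)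
    (hc : ∀ j, c j ≠ 0) (e N : ℕ) (d : Fin n →₀ ℕ) (t : Fin k → ℕ)
    (ht : t ∈ piAntidiag univ (e * N)) (γ : Fin k → ℤ) (h : Has0 m d γ) :
    TT A m c e N d (N • toF A + Phi m t) =
      KKc c t * ((∏ j, (c j) ^ (-γ j)) * ∏ j, ff (γ j) (t j)) := by
  classical
  by_cases hγ : ∀ j, γ j ≤ t j
  · set t' : Fin k → ℕ := fun j => ((t j : ℤ) - γ j).toNat with ht'def
    have ht'j : ∀ j, (t' j : ℤ) = t j - γ j := fun j => by
      rw [ht'def]; exact Int.toNat_of_nonneg (by linarith [hγ j])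
    have ht' : t' ∈ piAntidiag univ (e * N) := by
      refine mem_of_sum ?_
      have h1 := sum_of_mem ht
      have h2 : (∑ j, (t' j : ℤ)) = e * N := by
        rw [sum_congr rfl fun j _ => ht'j j, sum_sub_distrib, h.1]
        have h3 : (∑ j, (t j : ℤ)) = e * N := by exact_mod_cast h1
        rw [h3]; ring
      exact_mod_cast h2
    unfold TT
    rw [sum_eq_single t']
    · rw [if_pos, KKc_ratio0 c hc (e * N) γ t t' ht ht' ht'j]
      · ring
      · ext i
        rw [Finsupp.add_apply, U_apply, U_apply]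
        have h4 : ∑ j, (t' j : ℤ) * (m j i : ℤ) =
            ∑ j, (t j : ℤ) * (m j i : ℤ) - ∑ j, γ j * (m j i : ℤ) := by
          rw [← sum_sub_distrib]
          exact sum_congr rfl fun j _ => by rw [ht'j]; ring
        have h5 := h.2 i
        have h6 : ((d i : ℕ) : ℤ) + (N * A i + ∑ j, (t' j : ℤ) * m j i) =
            N * A i + ∑ j, (t j : ℤ) * m j i := by
          rw [h4]; linarith
        exact_mod_cast h6
    · intro t'' ht'' hne
      split_ifs with hv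
      · exfalso
        apply hne
        have h1 := has0_unique m hm d _ _ (term_has0 A m e N d t t'' ht ht'' hv) h
        funext j
        have h2 : (t j : ℤ) - t'' j = γ j := congrFun h1 j
        have h3 := ht'j j
        omega
      · rfl
    · intro hh; exact absurd ht' hh
  · push Not at hγ
    obtain ⟨j₀, hj₀⟩ := hγ
    have h1 : ∏ j, ff (γ j) (t j) = 0 := prod_eq_zero (mem_univ j₀) (ff_zero _ _ hj₀)
    rw [h1]
    unfold TT
    simp only [mul_zero]
    refine sum_eq_zero fun t' ht' => ?_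
    split_ifs with hv
    · exfalso
      have h1 := has0_unique m hm d _ _ (term_has0 A m e N d t t' ht ht' hv) h
      have h2 : (t j₀ : ℤ) - t' j₀ = γ j₀ := congrFun h1 j₀
      omega
    · rfl

/-- the coefficient of the left hand side -/
theorem coeff_unit (A : Fin n → ℕ) (m : Fin k → Fin n → ℕ) (c : Fin k → ℂ) (e N : ℕ)
    (a : MvPolynomial (Fin n) ℂ) (v : Fin n →₀ ℕ) :
    coeff v (a * fCc A m c e ^ N) = ∑ d ∈ a.support, coeff d a * TT A m c e N d v := by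
  classical
  conv_lhs => rw [a.as_sum]
  rw [sum_mul, coeff_sum]
  refine sum_congr rfl fun d _ => ?_
  rw [fCc_pow, mul_sum, coeff_sum]
  unfold TT
  rw [mul_sum]
  refine sum_congr rfl fun t _ => ?_
  rw [monomial_mul, coeff_monomial]
  split_ifs
  · rfl
  · rw [mul_zero]

/-- from a functional equation with a unit to a finite identity -/
theorem exists_hid' (f : MvPolynomial (Fin n) ℂ) (b : Polynomial ℂ)
    (hb : IsUnitB f b) :
    ∃ (a : MvPolynomial (Fin n) ℂ) (M : ℕ) (cc : Fin M → MvPolynomial (Option (Fin n)) ℂ)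
      (kk : Fin M → ℕ) (w : (j : Fin M) → Fin (kk j) → Fin n), constantCoeff a = 1 ∧
      ∀ N : ℕ, ∑ j, spec N (cc j) * DD (kk j) (w j) (f ^ (N + 1)) =
        C (b.eval (N : ℂ)) * a * f ^ N := by
  obtain ⟨a, P, ha, hP⟩ := hb
  have hnf : ∀ Q : Pool.Agent.H628R4.TP.weylS (Fin n),
      ∃ l : List (MvPolynomial (Fin n) ℂ × (Σ r : ℕ, Fin r → Fin n)),
        ∀ g, (Q : Module.End ℂ (MvPolynomial (Fin n) ℂ)) g = opv l g :=
    fun Q => weyl_nf Q.1 Q.2
  choose nf hnf using hnf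
  -- the list of all terms
  let LL : List (MvPolynomial (Option (Fin n)) ℂ × (Σ r : ℕ, Fin r → Fin n)) :=
    P.support.toList.flatMap fun m => (nf (P m)).map fun t =>
      (X none ^ m * rename Option.some t.1, t.2)
  have hLL : ∀ N : ℕ, (LL.map fun t => spec N t.1 * DD t.2.1 t.2.2 (f ^ (N + 1))).sum =
      C (b.eval (N : ℂ)) * a * f ^ N := by
    intro N
    rw [hP N]
    have h1 : ∀ m, (((nf (P m)).map fun t =>
        ((X none ^ m * rename Option.some t.1 : MvPolynomial (Option (Fin n)) ℂ), t.2)).map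
          fun t => spec N t.1 * DD t.2.1 t.2.2 (f ^ (N + 1))).sum =
        ((N : ℂ) ^ m) • (P m : Module.End ℂ (MvPolynomial (Fin n) ℂ)) (f ^ (N + 1)) := by
      intro m
      rw [hnf, smul_eq_C_mul]
      generalize nf (P m) = l
      induction l with
      | nil => simp [opv_nil]
      | cons t l ih =>
        rw [List.map_cons, List.map_cons, List.sum_cons, ih, opv_cons, spec_mk]
        ring
    show ((P.support.toList.flatMap fun m => (nf (P m)).map fun t =>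
      ((X none ^ m * rename Option.some t.1 : MvPolynomial (Option (Fin n)) ℂ), t.2)).map
        fun t => spec N t.1 * DD t.2.1 t.2.2 (f ^ (N + 1))).sum = _
    rw [List.map_flatMap, Finsupp.sum, ← Finset.sum_map_toList]
    generalize P.support.toList = S
    induction S with
    | nil => simp
    | cons m S ih =>
      rw [List.flatMap_cons, List.sum_append, List.map_cons, List.sum_cons, ih, h1]
  refine ⟨a, LL.length, fun j => (LL.get j).1, fun j => (LL.get j).2.1, fun j => (LL.get j).2.2,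
    ha, fun N => ?_⟩
  rw [← hLL N]
  rw [← List.sum_ofFn]
  congr 1
  have h2 : (fun j : Fin LL.length => spec N (LL.get j).1 *
      DD (LL.get j).2.1 (LL.get j).2.2 (f ^ (N + 1))) =
      (fun t : MvPolynomial (Option (Fin n)) ℂ × (Σ r : ℕ, Fin r → Fin n) =>
        spec N t.1 * DD t.2.1 t.2.2 (f ^ (N + 1))) ∘ LL.get := rfl
  rw [h2, ← List.map_ofFn, List.ofFn_get]

/-- index type of the unit -/
abbrev JJ (m : Fin k → Fin n → ℕ) (a : MvPolynomial (Fin n) ℂ) : Type :=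
  {d : {d // d ∈ a.support} // d.1 ≠ 0 ∧ ∃ γ, Has0 m d.1 γ}

open Classical in
/-- the left hand side -/
theorem unit_sum (A : Fin n → ℕ) (m : Fin k → Fin n → ℕ) (hm : AffInd m) (c : Fin k → ℂ)
    (hc : ∀ j, c j ≠ 0) (e : ℕ) (a : MvPolynomial (Fin n) ℂ) (ha : constantCoeff a = 1)
    (γ : JJ m a → Fin k → ℤ) (hγ : ∀ l, Has0 m l.1.1 (γ l))
    (N : ℕ) (t : Fin k → ℕ) (ht : t ∈ piAntidiag univ (e * N)) :
    coeff (N • toF A + Phi m t) (a * fCc A m c e ^ N) =
      KKc c t * (1 + ∑ l : JJ m a, (coeff l.1.1 a * ∏ j, (c j) ^ (-γ l j)) *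
        ∏ j, ff (γ l j) (t j)) := by
  classical
  rw [coeff_unit]
  have h1 : ∑ d ∈ a.support, coeff d a * TT A m c e N d (N • toF A + Phi m t) =
      ∑ d : {d // d ∈ a.support}, coeff d.1 a * TT A m c e N d.1 (N • toF A + Phi m t) :=
    (sum_coe_sort a.support (fun d => coeff d a * TT A m c e N d (N • toF A + Phi m t))).symm
  have h0 : (0 : Fin n →₀ ℕ) ∈ a.support := by
    rw [mem_support_iff]
    have : coeff 0 a = 1 := ha
    rw [this]
    exact one_ne_zero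
  have hz : Has0 m 0 (fun _ => 0 : Fin k → ℤ) := ⟨by simp, by simp⟩
  rw [h1]
  have h3 := Fintype.sum_subtype_add_sum_subtype
    (fun d : {d // d ∈ a.support} => d.1 ≠ 0 ∧ ∃ γ, Has0 m d.1 γ)
    (fun d => coeff d.1 a * TT A m c e N d.1 (N • toF A + Phi m t))
  rw [← h3]
  have h4 : ∑ d : {d : {d // d ∈ a.support} // ¬ (d.1 ≠ 0 ∧ ∃ γ, Has0 m d.1 γ)},
      coeff d.1.1 a * TT A m c e N d.1.1 (N • toF A + Phi m t) = KKc c t := by
    rw [Fintype.sum_eq_single (⟨⟨0, h0⟩, fun h => h.1 rfl⟩ :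
      {d : {d // d ∈ a.support} // ¬ (d.1 ≠ 0 ∧ ∃ γ, Has0 m d.1 γ)})]
    · show coeff 0 a * TT A m c e N 0 (N • toF A + Phi m t) = _
      have : coeff 0 a = 1 := ha
      rw [this, one_mul, TT_has A m hm c hc e N 0 t ht _ hz]
      have h5 : ∀ j, ff (0 : ℤ) ((t j : ℕ) : ℂ) = 1 := by
        intro j
        unfold ff
        simp
      simp [h5]
    · intro d hd
      have h6 : d.1.1 ≠ 0 := fun h => hd (Subtype.ext (Subtype.ext h))
      have h7 : ¬ ∃ γ, Has0 m d.1.1 γ := fun h => d.2 ⟨h6, h⟩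
      rw [TT_not A m c e N _ t ht h7, mul_zero]
  rw [h4]
  have h8 : ∑ d : JJ m a, coeff d.1.1 a * TT A m c e N d.1.1 (N • toF A + Phi m t) =
      KKc c t * ∑ l : JJ m a, (coeff l.1.1 a * ∏ j, (c j) ^ (-γ l j)) *
        ∏ j, ff (γ l j) (t j) := by
    rw [mul_sum]
    refine sum_congr rfl fun l _ => ?_
    rw [TT_has A m hm c hc e N _ t ht (γ l) (hγ l)]
    ring
  rw [h8]
  ring

open Classical in
theorem nat_identity' (A : Fin n → ℕ) (m : Fin k → Fin n → ℕ) (hm : AffInd m) (c : Fin k → ℂ)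
    (hc : ∀ j, c j ≠ 0) (e : ℕ) (b : Polynomial ℂ) (a : MvPolynomial (Fin n) ℂ)
    (ha : constantCoeff a = 1) (M : ℕ)
    (cc : Fin M → MvPolynomial (Option (Fin n)) ℂ) (kk : Fin M → ℕ)
    (w : (j : Fin M) → Fin (kk j) → Fin n)
    (hid : ∀ N : ℕ, ∑ j, spec N (cc j) * DD (kk j) (w j) (fCc A m c e ^ (N + 1)) =
      C (b.eval (N : ℂ)) * a * fCc A m c e ^ N)
    (γ : JJ m a → Fin k → ℤ) (hγ : ∀ l, Has0 m l.1.1 (γ l))
    (ω : {l : II M cc // ∃ ω, Has A m e (cnt (w l.1)) (Finsupp.some l.2.1) ω} → Fin k → ℤ)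
    (hω : ∀ l, Has A m e (cnt (w l.1.1)) (Finsupp.some l.1.2.1) (ω l))
    (N : ℕ) (t : Fin k → ℕ) (ht : t ∈ piAntidiag univ (e * N)) :
    b.eval (N : ℂ) * (1 + ∑ l : JJ m a, (coeff l.1.1 a * ∏ j, (c j) ^ (-γ l j)) *
        ∏ j, ff (γ l j) (t j)) =
      ∑ l : {l : II M cc // ∃ ω, Has A m e (cnt (w l.1)) (Finsupp.some l.2.1) ω},
      (coeff l.1.2.1 (cc l.1.1) * (N : ℂ) ^ l.1.2.1 none) *
      ((∏ j, (c j) ^ (-ω l j)) *
        (∏ r ∈ range e, (((e * N : ℕ) : ℂ) + (r + 1))) * (∏ j, ff (ω l j) (t j)) *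
        ∏ i, ∏ r ∈ range (cnt (w l.1.1) i), ((N : ℂ) * A i + ∑ j, (t j : ℂ) * m j i -
          ((Finsupp.some l.1.2.1 i : ℂ) - cnt (w l.1.1) i) - r)) := by
  classical
  have h1 := congrArg (coeff (N • toF A + Phi m t)) (hid N)
  rw [coeff_sum, mul_assoc, coeff_C_mul, unit_sum A m hm c hc e a ha γ hγ N t ht,
    sum_congr rfl fun j _ => coeff_lhsc A m c e N (kk j) (w j) (cc j) _] at h1
  have h2 : ∑ j, ∑ d ∈ (cc j).support, (coeff d (cc j) * (N : ℂ) ^ d none) *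
      SSc A m c e N (cnt (w j)) d.some (N • toF A + Phi m t) =
      ∑ l : II M cc, (coeff l.2.1 (cc l.1) * (N : ℂ) ^ l.2.1 none) *
        SSc A m c e N (cnt (w l.1)) (Finsupp.some l.2.1) (N • toF A + Phi m t) := by
    rw [Fintype.sum_sigma]
    refine sum_congr rfl fun j _ => ?_
    exact (sum_coe_sort (cc j).support (fun d => (coeff d (cc j) * (N : ℂ) ^ d none) *
      SSc A m c e N (cnt (w j)) d.some (N • toF A + Phi m t))).symm
  rw [h2] at h1
  have h3 := Fintype.sum_subtype_add_sum_subtype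
    (fun l : II M cc => ∃ ω, Has A m e (cnt (w l.1)) (Finsupp.some l.2.1) ω)
    (fun l : II M cc => (coeff l.2.1 (cc l.1) * (N : ℂ) ^ l.2.1 none) *
        SSc A m c e N (cnt (w l.1)) (Finsupp.some l.2.1) (N • toF A + Phi m t))
  rw [← h3] at h1
  have h4 : ∑ l : {l : II M cc // ¬ ∃ ω, Has A m e (cnt (w l.1)) (Finsupp.some l.2.1) ω},
      (coeff l.1.2.1 (cc l.1.1) * (N : ℂ) ^ l.1.2.1 none) *
        SSc A m c e N (cnt (w l.1.1)) (Finsupp.some l.1.2.1) (N • toF A + Phi m t) = 0 := by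
    refine sum_eq_zero fun l _ => ?_
    rw [SSc_not A m c e N _ _ t ht l.2, mul_zero]
  rw [h4, add_zero] at h1
  have h5 := KKc_ne c hc t
  apply mul_right_cancel₀ h5
  rw [mul_assoc, mul_comm (1 + _) (KKc c t), ← h1, sum_mul]
  refine sum_congr rfl fun l _ => ?_
  rw [SSc_has A m hm c hc e N _ _ t ht (ω l) (hω l)]
  ring

/-- RAL from the polynomial identities at the natural numbers -/
theorem ral_of_hid (A : Fin n → ℕ) (m : Fin k → Fin n → ℕ) (hm : AffInd m) (c : Fin k → ℂ)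
    (hc : ∀ j, c j ≠ 0) (e : ℕ) (he : 0 < e) (b : Polynomial ℂ) (a : MvPolynomial (Fin n) ℂ)
    (ha : constantCoeff a = 1) (M : ℕ)
    (cc : Fin M → MvPolynomial (Option (Fin n)) ℂ) (kk : Fin M → ℕ)
    (w : (j : Fin M) → Fin (kk j) → Fin n)
    (hid : ∀ N : ℕ, ∑ j, spec N (cc j) * DD (kk j) (w j) (fCc A m c e ^ (N + 1)) =
      C (b.eval (N : ℂ)) * a * fCc A m c e ^ N) :
    ∃ (L' L : ℕ) (ac : Fin L' → ℂ) (γ : Fin L' → Fin k → ℤ) (q : Fin L → Polynomial ℂ)
      (ω : Fin L → Fin k → ℤ) (α β : Fin L → Fin n → ℕ), Ident A m e b ac γ q ω α β := by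
  classical
  have hex : ∀ l : {l : II M cc // ∃ ω, Has A m e (cnt (w l.1)) (Finsupp.some l.2.1) ω},
      ∃ ω, Has A m e (cnt (w l.1.1)) (Finsupp.some l.1.2.1) ω := fun l => l.2
  choose ω hω using hex
  have hexg : ∀ l : JJ m a, ∃ γ, Has0 m l.1.1 γ := fun l => l.2.2
  choose γ hγ using hexg
  have hnat := nat_identity' A m hm c hc e b a ha M cc kk w hid γ hγ ω hω
  -- the index types
  let J := {l : II M cc // ∃ ω, Has A m e (cnt (w l.1)) (Finsupp.some l.2.1) ω}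
  let E : J ≃ Fin (Fintype.card J) := Fintype.equivFin J
  let E' : JJ m a ≃ Fin (Fintype.card (JJ m a)) := Fintype.equivFin (JJ m a)
  let ac : JJ m a → ℂ := fun l => coeff l.1.1 a * ∏ j, (c j) ^ (-γ l j)
  let α : J → Fin n → ℕ := fun l i => cnt (w l.1.1) i
  let β : J → Fin n → ℕ := fun l i => Finsupp.some l.1.2.1 i
  let q : J → Polynomial ℂ := fun l =>
    Polynomial.C (coeff l.1.2.1 (cc l.1.1) * ∏ j, (c j) ^ (-ω l j)) *
      Polynomial.X ^ (l.1.2.1 none)
  have hq : ∀ (l : J) (x : ℂ), (q l).eval x =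
      (coeff l.1.2.1 (cc l.1.1) * ∏ j, (c j) ^ (-ω l j)) * x ^ (l.1.2.1 none) := by
    intro l x
    simp only [q, Polynomial.eval_mul, Polynomial.eval_C, Polynomial.eval_pow, Polynomial.eval_X]
  have heC : (e : ℂ) ≠ 0 := by exact_mod_cast he.ne'
  -- the bound for the denominators
  let M₁ : ℕ := ∑ l : J, ∑ j, (-(ω l j)).toNat
  let M₂ : ℕ := ∑ l : JJ m a, ∑ j, (-(γ l j)).toNat
  let M₀ : ℕ := M₁ + M₂
  have hM₀ : ∀ (l : J) j, (-(ω l j)).toNat ≤ M₀ := by
    intro l j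
    calc (-(ω l j)).toNat ≤ ∑ j, (-(ω l j)).toNat :=
          single_le_sum (f := fun j => (-(ω l j)).toNat) (fun _ _ => Nat.zero_le _) (mem_univ j)
      _ ≤ M₁ := single_le_sum (f := fun l : J => ∑ j, (-(ω l j)).toNat)
          (fun _ _ => Nat.zero_le _) (mem_univ l)
      _ ≤ M₀ := Nat.le_add_right _ _
  have hM₀' : ∀ (l : JJ m a) j, (-(γ l j)).toNat ≤ M₀ := by
    intro l j
    calc (-(γ l j)).toNat ≤ ∑ j, (-(γ l j)).toNat :=
          single_le_sum (f := fun j => (-(γ l j)).toNat) (fun _ _ => Nat.zero_le _) (mem_univ j)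
      _ ≤ M₂ := single_le_sum (f := fun l : JJ m a => ∑ j, (-(γ l j)).toNat)
          (fun _ _ => Nat.zero_le _) (mem_univ l)
      _ ≤ M₀ := Nat.le_add_left _ _
  let Dn : (Fin k → ℂ) → ℂ := fun t => ∏ j, ∏ r ∈ range M₀, (t j + ((r : ℂ) + 1))
  let tail : J → (Fin k → ℂ) → ℂ := fun l t =>
    ∏ i, ∏ r ∈ range (α l i), ((∑ j, t j) / e * A i + ∑ j, t j * m j i -
      ((β l i : ℂ) - α l i) - r)
  let F : (Fin k → ℂ) → ℂ := fun t => b.eval ((∑ j, t j) / e) *
    (Dn t + ∑ l : JJ m a, ac l * ∏ j, ffp M₀ (γ l j) (t j))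
  let G : (Fin k → ℂ) → ℂ := fun t => ∑ l : J, (q l).eval ((∑ j, t j) / e) *
    (∏ r ∈ range e, ((∑ j, t j) + ((r : ℂ) + 1))) * (∏ j, ffp M₀ (ω l j) (t j)) * tail l t
  have hS : PF (fun t : Fin k → ℂ => (∑ j, t j) / e) := by
    have : (fun t : Fin k → ℂ => (∑ j, t j) / (e : ℂ)) = fun t => (∑ j, t j) * (e : ℂ)⁻¹ := by
      funext t; rw [div_eq_mul_inv]
    rw [this]
    exact PF.total.mul (PF.const _)
  have hDn : PF Dn := PF.prod _ fun j => PF.prod _ fun r => (PF.coord j).add (PF.const _)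
  have hffp : ∀ (w : Fin k → ℤ), PF (fun t : Fin k → ℂ => ∏ j, ffp M₀ (w j) (t j)) := by
    intro w
    refine PF.prod _ fun j => ?_
    exact PF.mul (PF.prod _ fun r => (PF.coord j).sub (PF.const _))
        (PF.prod _ fun r => (PF.coord j).add (PF.const _))
  have hF : PF F :=
    (hS.evalPoly b).mul (hDn.add (PF.sum _ fun l => (PF.const _).mul (hffp (γ l))))
  have hG : PF G := by
    refine PF.sum _ fun l => ?_
    refine PF.mul (PF.mul (PF.mul (hS.evalPoly _) (PF.prod _ fun r => PF.total.add (PF.const _)))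
      (hffp (ω l))) (PF.prod _ fun i => PF.prod _ fun r => ?_)
    exact (((hS.mul (PF.const _)).add (PF.sum _ fun j => (PF.coord j).mul (PF.const _))).sub
        (PF.const _)).sub (PF.const _)
  -- replacing `ffp` by `ff`
  have hrepf : ∀ (t : Fin k → ℂ) (w : Fin k → ℤ), (∀ j, (-(w j)).toNat ≤ M₀) →
      (∀ (j : Fin k) (r : ℕ), t j ≠ -((r : ℂ) + 1)) →
      ∏ j, ffp M₀ (w j) (t j) = Dn t * ∏ j, ff (w j) (t j) := by
    intro t w hw ht
    show _ = (∏ j, _) * _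
    rw [← prod_mul_distrib]
    exact prod_congr rfl fun j _ => (ffp_eq M₀ (w j) (t j) (hw j) (ht j)).symm
  have hrep : ∀ t : Fin k → ℂ, (∀ (j : Fin k) (r : ℕ), t j ≠ -((r : ℂ) + 1)) →
      G t = Dn t * ∑ l : J, (q l).eval ((∑ j, t j) / e) *
        (∏ r ∈ range e, ((∑ j, t j) + ((r : ℂ) + 1))) * (∏ j, ff (ω l j) (t j)) * tail l t := by
    intro t ht
    show ∑ l : J, _ = _
    rw [mul_sum]
    refine sum_congr rfl fun l _ => ?_
    rw [hrepf t (ω l) (hM₀ l) ht]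
    ring
  have hrep' : ∀ t : Fin k → ℂ, (∀ (j : Fin k) (r : ℕ), t j ≠ -((r : ℂ) + 1)) →
      F t = Dn t * (b.eval ((∑ j, t j) / e) *
        (1 + ∑ l : JJ m a, ac l * ∏ j, ff (γ l j) (t j))) := by
    intro t ht
    show b.eval ((∑ j, t j) / e) * (Dn t + ∑ l : JJ m a, ac l * ∏ j, ffp M₀ (γ l j) (t j)) = _
    have h1 : ∑ l : JJ m a, ac l * ∏ j, ffp M₀ (γ l j) (t j) =
        Dn t * ∑ l : JJ m a, ac l * ∏ j, ff (γ l j) (t j) := by
      rw [mul_sum]
      refine sum_congr rfl fun l _ => ?_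
      rw [hrepf t (γ l) (hM₀' l) ht]
      ring
    rw [h1]
    ring
  have hFG : F = G := by
    refine eq_of_PF hF hG e he fun t => ?_
    have hsum : (∑ j, ((e * t j : ℕ) : ℂ)) = ((e * ∑ j, t j : ℕ) : ℂ) := by
      rw [mul_sum]; push_cast; rfl
    have hdiv : (∑ j, ((e * t j : ℕ) : ℂ)) / (e : ℂ) = ((∑ j, t j : ℕ) : ℂ) := by
      rw [hsum, Nat.cast_mul, mul_div_cancel_left₀ _ heC]
    have hnp : ∀ (j : Fin k) (r : ℕ), ((e * t j : ℕ) : ℂ) ≠ -((r : ℂ) + 1) := by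
      intro j r h0
      have h1 : ((e * t j : ℕ) : ℂ) + ((r : ℂ) + 1) = 0 := by rw [h0]; ring
      have h2 : ((e * t j + (r + 1) : ℕ) : ℂ) = 0 := by push_cast; push_cast at h1; exact h1
      have h3 : e * t j + (r + 1) = 0 := by exact_mod_cast h2
      omega
    rw [hrep _ hnp, hrep' _ hnp]
    congr 1
    have h1 := hnat (∑ j, t j) (fun j => e * t j) (mem_of_sum (by rw [← mul_sum]))
    rw [hdiv]
    show _ * (1 + ∑ l : JJ m a, (coeff l.1.1 a * ∏ j, (c j) ^ (-γ l j)) * _) = _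
    rw [h1]
    refine sum_congr rfl fun l _ => ?_
    rw [hq]
    show _ = _ * _ * _ * ∏ i, ∏ r ∈ range (α l i), (((∑ j, ((e * t j : ℕ) : ℂ)) / (e : ℂ)) * A i +
      ∑ j, ((e * t j : ℕ) : ℂ) * m j i - ((β l i : ℂ) - α l i) - r)
    rw [hdiv, hsum]
    ring
  -- conclusion
  refine ⟨Fintype.card (JJ m a), Fintype.card J, fun l => ac (E'.symm l), fun l => γ (E'.symm l),
    fun l => q (E.symm l), fun l => ω (E.symm l), fun l => α (E.symm l),
    fun l => β (E.symm l), fun l => (hγ (E'.symm l)).1, fun l i => ?_, fun l => ?_,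
    fun l => (hω (E.symm l)).1, fun l i => (hω (E.symm l)).2 i, ?_⟩
  · show 0 ≤ ∑ j, γ (E'.symm l) j * (m j i : ℤ)
    rw [← (hγ (E'.symm l)).2 i]
    exact Int.natCast_nonneg _
  · have h1 := (E'.symm l).2.1
    by_contra hcon
    push Not at hcon
    apply h1
    ext i
    have h2 := hcon i
    rw [← (hγ (E'.symm l)).2 i] at h2
    rw [Finsupp.coe_zero, Pi.zero_apply]
    omega
  intro t ht
  have h1 : F t = G t := congrFun hFG t
  rw [hrep t ht, hrep' t ht] at h1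
  have hD : Dn t ≠ 0 := by
    refine prod_ne_zero_iff.mpr fun j _ => prod_ne_zero_iff.mpr fun r _ h0 => ht j r ?_
    exact eq_neg_of_add_eq_zero_left h0
  have h2 := mul_left_cancel₀ hD h1
  have h3 := Equiv.sum_comp E'.symm (fun l : JJ m a => ac l * ∏ j, ff (γ l j) (t j))
  rw [h3, h2]
  exact (Equiv.sum_comp E.symm (fun l : J => (q l).eval ((∑ j, t j) / e) *
        (∏ r ∈ range e, ((∑ j, t j) + ((r : ℂ) + 1))) * (∏ j, ff (ω l j) (t j)) * tail l t)).symm

theorem main : S_RAL := by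
  intro n k A m c e hm hc _ he b hb
  have hf : Pool.Agent.W428.MOT.sp A m c e = fCc A m c e := by
    unfold Pool.Agent.W428.MOT.sp fCc gCc
    rw [← prodX]
    congr 1
    congr 1
    refine Finset.sum_congr rfl fun j _ => ?_
    rw [prodX, C_mul_monomial, mul_one]
  rw [hf] at hb
  obtain ⟨a, M, cc, kk, w, ha, hid⟩ := exists_hid' _ b hb
  exact ral_of_hid A m hm c hc e he b a ha M cc kk w hid

end Pool.Agent.W125.NMRAL
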