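import Pool.Agent.W979.TE.Defs4

/-! The rooted graph with two new roots: admissibility and numbers of edges. -/

set_option autoImplicit false

open Classical

namespace Pool.Agent.W125.TE4

open Pool.Agent.W979.TE Pool.Agent.W979.TE4

variable {V : Type} (T : SimpleGraph V) (R : Set V) (col : V → Bool)

theorem adj_ll (u v : V) : (TS T R col).Adj (Sum.inl u) (Sum.inl v) ↔ T.Adj u v := by
  rw [TS, SimpleGraph.fromRel_adj]
  constructor
  · rintro ⟨-, h | h⟩
    · rcases h with ⟨a, b, h1, h2, h3⟩ | ⟨a, c, h1, h2, -⟩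
      · rw [Sum.inl.inj h1, Sum.inl.inj h2]
        exact h3
      · exact absurd h2 (by simp)
    · rcases h with ⟨a, b, h1, h2, h3⟩ | ⟨a, c, h1, h2, -⟩
      · rw [Sum.inl.inj h1, Sum.inl.inj h2]
        exact h3.symm
      · exact absurd h2 (by simp)
  · intro h
    refine ⟨fun h1 => h.ne (Sum.inl.inj h1), Or.inl (Or.inl ⟨u, v, rfl, rfl, h⟩)⟩

theorem adj_lr (v : V) (c : Bool) :
    (TS T R col).Adj (Sum.inl v) (Sum.inr c) ↔ v ∉ R ∧ col v ≠ c := by
  rw [TS, SimpleGraph.fromRel_adj]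
  constructor
  · rintro ⟨-, h | h⟩
    · rcases h with ⟨a, b, h1, h2, h3⟩ | ⟨a, d, h1, h2, h3, h4⟩
      · exact absurd h2 (by simp)
      · rw [Sum.inl.inj h1, Sum.inr.inj h2]
        exact ⟨h3, h4⟩
    · rcases h with ⟨a, b, h1, h2, h3⟩ | ⟨a, d, h1, h2, h3, h4⟩
      · exact absurd h1 (by simp)
      · exact absurd h1 (by simp)
  · rintro ⟨h1, h2⟩
    exact ⟨by simp, Or.inl (Or.inr ⟨v, c, rfl, rfl, h1, h2⟩)⟩

theorem adj_rr (c d : Bool) : ¬ (TS T R col).Adj (Sum.inr c) (Sum.inr d) := by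
  rw [TS, SimpleGraph.fromRel_adj]
  rintro ⟨-, h | h⟩
  · rcases h with ⟨a, b, h1, h2, h3⟩ | ⟨a, d, h1, h2, h3, h4⟩
    · exact absurd h1 (by simp)
    · exact absurd h1 (by simp)
  · rcases h with ⟨a, b, h1, h2, h3⟩ | ⟨a, d, h1, h2, h3, h4⟩
    · exact absurd h1 (by simp)
    · exact absurd h1 (by simp)

theorem compl_RS : (RS R)ᶜ = (Sum.inl : V → V ⊕ Bool) '' Rᶜ := by
  ext x
  rcases x with v | b
  · simp [RS]
  · simp [RS]

theorem sub_form (S : Set (V ⊕ Bool)) (hS : S ⊆ (RS R)ᶜ) :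
    ∃ S0 : Set V, S0 ⊆ Rᶜ ∧ S = Sum.inl '' S0 := by
  refine ⟨Sum.inl ⁻¹' S, ?_, ?_⟩
  · intro v hv
    have := hS hv
    rw [compl_RS] at this
    obtain ⟨w, hw, h⟩ := this
    rwa [Sum.inl.inj h] at hw
  · ext x
    constructor
    · intro hx
      have := hS hx
      rw [compl_RS] at this
      obtain ⟨w, hw, rfl⟩ := this
      exact ⟨w, hx, rfl⟩
    · rintro ⟨w, hw, rfl⟩
      exact hw

theorem eS_TS [Fintype V] (S0 : Set V) (hS : S0 ⊆ Rᶜ) :
    eS (TS T R col) (Sum.inl '' S0) = eS T S0 + S0.ncard := by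
  have hset : ({e | e ∈ (TS T R col).edgeSet ∧ ∃ v ∈ (Sum.inl '' S0 : Set (V ⊕ Bool)), v ∈ e} :
      Set (Sym2 (V ⊕ Bool))) =
      (Sym2.map Sum.inl '' ({e | e ∈ T.edgeSet ∧ ∃ v ∈ S0, v ∈ e} : Set (Sym2 V))) ∪
      ((fun v : V => s(Sum.inl v, Sum.inr (!col v))) '' S0) := by
    ext e
    constructor
    · rintro ⟨he, w, ⟨v, hv, rfl⟩, hve⟩
      obtain ⟨x, rfl⟩ := Sym2.mem_iff_exists.1 hve
      rw [SimpleGraph.mem_edgeSet] at he
      rcases x with x | b
      · left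
        rw [adj_ll] at he
        exact ⟨s(v, x), ⟨he, v, hv, Sym2.mem_mk_left v x⟩, rfl⟩
      · right
        rw [adj_lr] at he
        refine ⟨v, hv, ?_⟩
        have : b = !col v := by
          have h := he.2
          revert h
          cases b <;> cases col v <;> simp
        rw [this]
    · rintro (⟨e, ⟨he, v, hv, hve⟩, rfl⟩ | ⟨v, hv, rfl⟩)
      · obtain ⟨x, rfl⟩ := Sym2.mem_iff_exists.1 hve
        refine ⟨?_, Sum.inl v, ⟨v, hv, rfl⟩, ?_⟩
        · rw [Sym2.map_mk, SimpleGraph.mem_edgeSet]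
          exact (adj_ll T R col v x).2 he
        · rw [Sym2.map_mk]
          exact Sym2.mem_mk_left _ _
      · refine ⟨?_, Sum.inl v, ⟨v, hv, rfl⟩, Sym2.mem_mk_left _ _⟩
        rw [SimpleGraph.mem_edgeSet, adj_lr]
        exact ⟨hS hv, by cases col v <;> simp⟩
  have hdis : Disjoint (Sym2.map (Sum.inl : V → V ⊕ Bool) ''
      ({e | e ∈ T.edgeSet ∧ ∃ v ∈ S0, v ∈ e} : Set (Sym2 V)))
      ((fun v : V => (s(Sum.inl v, Sum.inr (!col v)) : Sym2 (V ⊕ Bool))) '' S0) := by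
    rw [Set.disjoint_left]
    rintro x ⟨e, -, rfl⟩ ⟨v, -, h⟩
    have h1 : (Sum.inr (!col v) : V ⊕ Bool) ∈ Sym2.map (Sum.inl : V → V ⊕ Bool) e := by
      rw [← h]
      exact Sym2.mem_mk_right _ _
    rw [Sym2.mem_map] at h1
    obtain ⟨w, -, hw⟩ := h1
    exact absurd hw (by simp)
  rw [eS, hset, Set.ncard_union_eq hdis (Set.toFinite _) (Set.toFinite _),
    Set.ncard_image_of_injective _ (Sym2.map.injective Sum.inl_injective),
    Set.ncard_image_of_injective]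
  · rfl
  · intro a b hab
    have h : (s(Sum.inl a, Sum.inr (!col a)) : Sym2 (V ⊕ Bool)) =
      s(Sum.inl b, Sum.inr (!col b)) := hab
    rw [Sym2.eq_iff] at h
    rcases h with h | h
    · exact Sum.inl.inj h.1
    · exact absurd h.1 (by simp)

theorem sh1 : S_SH1 := by
  intro V _ T R col m e hA hm he hbal
  refine ⟨⟨?_, ?_, ?_, ?_⟩, ?_, ?_, ?_⟩
  · obtain ⟨v0⟩ := hA.conn.nonempty
    rw [SimpleGraph.connected_iff_exists_forall_reachable]
    refine ⟨Sum.inl v0, ?_⟩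
    let φ : T →g TS T R col := ⟨Sum.inl, fun {a b} h => (adj_ll T R col a b).2 h⟩
    have h1 : ∀ v : V, (TS T R col).Reachable (Sum.inl v0) (Sum.inl v) := fun v =>
      (hA.conn.preconnected v0 v).map φ
    rintro (v | b)
    · exact h1 v
    · obtain ⟨v, hv, hc⟩ := hA.both (!b)
      refine (h1 v).trans (SimpleGraph.Adj.reachable ?_)
      rw [adj_lr]
      exact ⟨hv, by rw [hc]; cases b <;> simp⟩
  · obtain ⟨r, hr⟩ := hA.ne
    exact ⟨Sum.inl r, Or.inl ⟨r, hr, rfl⟩⟩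
  · rintro (u | b) (v | c) h
    · rw [adj_ll] at h
      exact hA.prop u v h
    · rw [adj_lr] at h
      exact h.2
    · have h2 := h.symm
      rw [adj_lr] at h2
      exact fun h3 => h2.2 h3.symm
    · exact absurd h (adj_rr T R col b c)
  · intro b
    obtain ⟨v, hv, hc⟩ := hA.both b
    refine ⟨Sum.inl v, ?_, hc⟩
    have : (Sum.inl v : V ⊕ Bool) ∈ (RS R)ᶜ := by
      rw [compl_RS]
      exact ⟨v, hv, rfl⟩
    exact this
  · rw [compl_RS, Set.ncard_image_of_injective _ Sum.inl_injective, hm]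
  · rw [compl_RS, eS_TS T R col _ subset_rfl, he, hm]
  · intro S hS
    obtain ⟨S0, hS0, rfl⟩ := sub_form R S hS
    rw [eS_TS T R col _ hS0, Set.ncard_image_of_injective _ Sum.inl_injective]
    have := hbal S0 hS0
    nlinarith

end Pool.Agent.W125.TE4
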